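import Pool.Agent.H82.BC.Core
import Pool.Agent.H82.BGK.Main

/-!
# Short sums over consecutive powers modulo a product of few primes

The theorem of Bourgain and Chang, for `N ≥ q ^ ε` consecutive powers of an element which has order at
least `N` modulo every prime factor of the squarefree number `q` with at most `k` prime factors.
-/

set_option autoImplicit false

namespace Pool.Agent.H82.BC

open Finset Filter Topology Pool.Agent.H82.BGK

variable {q : ℕ} [NeZero q] {P : Finset ℕ}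

theorem card_Sp_ge' (hP : ∀ p ∈ P, p.Prime) (hq : q = ∏ p ∈ P, p) {g a : ZMod q} (ha : a ≠ 0)
    {N : ℕ} (hN : ∀ p ∈ P, N ≤ orderOf (pr q p g)) (hN2 : 2 ≤ N) {η : ℝ} (hη : 0 < η)
    (hη1 : η ≤ 1) (haS : a ∈ Sp g N η) : η * N / 4 ≤ (Sp g N (η / 2)).card := by
  classical
  have hdvd : ∀ p ∈ P, p ∣ q := fun p hp => hq ▸ dvd_prod_of_mem (fun p => p) hp
  have hN' : (2 : ℝ) ≤ N := by exact_mod_cast hN2
  obtain ⟨p, hp, hpa⟩ : ∃ p ∈ P, pr q p a ≠ 0 := by
    by_contra hcon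
    push Not at hcon
    apply ha
    refine ext_pr hP hq fun p hp => ?_
    rw [hcon p hp, pr_zero (hdvd p hp)]
  have := Fact.mk (hP p hp)
  have hpq := hdvd p hp
  set n : ℕ := ⌊η * N / 4⌋₊ + 1 with hn
  have hn1 : η * N / 4 ≤ n := by
    rw [hn]
    push_cast
    exact (Nat.lt_floor_add_one _).le
  have hnN : n ≤ N := by
    have h1 : ((⌊η * N / 4⌋₊ : ℕ) : ℝ) ≤ η * N / 4 := Nat.floor_le (by positivity)
    have h2 : η * N ≤ 1 * N := by gcongr
    have h3 : (n : ℝ) ≤ N := by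
      rw [hn]
      push_cast
      linarith
    exact_mod_cast h3
  refine hn1.trans ?_
  have h1 : ((range n).image fun j => g ^ j * a).card = n := by
    rw [card_image_of_injOn, card_range]
    intro i hi j hj h
    rw [coe_range, Set.mem_Iio] at hi hj
    have h2 := congrArg (pr q p) h
    simp only at h2
    rw [pr_mul hpq, pr_mul hpq, pr_pow hpq, pr_pow hpq] at h2
    have h3 := hN p hp
    refine Pool.Agent.Y943.Fu.inj_pow (pr q p g) ?_ ?_ (mul_right_cancel₀ hpa h2)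
    · rw [coe_range, Set.mem_Iio]; omega
    · rw [coe_range, Set.mem_Iio]; omega
  rw [← h1]
  have h2 : ((range n).image fun j => g ^ j * a) ⊆ Sp g N (η / 2) := by
    intro x hx
    obtain ⟨j, hj, rfl⟩ := mem_image.1 hx
    rw [mem_range] at hj
    exact mul_pow_mem haS ((Nat.le_floor_iff (by positivity)).1 (by omega))
  exact_mod_cast card_le_card h2

/-- a level with slow growth -/
theorem exists_level' {g : ZMod q} {N : ℕ} {η M : ℝ} (hM : 0 ≤ M) {J : ℕ} (hq1 : 1 < q)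
    (hMJ : (q : ℝ) ≤ M ^ J) (h1 : 1 ≤ (Sp g N (lv η 0)).card) :
    ∃ k < J, ((Sp g N (lv η (k + 1))).card : ℝ) ≤ M * (Sp g N (lv η k)).card := by
  by_contra hcon
  push Not at hcon
  have hJ : J ≠ 0 := by
    rintro rfl
    have : (1 : ℝ) < q := by exact_mod_cast hq1
    rw [pow_zero] at hMJ
    linarith
  have h2 : ∀ k ≤ J, M ^ k ≤ (Sp g N (lv η k)).card := by
    intro k
    induction k with
    | zero =>
      intro _
      rw [pow_zero]
      exact_mod_cast h1
    | succ k ih =>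
      intro hk
      refine le_trans ?_ (hcon k (by omega)).le
      rw [pow_succ, mul_comm]
      have := ih (by omega)
      gcongr
  obtain ⟨k, rfl⟩ := Nat.exists_eq_succ_of_ne_zero hJ
  have h3 := hcon k (by omega)
  have h4 : ((Sp g N (lv η (k + 1))).card : ℝ) ≤ q := by
    have : (Sp g N (lv η (k + 1))).card ≤ q := by
      calc _ ≤ (univ : Finset (ZMod q)).card := card_le_card (subset_univ _)
        _ = q := by rw [card_univ, ZMod.card]
    exact_mod_cast this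
  have h5 : M ^ (k + 1) ≤ M * (Sp g N (lv η k)).card := by
    rw [pow_succ, mul_comm]
    have := h2 k (by omega)
    gcongr
  exact absurd (le_trans hMJ h5) (not_le.2 (h3.trans_le h4))

/-- an element which does not vanish modulo the prime factors is a unit -/
theorem isUnit_of_pr (hP : ∀ p ∈ P, p.Prime) (hq : q = ∏ p ∈ P, p) {g : ZMod q}
    (h : ∀ p ∈ P, pr q p g ≠ 0) : IsUnit g := by
  have hdvd : ∀ p ∈ P, p ∣ q := fun p hp => hq ▸ dvd_prod_of_mem (fun p => p) hp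
  rw [← ZMod.natCast_zmod_val g, ZMod.isUnit_iff_coprime]
  by_contra hcop
  obtain ⟨p, hp, hp1, hp2⟩ := Nat.Prime.not_coprime_iff_dvd.1 hcop
  have h1 : p ∈ P := by
    rw [hq] at hp2
    obtain ⟨p', hp', hd⟩ := (hp.prime.dvd_finsetProd_iff _).1 hp2
    rwa [(Nat.prime_dvd_prime_iff_eq hp (hP p' hp')).1 hd]
  apply h p h1
  rw [← ZMod.natCast_zmod_val g, pr_natCast (hdvd p h1), ZMod.natCast_eq_zero_iff]
  exact hp1

theorem order_lt {p : ℕ} [hp : Fact p.Prime] {h : ZMod p} (h0 : 1 ≤ orderOf h) :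
    h ≠ 0 ∧ orderOf h < p := by
  have h1 : h ≠ 0 := by
    rintro rfl
    have h2 : (0 : ZMod p) ^ orderOf (0 : ZMod p) = 1 := pow_orderOf_eq_one 0
    rw [zero_pow (by omega)] at h2
    exact zero_ne_one h2
  refine ⟨h1, ?_⟩
  have h2 : orderOf h ∣ p - 1 := by
    rw [orderOf_dvd_iff_pow_eq_one]
    exact ZMod.pow_card_sub_one_eq_one h1
  have := Nat.le_of_dvd (Nat.sub_pos_of_lt hp.out.one_lt) h2
  have := hp.out.pos
  omega

end Pool.Agent.H82.BC

namespace Pool.Agent.H82.BC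

open Finset Filter Topology Pool.Agent.H82.BGK

/-- **the theorem of Bourgain and Chang**: sums over `N ≥ q ^ ε` consecutive powers of an element of
order at least `N` modulo every prime factor are at most `N q ^ (-δ)`, for squarefree `q` with at most
`k` prime factors -/
theorem bc {ε : ℝ} (hε : 0 < ε) (k : ℕ) : ∃ δ : ℝ, 0 < δ ∧ ∃ q₀ : ℕ, ∀ (q : ℕ) [NeZero q]
    (P : Finset ℕ), (∀ p ∈ P, p.Prime) → q = ∏ p ∈ P, p → P.card ≤ k → q₀ ≤ q →
    ∀ (g : ZMod q) (N : ℕ), (∀ p ∈ P, N ≤ orderOf (pr q p g)) → (q : ℝ) ^ ε ≤ N →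
    ∀ a : ZMod q, a ≠ 0 →
    ‖∑ i ∈ range N, ZMod.stdAddChar (N := q) (a * g ^ i)‖ ≤ N * (q : ℝ) ^ (-δ) := by
  -- the number of steps
  obtain ⟨i, hi⟩ := pow_unbounded_of_one_lt (4 / ε) (by norm_num : (1 : ℝ) < 2)
  have hi' : 1 ≤ ε / 4 * 2 ^ i := by
    rw [div_lt_iff₀ hε] at hi
    linarith
  set E : ℕ := 200 * 4 ^ (4 * i + 7 + 2 * k) * (k + 2) + 1 with hE
  have hE201 : (201 : ℝ) ≤ E := by
    have : 201 ≤ E := by
      have h1 : 1 ≤ 4 ^ (4 * i + 7 + 2 * k) := Nat.one_le_pow _ _ (by norm_num)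
      have h2 : 200 * 1 * 1 ≤ 200 * 4 ^ (4 * i + 7 + 2 * k) * (k + 2) := by
        gcongr
        omega
      omega
    exact_mod_cast this
  obtain ⟨J, hJ⟩ := exists_nat_gt (8 * E / ε)
  have hJ0 : (0 : ℝ) < J := lt_of_le_of_lt (by positivity) hJ
  have hJε : 8 * E ≤ ε * J := by
    rw [div_lt_iff₀ hε] at hJ
    linarith
  set c : ℝ := 2 * (1 / 4) ^ 2 ^ J with hc
  have hc0 : 0 < c := by positivity
  set C : ℝ := 2 ^ 24 / c ^ 4 with hC
  have hC0 : 0 < C := by positivity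
  set δ : ℝ := 1 / (4 * J * 2 ^ J) with hδ
  have hδ0 : 0 < δ := by positivity
  obtain ⟨p₁, hp₁⟩ := ev_pow (by positivity : 0 < ε / 4) (32 * C ^ E / c ^ 2 + 1)
  obtain ⟨p₂, hp₂⟩ := ev_pow (by positivity : 0 < ε / 4) (8 * C ^ 2 / c)
  obtain ⟨p₃, hp₃⟩ := ev_pow hε 4
  refine ⟨δ, hδ0, max (max p₁ p₂) (max p₃ 4),
    fun q hqF P hP hq hPk hqq g N hN hNε a ha => ?_⟩
  have g1 : p₁ ≤ q := ((le_max_left _ _).trans (le_max_left _ _)).trans hqq
  have g2 : p₂ ≤ q := ((le_max_right _ _).trans (le_max_left _ _)).trans hqq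
  have g3 : 4 ≤ q := ((le_max_right _ _).trans (le_max_right _ _)).trans hqq
  have g4 : p₃ ≤ q := ((le_max_left _ _).trans (le_max_right _ _)).trans hqq
  have hx4 : (4 : ℝ) ≤ q := by exact_mod_cast g3
  set x : ℝ := (q : ℝ) with hx
  have hx0 : 0 < x := by linarith
  have hx1 : 1 ≤ x := by linarith
  have hN4 : (4 : ℝ) ≤ N := (hp₃ q g4).trans hNε
  have hN4' : 4 ≤ N := by exact_mod_cast hN4
  have hN2 : 2 ≤ N := by omega
  have hN' : (2 : ℝ) ≤ N := by exact_mod_cast hN2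
  have hP4 : ∀ p ∈ P, 4 ≤ p := by
    intro p hp
    have := Fact.mk (hP p hp)
    have h1 := hN p hp
    have h2 := (order_lt (h := pr q p g) (by omega)).2
    omega
  have hg : IsUnit g := isUnit_of_pr hP hq fun p hp => by
    have := Fact.mk (hP p hp)
    have h1 := hN p hp
    exact (order_lt (h := pr q p g) (by omega)).1
  set η : ℝ := x ^ (-δ) with hη
  have hη0 : 0 < η := Real.rpow_pos_of_pos hx0 _
  have hη1 : η ≤ 1 := Real.rpow_le_one_of_one_le_of_nonpos hx1 (by linarith)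
  by_contra hcon
  rw [not_le] at hcon
  have haS : a ∈ Sp g N η := by
    rw [mem_Sp]
    unfold Fs
    rw [mul_comm]
    exact hcon.le
  have h0 := card_Sp_ge' hP hq ha hN hN2 hη0 hη1 haS
  rw [← lv_zero] at h0
  -- the level
  set M : ℝ := x ^ ((J : ℝ)⁻¹) with hM
  have hM1 : 1 ≤ M := Real.one_le_rpow hx1 (by positivity)
  have hMJ : M ^ J = x := Real.rpow_inv_natCast_pow hx0.le (by
    rintro rfl
    norm_num at hJ0)
  have h1 : 1 ≤ (Sp g N (lv η 0)).card := by
    rw [Nat.one_le_iff_ne_zero, ← Nat.pos_iff_ne_zero]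
    have : (0 : ℝ) < (Sp g N (lv η 0)).card := lt_of_lt_of_le (by positivity) h0
    exact_mod_cast this
  obtain ⟨l, hl, hkM⟩ := exists_level' (by linarith : 0 ≤ M) (by omega : 1 < q) hMJ.ge h1
  set t := lv η l with ht
  have ht0 : 0 < t := lv_pos hη0 l
  have htη : t ≤ η / 2 := by
    rw [← lv_zero]
    exact lv_anti hη0 hη1 (Nat.zero_le l)
  have ht1 : t ≤ 1 := by linarith
  have htJ : c * x ^ (-(1 / (4 * J)) : ℝ) ≤ t := by
    refine le_trans (le_of_eq ?_) (lv_anti hη0 hη1 hl.le)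
    unfold lv
    have e1 : η / 4 = 1 / 4 * η := by ring
    rw [e1, mul_pow, hc, hη, ← Real.rpow_natCast (x ^ (-δ)), ← Real.rpow_mul hx0.le]
    have e2 : -δ * ((2 ^ J : ℕ) : ℝ) = -(1 / (4 * J)) := by
      rw [hδ]
      push_cast
      field_simp
    rw [e2]
    ring
  set y : ℝ := x ^ (-(1 / (4 * J)) : ℝ) with hy
  have hy0 : 0 < y := Real.rpow_pos_of_pos hx0 _
  have hy4 : y ^ 4 * M = 1 := by
    rw [hy, hM, ← Real.rpow_natCast, ← Real.rpow_mul hx0.le, ← Real.rpow_add hx0]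
    have : -(1 / (4 * (J : ℝ))) * ((4 : ℕ) : ℝ) + (J : ℝ)⁻¹ = 0 := by
      push_cast
      field_simp
      ring
    rw [this, Real.rpow_zero]
  -- the constant
  set V : ℝ := C * M ^ 2 with hV
  have hV' : 2 ^ 24 * M / t ^ 4 ≤ V := by
    have e1 : (c * y) ^ 4 ≤ t ^ 4 := by gcongr
    calc 2 ^ 24 * M / t ^ 4 ≤ 2 ^ 24 * M / (c * y) ^ 4 := by gcongr
      _ = 2 ^ 24 * M * (y ^ 4 * M) / (c * y) ^ 4 := by rw [hy4, mul_one]
      _ = V := by
        rw [hV, hC]
        field_simp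
  have hV0 : 0 < V := by positivity
  have hV1 : 1 ≤ V := by
    refine le_trans ?_ hV'
    rw [le_div_iff₀ (by positivity)]
    have : t ^ 4 ≤ 1 := pow_le_one₀ ht0.le ht1
    nlinarith
  -- powers of `x`
  set z : ℝ := x ^ (ε / 4) with hz
  have hz0 : 0 < z := Real.rpow_pos_of_pos hx0 _
  have hz1 : 1 ≤ z := Real.one_le_rpow hx1 (by positivity)
  have hz4 : x ^ ε = z ^ 4 := by
    rw [hz, ← Real.rpow_natCast, ← Real.rpow_mul hx0.le]
    congr 1
    push_cast
    ring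
  have hMz : M ^ (2 * E) ≤ z := by
    rw [hM, hz, ← Real.rpow_natCast, ← Real.rpow_mul hx0.le]
    apply Real.rpow_le_rpow_of_exponent_le hx1
    push_cast
    rw [inv_mul_le_iff₀ hJ0]
    linarith
  have hMz4 : M ^ 5 ≤ z := by
    refine le_trans ?_ hMz
    apply pow_le_pow_right₀ hM1
    have : 201 ≤ E := by exact_mod_cast hE201
    omega
  have hyM : 1 ≤ y * M := by
    have e1 : y ≤ 1 := Real.rpow_le_one_of_one_le_of_nonpos hx1 (by
      have : 0 < 1 / (4 * (J : ℝ)) := by positivity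
      linarith)
    calc 1 = y ^ 4 * M := hy4.symm
      _ ≤ y * M := by
        have : y ^ 4 ≤ y := by
          calc y ^ 4 ≤ y ^ 1 := pow_le_pow_of_le_one hy0.le e1 (by norm_num)
            _ = y := pow_one y
        gcongr
  have hpx : ∀ p ∈ P, (p : ℝ) ≤ z ^ 2 ^ i := by
    intro p hp
    have hpq : p ≤ q := Nat.le_of_dvd (by omega) (hq ▸ dvd_prod_of_mem (fun p => p) hp)
    have hpx : (p : ℝ) ≤ x := Nat.cast_le.2 hpq
    refine hpx.trans ?_
    rw [hz, ← Real.rpow_natCast, ← Real.rpow_mul hx0.le]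
    calc x = x ^ (1 : ℝ) := (Real.rpow_one x).symm
      _ ≤ _ := Real.rpow_le_rpow_of_exponent_le hx1 (by push_cast; exact hi')
  -- the parameter `s`
  have hfin := core hP hP4 hq hg hN hN2 ht0 ht1 hM1 hV' (by
      rw [ht, ← lv_succ]
      exact hkM) (by
      refine le_trans ?_ (h0.trans ?_)
      · have : t ≤ η := by linarith
        gcongr
      · exact_mod_cast card_le_card (Sp_anti (lv_anti hη0 hη1 (Nat.zero_le l)))) (s := z) hz1 (by
      rw [le_div_iff₀ (by positivity)]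
      have e1 := hp₂ q g2
      rw [div_le_iff₀ hc0] at e1
      calc z * (8 * V ^ 2) = z * (8 * C ^ 2) * M ^ 4 := by rw [hV]; ring
        _ ≤ z * (z * c) * M ^ 4 := by gcongr
        _ = z * z * c * M ^ 4 * 1 := by ring
        _ ≤ z * z * c * M ^ 4 * (y * M) := by gcongr
        _ = (c * y) * (z * z * M ^ 5) := by ring
        _ ≤ t * (z * z * z) := by gcongr
        _ ≤ t * (z * z * z * z) :=
          mul_le_mul_of_nonneg_left (le_mul_of_one_le_right (by positivity) hz1) ht0.le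
        _ = t * x ^ ε := by rw [hz4]; ring
        _ ≤ t * N := by gcongr) i hpx
  have hfin' : N * t ^ 2 ≤ 32 * V ^ E := by
    refine hfin.trans ?_
    have : V ^ (200 * 4 ^ (4 * i + 7 + 2 * P.card) * (P.card + 2) + 1) ≤ V ^ E := by
      apply pow_le_pow_right₀ hV1
      rw [hE]
      have h4 : 4 ^ (4 * i + 7 + 2 * P.card) ≤ 4 ^ (4 * i + 7 + 2 * k) :=
        Nat.pow_le_pow_right (by norm_num) (by omega)
      have h5 : 200 * 4 ^ (4 * i + 7 + 2 * P.card) * (P.card + 2) ≤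
          200 * 4 ^ (4 * i + 7 + 2 * k) * (k + 2) := by gcongr
      omega
    linarith
  -- the contradiction
  have e1 := hp₁ q g1
  have e2 : 32 * V ^ E ≤ 32 * C ^ E * z := by
    rw [hV, mul_pow, ← pow_mul, mul_assoc]
    gcongr
  have e3 : z ^ 4 * (c * y) ^ 2 ≤ N * t ^ 2 := by
    rw [← hz4]
    gcongr
  have e4 : 32 * C ^ E < z * c ^ 2 := by
    have e5 : 32 * C ^ E / c ^ 2 < z := by linarith
    rwa [div_lt_iff₀ (by positivity)] at e5
  have e5 : z ^ 4 * (c * y) ^ 2 < z ^ 2 * c ^ 2 := by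
    calc z ^ 4 * (c * y) ^ 2 ≤ 32 * C ^ E * z := e3.trans (hfin'.trans e2)
      _ < z * c ^ 2 * z := by gcongr
      _ = _ := by ring
  have e6 : (1 : ℝ) ≤ z ^ 2 * y ^ 2 := by
    have e7 : 1 ≤ z * y := by
      calc 1 ≤ y * M := hyM
        _ ≤ y * z := by
          have : M ≤ M ^ 5 := le_self_pow₀ hM1 (by norm_num)
          have := this.trans hMz4
          gcongr
        _ = z * y := by ring
    calc (1 : ℝ) ≤ (z * y) ^ 2 := one_le_pow₀ e7
      _ = _ := by ring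
  have e7 : z ^ 4 * (c * y) ^ 2 = z ^ 2 * c ^ 2 * (z ^ 2 * y ^ 2) := by ring
  have e8 : z ^ 2 * c ^ 2 * 1 ≤ z ^ 2 * c ^ 2 * (z ^ 2 * y ^ 2) := by gcongr
  linarith

end Pool.Agent.H82.BC
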