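import Pool.Agent.H82.BC.Asm
import Pool.Agent.H82.PD.Count

/-!
# Denominators with few large prime factors, up to a small factor
-/

set_option autoImplicit false

namespace Pool.Agent.H82.BC

open Finset Filter Topology Pool.Agent.Y943.Fu Pool.Agent.H332R2.Lit

/-- the structure of the denominator, with the large primes given -/
def GS (b : ℕ) (ε β : ℝ) (k q : ℕ) (P : Finset ℕ) : Prop := ∃ (m D n₀ N : ℕ),
  (∀ p ∈ P, p.Prime) ∧ P.card ≤ k ∧ q = (∏ p ∈ P, p) * m ∧ 1 ≤ m ∧ Nat.Coprime m (∏ p ∈ P, p) ∧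
  (q : ℝ) ^ β ≤ ((∏ p ∈ P, p : ℕ) : ℝ) ∧ m ∣ b ^ n₀ * (b ^ D - 1) ∧
  (∀ p ∈ P, N ≤ orderOf ((b : ZMod p) ^ D)) ∧ (q : ℝ) ^ β ≤ N ∧
  ((n₀ + D * N : ℕ) : ℝ) ≤ (q : ℝ) ^ ε

/-- **sums along the orbits of fractions** -/
theorem sums_GS {b : ℕ} (hb : 2 ≤ b) {ε β η : ℝ} (hε : 0 < ε) (hβ : 0 < β) (k H : ℕ) (hη : 0 < η) :
    ∃ Q₀ : ℕ, ∀ q : ℕ, Q₀ ≤ q → ∀ P : Finset ℕ, GS b ε β k q P → ∀ c : ℤ,
      (∃ p ∈ P, ¬ (p : ℤ) ∣ c) →
      ∀ N : ℕ, (q : ℝ) ^ (2 * ε) ≤ N → ∀ h : ℕ, 1 ≤ h → h ≤ H →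
        ‖∑ n ∈ range N, e ((h : ℝ) * ((b : ℝ) ^ n * (c / q)))‖ ≤ η * N := by
  obtain ⟨δ, hδ, q₀, hbc⟩ := bc hβ k
  obtain ⟨Q₁, hQ₁⟩ := Pool.Agent.H82.BGK.ev_pow hβ ((max q₀ (H + 2) : ℕ) : ℝ)
  obtain ⟨Q₂, hQ₂⟩ := Pool.Agent.H82.BGK.ev_pow (mul_pos hβ hδ) (1 / (η / 2))
  obtain ⟨Q₃, hQ₃⟩ := Pool.Agent.H82.BGK.ev_pow hε (1 / (η / 2))
  refine ⟨max (max Q₁ Q₂) (max Q₃ 1), fun q hq P hGG c hc N₁ hN₁ h h1 h2 => ?_⟩
  obtain ⟨m, D, n₀, N, hP, hPk, hqm, hm, hcop, hbig, hdvd, hord, hN, hlen⟩ := hGG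
  have g1 : Q₁ ≤ q := ((le_max_left _ _).trans (le_max_left _ _)).trans hq
  have g2 : Q₂ ≤ q := ((le_max_right _ _).trans (le_max_left _ _)).trans hq
  have g3 : Q₃ ≤ q := ((le_max_left _ _).trans (le_max_right _ _)).trans hq
  have g4 : 1 ≤ q := ((le_max_right _ _).trans (le_max_right _ _)).trans hq
  have hq1 : (1 : ℝ) ≤ q := by exact_mod_cast g4
  have hq0 : (0 : ℝ) < q := by linarith
  set r : ℕ := ∏ p ∈ P, p with hr
  have hrq : r ≤ q := by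
    rw [hqm]
    exact Nat.le_mul_of_pos_right _ hm
  have hr0 : 0 < r := prod_pos fun p hp => (hP p hp).pos
  have hNZ : NeZero r := ⟨hr0.ne'⟩
  have hr0' : (0 : ℝ) < r := by exact_mod_cast hr0
  have hrbig : max q₀ (H + 2) ≤ r := by
    have := (hQ₁ q g1).trans hbig
    exact_mod_cast this
  have hNbig : max q₀ (H + 2) ≤ N := by
    have := (hQ₁ q g1).trans hN
    exact_mod_cast this
  have hN1 : 2 ≤ N := by
    have := (le_max_right q₀ (H + 2)).trans hNbig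
    omega
  have hrN : (r : ℝ) ^ β ≤ N := by
    refine le_trans ?_ hN
    have : (r : ℝ) ≤ q := by exact_mod_cast hrq
    gcongr
  have hdvdr : ∀ p ∈ P, p ∣ r := fun p hp => dvd_prod_of_mem (fun p => p) hp
  have hord' : ∀ p ∈ P, N ≤ orderOf (pr r p ((b : ZMod r) ^ D)) := by
    intro p hp
    rw [pr_pow (hdvdr p hp), pr_natCast (hdvdr p hp)]
    exact hord p hp
  -- the exponent is positive
  have hPne : P.Nonempty := by
    rw [nonempty_iff_ne_empty]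
    rintro rfl
    rw [prod_empty] at hr
    have := (le_max_right q₀ (H + 2)).trans hrbig
    omega
  have hD : 1 ≤ D := by
    rcases Nat.eq_zero_or_pos D with h0 | h0
    · obtain ⟨p, hp⟩ := hPne
      have h1 := hord p hp
      rw [h0, pow_zero, orderOf_one] at h1
      omega
    · exact h0
  -- units
  have hbu : IsUnit ((b : ZMod r) ^ D) := isUnit_of_pr hP rfl fun p hp => by
    have := Fact.mk (hP p hp)
    have h1 := hord' p hp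
    exact (order_lt (h := pr r p ((b : ZMod r) ^ D)) (by omega)).1
  have hbu' : IsUnit (b : ZMod r) := (isUnit_pow_iff (by omega)).1 hbu
  have hmu : IsUnit ((m : ZMod r)⁻¹) := by
    have h1 : (m : ZMod r) * (m : ZMod r)⁻¹ = 1 := ZMod.coe_mul_inv_eq_one m hcop
    exact IsUnit.of_mul_eq_one (m : ZMod r) (by rw [mul_comm]; exact h1)
  have hhc : ((h : ZMod r) * ((c : ℤ) : ZMod r)) ≠ 0 := by
    obtain ⟨p, hp, hpc⟩ := hc
    have hF := Fact.mk (hP p hp)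
    intro h0
    have h3 := congrArg (pr r p) h0
    rw [pr_mul (hdvdr p hp), pr_natCast (hdvdr p hp), pr_intCast (hdvdr p hp),
      pr_zero (hdvdr p hp)] at h3
    rcases mul_eq_zero.1 h3 with h4 | h4
    · rw [ZMod.natCast_eq_zero_iff] at h4
      have h5 := Nat.le_of_dvd h1 h4
      have h6 := (order_lt (h := pr r p ((b : ZMod r) ^ D)) (by have := hord' p hp; omega)).2
      have h7 := hord' p hp
      have h8 := (le_max_right q₀ (H + 2)).trans hNbig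
      omega
    · rw [ZMod.intCast_zmod_eq_zero_iff_dvd] at h4
      exact hpc h4
  have hη2 : (r : ℝ) ^ (-δ) ≤ η / 2 := by
    have h5 := hQ₂ q g2
    have h6 : (q : ℝ) ^ (β * δ) ≤ (r : ℝ) ^ δ := by
      rw [Real.rpow_mul hq0.le]
      gcongr
    have h7 := h5.trans h6
    rw [Real.rpow_neg hr0'.le]
    rw [div_le_iff₀ (by positivity)] at h7
    rw [inv_le_iff_one_le_mul₀ (by positivity)]
    linarith
  set f : ℕ → ℂ := fun n => e ((h : ℝ) * ((b : ℝ) ^ n * (c / q))) with hf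
  have hf1 : ∀ n, ‖f n‖ ≤ 1 := fun n => (norm_e' _).le
  -- a progression
  have hprog : ∀ n, n₀ ≤ n → ‖∑ l ∈ range N, f (n + D * l)‖ ≤ η / 2 * N := by
    intro n hn
    obtain ⟨t, rfl⟩ := Nat.exists_eq_add_of_le hn
    have e1 : ∀ l ∈ range N, f (n₀ + t + D * l) =
        e ((h : ℝ) * ((b : ℝ) ^ (n₀ + D * l) * (((c * (b : ℤ) ^ t : ℤ) : ℝ) / ((r * m : ℕ) : ℝ)))) := by
      intro l _
      rw [hf]
      simp only
      congr 1
      rw [← hqm]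
      push_cast
      ring
    rw [sum_congr rfl e1, orbit_sum' (by omega) hm hcop hdvd (c * (b : ℤ) ^ t)]
    have ha : (h : ZMod r) * ((c * (b : ℤ) ^ t : ℤ) : ZMod r) * (b : ZMod r) ^ n₀ *
        (m : ZMod r)⁻¹ ≠ 0 := by
      intro h0
      apply hhc
      have h3 : IsUnit ((b : ZMod r) ^ t * (b : ZMod r) ^ n₀ *
          (m : ZMod r)⁻¹) := ((hbu'.pow t).mul (hbu'.pow n₀)).mul hmu
      have h4 : ((h : ZMod r) * ((c : ℤ) : ZMod r)) * ((b : ZMod r) ^ t * (b : ZMod r) ^ n₀ *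
          (m : ZMod r)⁻¹) = 0 := by
        rw [← h0]
        push_cast
        ring
      exact (h3.mul_left_eq_zero).1 h4
    have h3 := hbc r P hP rfl hPk ((le_max_left _ _).trans hrbig) ((b : ZMod r) ^ D) N hord' hrN _ ha
    refine h3.trans ?_
    rw [mul_comm]
    gcongr
  -- a block
  have hblock : ∀ n, n₀ ≤ n → ‖∑ i ∈ range (D * N), f (n + i)‖ ≤ η / 2 * ((D * N : ℕ) : ℝ) := by
    intro n hn
    rw [sum_prog (fun i => f (n + i)) D N]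
    refine (norm_sum_le _ _).trans ?_
    have e1 : ∀ ρ ∈ range D, ‖∑ l ∈ range N, f (n + (ρ + D * l))‖ ≤ η / 2 * N := by
      intro ρ _
      have h3 := hprog (n + ρ) (by omega)
      have h4 : ∑ l ∈ range N, f (n + (ρ + D * l)) = ∑ l ∈ range N, f (n + ρ + D * l) :=
        sum_congr rfl fun l _ => by rw [add_assoc]
      rw [h4]
      exact h3
    refine (sum_le_sum e1).trans (le_of_eq ?_)
    rw [sum_const, card_range, nsmul_eq_mul]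
    push_cast
    ring
  have hfin := norm_sum_blocks hf1 (Nat.mul_pos hD (by omega) : 1 ≤ D * N)
    (by positivity : 0 ≤ η / 2) hblock N₁
  refine hfin.trans ?_
  have h3 : (n₀ : ℝ) + ((D * N : ℕ) : ℝ) ≤ (q : ℝ) ^ ε := by exact_mod_cast hlen
  have h4 : (q : ℝ) ^ ε ≤ η / 2 * N₁ := by
    have h5 := hQ₃ q g3
    have h6 : (q : ℝ) ^ (2 * ε) = (q : ℝ) ^ ε * (q : ℝ) ^ ε := by
      rw [← Real.rpow_add hq0]
      congr 1
      ring
    rw [div_le_iff₀ (by positivity)] at h5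
    have h7 : 0 < (q : ℝ) ^ ε := by positivity
    calc (q : ℝ) ^ ε = 1 * (q : ℝ) ^ ε := (one_mul _).symm
      _ ≤ ((q : ℝ) ^ ε * (η / 2)) * (q : ℝ) ^ ε := by gcongr
      _ = η / 2 * ((q : ℝ) ^ (2 * ε)) := by rw [h6]; ring
      _ ≤ η / 2 * N₁ := by gcongr
  linarith


/-- the primes modulo which all small `b` have order at least `p ^ (ε/3)` -/
def PE (ε : ℝ) (p : ℕ) : Prop := p.Prime ∧ ∀ b : ℕ, 2 ≤ b → (b : ℝ) ≤ Real.log p →
  (p : ℝ) ^ (ε / 3) ≤ orderOf (b : ZMod p)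

/-- all but `X ^ ε` of the primes up to `X` are in this set -/
theorem count_PE {ε : ℝ} (hε : 0 < ε) : ∃ X₀ : ℕ, ∀ X : ℕ, X₀ ≤ X →
    (({p : ℕ | p ≤ X ∧ p.Prime ∧ ¬ PE ε p}.ncard : ℕ) : ℝ) ≤ (X : ℝ) ^ ε := by
  have h1 : ∀ᶠ X : ℕ in atTop, Real.log X ≤ (X : ℝ) ^ (ε / 6) := by
    have h1 := (isLittleO_log_rpow_atTop (by positivity : 0 < ε / 6)).comp_tendsto
      tendsto_natCast_atTop_atTop
    have h2 := h1.bound (by norm_num : (0 : ℝ) < 1)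
    filter_upwards [h2, eventually_ge_atTop 1] with X hX hX2
    simp only [Function.comp] at hX
    have hX1 : (1 : ℝ) ≤ X := by exact_mod_cast hX2
    rw [Real.norm_eq_abs, Real.norm_eq_abs, abs_of_nonneg (Real.log_nonneg hX1),
      abs_of_nonneg (by positivity)] at hX
    linarith
  obtain ⟨X₀, hX₀⟩ := eventually_atTop.1 (h1.and (eventually_ge_atTop 1))
  refine ⟨X₀, fun X hX => ?_⟩
  obtain ⟨e1, e2⟩ := hX₀ X hX
  have hX1 : (1 : ℝ) ≤ X := by exact_mod_cast e2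
  have hX0 : (0 : ℝ) < X := by linarith
  have hL0 : 0 ≤ Real.log X := Real.log_nonneg hX1
  set B := ⌊Real.log X⌋₊ with hB
  set T := ⌊(X : ℝ) ^ (ε / 3)⌋₊ with hT
  have hsub : {p : ℕ | p ≤ X ∧ p.Prime ∧ ¬ PE ε p} ⊆
      {p : ℕ | p ≤ X ∧ p.Prime ∧ ∃ b : ℕ, 2 ≤ b ∧ b ≤ B ∧ ¬ p ∣ b ∧ orderOf (b : ZMod p) ≤ T} := by
    rintro p ⟨hpX, hp, hbad⟩
    have hpX' : (p : ℝ) ≤ X := by exact_mod_cast hpX
    have hp0 : (0 : ℝ) < p := by exact_mod_cast hp.pos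
    refine ⟨hpX, hp, ?_⟩
    unfold PE at hbad
    push Not at hbad
    obtain ⟨b, hb2, hbp, hord⟩ := hbad hp
    refine ⟨b, hb2, ?_, Pool.Agent.H82.PD.not_dvd_of_lt hb2 (Pool.Agent.H82.PD.lt_of_PB hp hbp), ?_⟩
    · apply Nat.le_floor
      exact hbp.trans (Real.log_le_log hp0 hpX')
    · apply Nat.le_floor
      exact hord.le.trans (Real.rpow_le_rpow hp0.le hpX' (by positivity))
  have hfin : {p : ℕ | p ≤ X ∧ p.Prime ∧ ∃ b : ℕ, 2 ≤ b ∧ b ≤ B ∧ ¬ p ∣ b ∧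
      orderOf (b : ZMod p) ≤ T}.Finite := (Set.finite_Iic X).subset fun p hp => hp.1
  have h3 := (Set.ncard_le_ncard hsub hfin).trans (Pool.Agent.H82.PD.count_bad X B T)
  have h4 : (({p : ℕ | p ≤ X ∧ p.Prime ∧ ¬ PE ε p}.ncard : ℕ) : ℝ) ≤ ((B * T) ^ 2 : ℕ) := by
    exact_mod_cast h3
  refine h4.trans ?_
  push_cast
  have h5 : (B : ℝ) ≤ (X : ℝ) ^ (ε / 6) := (Nat.floor_le hL0).trans e1
  have h6 : (T : ℝ) ≤ (X : ℝ) ^ (ε / 3) := Nat.floor_le (by positivity)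
  calc ((B : ℝ) * T) ^ 2 ≤ ((X : ℝ) ^ (ε / 6) * (X : ℝ) ^ (ε / 3)) ^ 2 := by gcongr
    _ = (X : ℝ) ^ ε := by
      rw [← Real.rpow_add hX0, ← Real.rpow_natCast, ← Real.rpow_mul hX0.le]
      congr 1
      push_cast
      ring

/-- the denominators `q = m ∏ p` with `p ≥ q ^ ε` and `m ≤ q ^ δ` -/
def Den (P : Set ℕ) (ε δ : ℝ) (q : ℕ) (S : Finset ℕ) : Prop := ∃ m : ℕ,
  (∀ p ∈ S, p ∈ P ∧ (q : ℝ) ^ ε ≤ p) ∧ q = (∏ p ∈ S, p) * m ∧ (m : ℝ) ≤ (q : ℝ) ^ δ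

theorem gs_of_den {b : ℕ} (hb : 2 ≤ b) {ε : ℝ} (hε : 0 < ε) (hε1 : ε ≤ 1) :
    ∃ Q₀ : ℕ, ∀ q : ℕ, Q₀ ≤ q → ∀ S : Finset ℕ, Den {p | PE ε p} ε (ε ^ 2 / 12) q S →
      GS b (2 * ε ^ 2 / 5) (ε ^ 2 / 8) ⌈1 / ε⌉₊ q S := by
  have hε2 : 0 < ε ^ 2 := by positivity
  have hεε : ε ^ 2 ≤ ε := by nlinarith
  obtain ⟨Q₁, hQ₁⟩ := Pool.Agent.H82.BGK.ev_pow (by positivity : 0 < ε ^ 2 / 15) (2 : ℝ)
  have h1 : ∀ᶠ q : ℕ in atTop, 2 * Real.log q + 1 ≤ (q : ℝ) ^ (ε ^ 2 / 3) := by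
    have hLt : Tendsto (fun X : ℕ => Real.log X) atTop atTop :=
      Real.tendsto_log_atTop.comp tendsto_natCast_atTop_atTop
    have h1 := (isLittleO_log_rpow_atTop (by positivity : 0 < ε ^ 2 / 3)).comp_tendsto
      tendsto_natCast_atTop_atTop
    have h2 := h1.bound (by norm_num : (0 : ℝ) < 1 / 3)
    filter_upwards [h2, hLt.eventually_ge_atTop 1] with X hX hX2
    simp only [Function.comp] at hX
    rw [Real.norm_eq_abs, Real.norm_eq_abs, abs_of_nonneg (by linarith : 0 ≤ Real.log X),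
      abs_of_nonneg (by positivity)] at hX
    linarith
  obtain ⟨Q₂, hQ₂⟩ := eventually_atTop.1 h1
  obtain ⟨Q₃, hQ₃⟩ := Pool.Agent.H82.BGK.ev_pow hε (Real.exp b)
  refine ⟨max (max Q₁ Q₂) (max Q₃ 2), fun q hq S hDen => ?_⟩
  obtain ⟨m, hS, hqm, hmq⟩ := hDen
  have g1 := hQ₁ q (((le_max_left _ _).trans (le_max_left _ _)).trans hq)
  have g2 := hQ₂ q (((le_max_right _ _).trans (le_max_left _ _)).trans hq)
  have g3 := hQ₃ q (((le_max_left _ _).trans (le_max_right _ _)).trans hq)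
  have g4 : 2 ≤ q := ((le_max_right _ _).trans (le_max_right _ _)).trans hq
  have hq2 : (2 : ℝ) ≤ q := by exact_mod_cast g4
  have hq1 : (1 : ℝ) ≤ q := by linarith
  have hq0 : (0 : ℝ) < q := by linarith
  have hmono : ∀ e e' : ℝ, e ≤ e' → (q : ℝ) ^ e ≤ (q : ℝ) ^ e' := fun e e' h =>
    Real.rpow_le_rpow_of_exponent_le hq1 h
  have hadd : ∀ e e' : ℝ, (q : ℝ) ^ e * (q : ℝ) ^ e' = (q : ℝ) ^ (e + e') := fun e e' =>
    (Real.rpow_add hq0 _ _).symm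
  have hprime : ∀ p ∈ S, p.Prime := fun p hp => (hS p hp).1.1
  set r := ∏ p ∈ S, p with hr
  have hr0 : 0 < r := prod_pos fun p hp => (hprime p hp).pos
  have hm : 1 ≤ m := by
    rcases Nat.eq_zero_or_pos m with h | h
    · subst h
      omega
    · exact h
  have hm0 : (0 : ℝ) < m := by exact_mod_cast hm
  have hrq : r ≤ q := by
    rw [hqm]
    exact Nat.le_mul_of_pos_right _ hm
  have hmlt : ∀ p ∈ S, m < p := by
    intro p hp
    have h2 : (q : ℝ) ^ (ε ^ 2 / 12) < (q : ℝ) ^ ε :=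
      Real.rpow_lt_rpow_of_exponent_lt (by linarith) (by linarith)
    have h3 : (m : ℝ) < p := lt_of_le_of_lt hmq (h2.trans_le (hS p hp).2)
    exact_mod_cast h3
  set N : ℕ := ⌊(q : ℝ) ^ (ε ^ 2 / 4)⌋₊ with hN
  have hNle : (N : ℝ) ≤ (q : ℝ) ^ (ε ^ 2 / 4) := Nat.floor_le (by positivity)
  have hNge : (q : ℝ) ^ (ε ^ 2 / 8) ≤ N := by
    have h1 := (Nat.lt_floor_add_one ((q : ℝ) ^ (ε ^ 2 / 4))).le
    have h3 : (q : ℝ) ^ (ε ^ 2 / 4) = (q : ℝ) ^ (ε ^ 2 / 8) * (q : ℝ) ^ (ε ^ 2 / 8) := by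
      rw [hadd]
      congr 1
      ring
    have h4 : 2 ≤ (q : ℝ) ^ (ε ^ 2 / 8) := g1.trans (hmono _ _ (by linarith))
    have h5 : 2 * (q : ℝ) ^ (ε ^ 2 / 8) ≤ (q : ℝ) ^ (ε ^ 2 / 8) * (q : ℝ) ^ (ε ^ 2 / 8) := by
      gcongr
    linarith
  refine ⟨m, ex0 b m, Nat.log 2 q + 1, N, hprime, ?_, hqm, hm, ?_, ?_, ?_, ?_, hNge, ?_⟩
  · -- few primes
    have e1 : ((q : ℝ) ^ ε) ^ S.card ≤ r := by
      rw [← prod_const, hr, Nat.cast_prod]
      exact prod_le_prod (fun _ _ => by positivity) fun p hp => (hS p hp).2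
    have e2 : (q : ℝ) ^ (ε * S.card) ≤ (q : ℝ) ^ (1 : ℝ) := by
      rw [Real.rpow_mul hq0.le, Real.rpow_natCast, Real.rpow_one]
      exact e1.trans (by exact_mod_cast hrq)
    have e3 : ε * S.card ≤ 1 := (Real.rpow_le_rpow_left_iff (by linarith)).1 e2
    have e4 : (S.card : ℝ) ≤ 1 / ε := by
      rw [le_div_iff₀ hε]
      linarith
    exact_mod_cast e4.trans (Nat.le_ceil _)
  · refine Nat.Coprime.prod_right fun p hp => ?_
    rw [Nat.coprime_comm, (hprime p hp).coprime_iff_not_dvd]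
    intro hd
    have := Nat.le_of_dvd hm hd
    have := hmlt p hp
    omega
  · have e1 : (q : ℝ) = r * m := by exact_mod_cast hqm
    have e2 : (q : ℝ) ^ (ε ^ 2 / 8) * m ≤ r * m := by
      calc (q : ℝ) ^ (ε ^ 2 / 8) * m ≤ (q : ℝ) ^ (ε ^ 2 / 8) * (q : ℝ) ^ (ε ^ 2 / 12) := by gcongr
        _ = (q : ℝ) ^ (ε ^ 2 / 8 + ε ^ 2 / 12) := hadd _ _
        _ ≤ (q : ℝ) ^ (1 : ℝ) := hmono _ _ (by linarith)
        _ = q := Real.rpow_one _
        _ = _ := e1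
    exact le_of_mul_le_mul_right e2 hm0
  · have hmq' : m ≤ q := by
      rw [hqm]
      exact Nat.le_mul_of_pos_left _ hr0
    exact dvd_exponent (by omega) hm (lt_of_le_of_lt hmq' (Nat.lt_pow_succ_log_self (by norm_num) q))
  · intro p hp
    have hF := Fact.mk (hprime p hp)
    have hp0 : (0 : ℝ) < p := by exact_mod_cast (hprime p hp).pos
    have hex : ex0 b m ≠ 0 := by
      have := (exponent_le (b := b) hm).1
      unfold ex0
      omega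
    have hbp : (b : ℝ) ≤ Real.log p := by
      rw [Real.le_log_iff_exp_le hp0]
      exact g3.trans (hS p hp).2
    have hord := (hS p hp).1.2 b hb hbp
    have e2 : orderOf (b : ZMod p) = orderOf ((b : ZMod p) ^ ex0 b m) *
        Nat.gcd (orderOf (b : ZMod p)) (ex0 b m) := by
      rw [orderOf_pow' _ hex]
      exact (Nat.div_mul_cancel (Nat.gcd_dvd_left _ _)).symm
    have e3 : Nat.gcd (orderOf (b : ZMod p)) (ex0 b m) ≤ m :=
      (Nat.le_of_dvd (Nat.pos_of_ne_zero hex) (Nat.gcd_dvd_right _ _)).trans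
        (exponent_le (b := b) hm).2
    have e4 : (q : ℝ) ^ (ε ^ 2 / 3) ≤ (p : ℝ) ^ (ε / 3) := by
      calc (q : ℝ) ^ (ε ^ 2 / 3) = ((q : ℝ) ^ ε) ^ (ε / 3) := by
            rw [← Real.rpow_mul hq0.le]
            congr 1
            ring
        _ ≤ (p : ℝ) ^ (ε / 3) := Real.rpow_le_rpow (by positivity) (hS p hp).2 (by positivity)
    have e5 : (orderOf (b : ZMod p) : ℝ) ≤
        orderOf ((b : ZMod p) ^ ex0 b m) * (q : ℝ) ^ (ε ^ 2 / 12) := by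
      have e8 : ((Nat.gcd (orderOf (b : ZMod p)) (ex0 b m) : ℕ) : ℝ) ≤ (q : ℝ) ^ (ε ^ 2 / 12) := by
        refine le_trans ?_ hmq
        exact_mod_cast e3
      calc (orderOf (b : ZMod p) : ℝ) = ((orderOf ((b : ZMod p) ^ ex0 b m) *
        Nat.gcd (orderOf (b : ZMod p)) (ex0 b m) : ℕ) : ℝ) := by rw [← e2]
        _ = (orderOf ((b : ZMod p) ^ ex0 b m) : ℝ) *
            ((Nat.gcd (orderOf (b : ZMod p)) (ex0 b m) : ℕ) : ℝ) := by
          push_cast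
          rfl
        _ ≤ _ := by gcongr
    have e6 : (N : ℝ) * (q : ℝ) ^ (ε ^ 2 / 12) ≤
        orderOf ((b : ZMod p) ^ ex0 b m) * (q : ℝ) ^ (ε ^ 2 / 12) := by
      refine le_trans ?_ ((e4.trans hord).trans e5)
      calc (N : ℝ) * (q : ℝ) ^ (ε ^ 2 / 12) ≤ (q : ℝ) ^ (ε ^ 2 / 4) * (q : ℝ) ^ (ε ^ 2 / 12) := by
            gcongr
        _ = (q : ℝ) ^ (ε ^ 2 / 3) := by
          rw [hadd]
          congr 1
          ring
    have e7 := le_of_mul_le_mul_right e6 (by positivity)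
    exact_mod_cast e7
  · push_cast
    have e1 : ((ex0 b m : ℕ) : ℝ) ≤ (q : ℝ) ^ (ε ^ 2 / 12) := by
      refine le_trans ?_ hmq
      exact_mod_cast (exponent_le (b := b) hm).2
    have h1 : (Nat.log 2 q : ℝ) + 1 ≤ (q : ℝ) ^ (ε ^ 2 / 3) := by
      refine le_trans ?_ g2
      have h2 : (Nat.log 2 q : ℝ) * Real.log 2 ≤ Real.log q := by
        have h3 : 2 ^ Nat.log 2 q ≤ q := Nat.pow_log_le_self 2 (by omega)
        have h4 : ((2 : ℝ) ^ Nat.log 2 q) ≤ q := by exact_mod_cast h3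
        have h5 := Real.log_le_log (by positivity) h4
        rwa [Real.log_pow] at h5
      have h4 := Real.log_two_gt_d9
      have h5 : (0 : ℝ) ≤ (Nat.log 2 q : ℝ) := Nat.cast_nonneg _
      nlinarith
    have h2 : ((ex0 b m : ℕ) : ℝ) * N ≤ (q : ℝ) ^ (ε ^ 2 / 3) := by
      calc ((ex0 b m : ℕ) : ℝ) * N ≤ (q : ℝ) ^ (ε ^ 2 / 12) * (q : ℝ) ^ (ε ^ 2 / 4) := by gcongr
        _ = (q : ℝ) ^ (ε ^ 2 / 3) := by
          rw [hadd]
          congr 1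
          ring
    calc (Nat.log 2 q : ℝ) + 1 + ((ex0 b m : ℕ) : ℝ) * N ≤
        (q : ℝ) ^ (ε ^ 2 / 3) + (q : ℝ) ^ (ε ^ 2 / 3) := add_le_add h1 h2
      _ = 2 * (q : ℝ) ^ (ε ^ 2 / 3) := by ring
      _ ≤ (q : ℝ) ^ (ε ^ 2 / 15) * (q : ℝ) ^ (ε ^ 2 / 3) := by gcongr
      _ = (q : ℝ) ^ (2 * ε ^ 2 / 5) := by
        rw [hadd]
        congr 1
        ring

/-- **sums for these denominators** -/
theorem sums_den {b : ℕ} (hb : 2 ≤ b) {ε κ : ℝ} (hε : 0 < ε) (hε1 : ε ≤ 1) (hκ : 0 < κ) (H : ℕ) :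
    ∃ Q₀ : ℕ, ∀ q : ℕ, Q₀ ≤ q → ∀ S : Finset ℕ, Den {p | PE ε p} ε (ε ^ 2 / 12) q S →
      ∀ c : ℤ, (∃ p ∈ S, ¬ (p : ℤ) ∣ c) → ∀ N : ℕ, (q : ℝ) ^ (4 * ε ^ 2 / 5) ≤ N →
        ∀ h : ℕ, 1 ≤ h → h ≤ H →
          ‖∑ n ∈ range N, e ((h : ℝ) * ((b : ℝ) ^ n * (c / q)))‖ ≤ κ * N := by
  have hε2 : 0 < ε ^ 2 := by positivity
  obtain ⟨Q₀, hQ₀⟩ := gs_of_den hb hε hε1
  obtain ⟨Q₁, hQ₁⟩ := sums_GS hb (by positivity : 0 < 2 * ε ^ 2 / 5)
    (by positivity : 0 < ε ^ 2 / 8) ⌈1 / ε⌉₊ H hκ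
  refine ⟨max Q₀ Q₁, fun q hq S hDen c hc N hN h hh1 hh2 => ?_⟩
  refine hQ₁ q ((le_max_right _ _).trans hq) S
    (hQ₀ q ((le_max_left _ _).trans hq) S hDen) c hc N ?_ h hh1 hh2
  refine le_trans (le_of_eq ?_) hN
  congr 1
  ring

/-- **the real numbers near these fractions** -/
theorem conc_den {ε : ℝ} (hε : 0 < ε) (hε1 : ε ≤ 1) {x : ℝ}
    (hx : ∀ K : ℕ, ∃ (q : ℕ) (c : ℤ), K ≤ q ∧ (∃ S : Finset ℕ,
      Den {p | PE ε p} ε (ε ^ 2 / 12) q S ∧ ∃ p ∈ S, ¬ (p : ℤ) ∣ c) ∧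
      |x - c / q| ≤ Real.exp (-((q : ℝ) ^ ε))) : Conc x := by
  have hε2 : 0 < ε ^ 2 := by positivity
  have hlt : 0 < ε - 4 * ε ^ 2 / 5 := by nlinarith
  refine assemble (S := fun q c => ∃ S : Finset ℕ,
      Den {p | PE ε p} ε (ε ^ 2 / 12) q S ∧ ∃ p ∈ S, ¬ (p : ℤ) ∣ c)
    (u := fun q => (q : ℝ) ^ (4 * ε ^ 2 / 5)) (v := fun q => (q : ℝ) ^ ε)
    ((tendsto_rpow_atTop (by positivity)).comp tendsto_natCast_atTop_atTop) ?_ ?_ hx
  · have h1 : Tendsto (fun q : ℕ => (q : ℝ) ^ (ε - 4 * ε ^ 2 / 5)) atTop atTop :=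
      (tendsto_rpow_atTop hlt).comp tendsto_natCast_atTop_atTop
    refine h1.congr' ?_
    filter_upwards [eventually_ge_atTop 1] with q hq
    have hq0 : (0 : ℝ) < q := by exact_mod_cast hq
    rw [Real.rpow_sub hq0]
  · intro b hb η hη H
    obtain ⟨Q₀, hQ₀⟩ := sums_den hb hε hε1 hη H
    refine ⟨Q₀, fun q c hq hSq h hh1 hh2 => ?_⟩
    obtain ⟨S, hDen, hc⟩ := hSq
    exact hQ₀ q hq S hDen c hc _ (Nat.le_ceil _) h hh1 hh2

end Pool.Agent.H82.BC
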