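import Pool.Agent.H82.BC.Equi

/-!
# Real numbers near fractions with equidistributed orbits
-/

set_option autoImplicit false

namespace Pool.Agent.H82.BC

open Finset Filter Topology Pool.Agent.Y943.Fu Pool.Agent.H332R2.Lit

theorem norm_e_sub_le (x y : ℝ) : ‖e x - e y‖ ≤ 2 * Real.pi * |x - y| := by
  have h1 : e x - e y = e y * (e (x - y) - 1) := by
    rw [mul_sub, ← e_add', mul_one]
    congr 2
    ring
  rw [h1, norm_mul, norm_e', one_mul]
  have h2 : e (x - y) = Complex.exp (Complex.I * ((2 * Real.pi * (x - y) : ℝ) : ℂ)) := by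
    unfold e
    congr 1
    push_cast
    ring
  rw [h2]
  refine (Real.norm_exp_I_mul_ofReal_sub_one_le).trans (le_of_eq ?_)
  rw [Real.norm_eq_abs, abs_mul, abs_of_pos (by positivity)]

/-- the conclusion: for all bases `b` the orbit is equidistributed along the same sequence -/
def Conc (x : ℝ) : Prop := ∃ N : ℕ → ℕ, Tendsto N atTop atTop ∧ ∀ b : ℕ, 2 ≤ b → ∀ h : ℕ, 1 ≤ h →
  Tendsto (fun j => (∑ n ∈ range (N j), e ((h : ℝ) * ((b : ℝ) ^ n * x))) / (N j : ℂ)) atTop (𝓝 0)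

theorem assemble {S : ℕ → ℤ → Prop} {u v : ℕ → ℝ} (hu : Tendsto u atTop atTop)
    (huv : Tendsto (fun q => v q / u q) atTop atTop)
    (hS : ∀ b : ℕ, 2 ≤ b → ∀ η : ℝ, 0 < η → ∀ H : ℕ, ∃ q₀ : ℕ, ∀ (q : ℕ) (c : ℤ), q₀ ≤ q → S q c →
      ∀ h : ℕ, 1 ≤ h → h ≤ H →
      ‖∑ n ∈ range ⌈u q⌉₊, e ((h : ℝ) * ((b : ℝ) ^ n * (c / q)))‖ ≤ η * ⌈u q⌉₊) {x : ℝ}
    (hx : ∀ K : ℕ, ∃ (q : ℕ) (c : ℤ), K ≤ q ∧ S q c ∧ |x - c / q| ≤ Real.exp (-(v q))) : Conc x := by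
  choose q c hq hSq hclose using hx
  have hqt : Tendsto q atTop atTop := tendsto_atTop_mono hq tendsto_id
  refine ⟨fun j => ⌈u (q j)⌉₊, tendsto_nat_ceil_atTop.comp (hu.comp hqt), fun b hb h hh => ?_⟩
  have hb1 : (1 : ℝ) < b := by exact_mod_cast (by omega : 1 < b)
  have hb0 : (0 : ℝ) < b := by linarith
  have hlb : 0 < Real.log b := Real.log_pos hb1
  rw [Metric.tendsto_atTop]
  intro ε hε
  obtain ⟨q₀, hq₀⟩ := hS b hb (ε / 3) (by linarith) h
  -- the closeness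
  have hexp : ∀ᶠ q : ℕ in atTop, (b : ℝ) ^ (⌈u q⌉₊) * Real.exp (-(v q)) ≤
      ε / 3 / (2 * Real.pi * h) := by
    have h1 : Tendsto (fun q => Real.exp (-(u q))) atTop (𝓝 0) :=
      Real.tendsto_exp_neg_atTop_nhds_zero.comp hu
    have hpos : 0 < ε / 3 / (2 * Real.pi * h) := by
      have : (0 : ℝ) < h := by exact_mod_cast hh
      have := Real.pi_pos
      positivity
    filter_upwards [h1.eventually (gt_mem_nhds hpos), hu.eventually_ge_atTop 1,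
      huv.eventually_ge_atTop (2 * Real.log b + 1)] with q e1 e2 e3
    refine le_trans ?_ e1.le
    have e4 : (2 * Real.log b + 1) * u q ≤ v q := by
      rwa [le_div_iff₀ (by linarith)] at e3
    have e5 : ((⌈u q⌉₊ : ℕ) : ℝ) ≤ 2 * u q := by
      have := (Nat.ceil_lt_add_one (by linarith : 0 ≤ u q)).le
      linarith
    have e6 : (b : ℝ) ^ (⌈u q⌉₊) = Real.exp (((⌈u q⌉₊ : ℕ) : ℝ) * Real.log b) := by
      rw [Real.exp_nat_mul, Real.exp_log hb0]
    rw [e6, ← Real.exp_add]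
    apply Real.exp_le_exp.2
    have e7 : ((⌈u q⌉₊ : ℕ) : ℝ) * Real.log b ≤ 2 * u q * Real.log b := by gcongr
    linarith
  obtain ⟨q₁, hq₁⟩ := eventually_atTop.1 (hexp.and (hu.eventually_ge_atTop 1))
  refine ⟨max q₀ q₁, fun j hj => ?_⟩
  have g1 : q₀ ≤ q j := ((le_max_left _ _).trans hj).trans (hq j)
  have g2 : q₁ ≤ q j := ((le_max_right _ _).trans hj).trans (hq j)
  obtain ⟨e1, e2⟩ := hq₁ (q j) g2
  set N := ⌈u (q j)⌉₊ with hN
  have hN1 : 1 ≤ N := Nat.one_le_ceil_iff.2 (by linarith)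
  have hN0 : (0 : ℝ) < N := by exact_mod_cast hN1
  have hsum := hq₀ (q j) (c j) g1 (hSq j) h hh le_rfl
  rw [← hN] at hsum
  have hh0 : (0 : ℝ) < h := by exact_mod_cast hh
  have hdiff : ‖∑ n ∈ range N, e ((h : ℝ) * ((b : ℝ) ^ n * x)) -
      ∑ n ∈ range N, e ((h : ℝ) * ((b : ℝ) ^ n * (c j / q j)))‖ ≤ N * (ε / 3) := by
    rw [← sum_sub_distrib]
    refine (norm_sum_le _ _).trans ?_
    have e3 : ∀ n ∈ range N, ‖e ((h : ℝ) * ((b : ℝ) ^ n * x)) -
        e ((h : ℝ) * ((b : ℝ) ^ n * (c j / q j)))‖ ≤ ε / 3 := by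
      intro n hn
      rw [mem_range] at hn
      refine (norm_e_sub_le _ _).trans ?_
      have e4 : (h : ℝ) * ((b : ℝ) ^ n * x) - (h : ℝ) * ((b : ℝ) ^ n * (c j / q j)) =
          h * ((b : ℝ) ^ n * (x - c j / q j)) := by ring
      rw [e4, abs_mul, abs_mul, abs_of_pos hh0, abs_of_pos (by positivity : (0 : ℝ) < (b : ℝ) ^ n)]
      have e5 : (b : ℝ) ^ n ≤ (b : ℝ) ^ N := pow_le_pow_right₀ hb1.le hn.le
      calc 2 * Real.pi * (h * ((b : ℝ) ^ n * |x - c j / q j|)) ≤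
          2 * Real.pi * (h * ((b : ℝ) ^ N * Real.exp (-(v (q j))))) := by
            have := Real.pi_pos
            have := hclose j
            gcongr
        _ ≤ 2 * Real.pi * (h * (ε / 3 / (2 * Real.pi * h))) := by
            have := Real.pi_pos
            gcongr
        _ = ε / 3 := by
            have := Real.pi_pos.ne'
            field_simp
    refine (sum_le_sum e3).trans (le_of_eq ?_)
    rw [sum_const, card_range, nsmul_eq_mul]
  rw [dist_zero_right, norm_div, Complex.norm_natCast, div_lt_iff₀ hN0]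
  have e7 : ‖∑ n ∈ range N, e ((h : ℝ) * ((b : ℝ) ^ n * x))‖ ≤
      ‖∑ n ∈ range N, e ((h : ℝ) * ((b : ℝ) ^ n * x)) -
      ∑ n ∈ range N, e ((h : ℝ) * ((b : ℝ) ^ n * (c j / q j)))‖ +
      ‖∑ n ∈ range N, e ((h : ℝ) * ((b : ℝ) ^ n * (c j / q j)))‖ := by
    have := norm_add_le (∑ n ∈ range N, e ((h : ℝ) * ((b : ℝ) ^ n * x)) -
      ∑ n ∈ range N, e ((h : ℝ) * ((b : ℝ) ^ n * (c j / q j))))
      (∑ n ∈ range N, e ((h : ℝ) * ((b : ℝ) ^ n * (c j / q j))))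
    rwa [sub_add_cancel] at this
  have e8 : 0 < ε * N := by positivity
  linarith

/-- dense orbits from equidistribution along a sequence -/
theorem Conc.dense {x : ℝ} (hx : Conc x) {b : ℕ} (hb : 2 ≤ b) : orb b x = Set.Icc 0 1 := by
  obtain ⟨N, hN, hconv⟩ := hx
  refine orb_eq_Icc fun ε hε y => ?_
  obtain ⟨K, η, hη, _, hdense⟩ := dense_of_sums ε hε
  have h1 : ∀ᶠ j in atTop, ∀ h ∈ Icc 1 K,
      ‖(∑ n ∈ range (N j), e ((h : ℝ) * ((b : ℝ) ^ n * x))) / (N j : ℂ)‖ < η := by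
    rw [eventually_all_finset]
    intro h hh
    rw [mem_Icc] at hh
    have h2 := (hconv b hb h hh.1).norm
    rw [norm_zero] at h2
    exact h2.eventually (gt_mem_nhds hη)
  obtain ⟨j, hj, hj1⟩ := (h1.and (hN.eventually_ge_atTop 1)).exists
  have hN0 : (0 : ℝ) < N j := by exact_mod_cast hj1
  obtain ⟨l, _, z, hz⟩ := hdense (N j) (fun n => (b : ℝ) ^ n * x) hj1 (fun h h1 h2 => by
    have h3 := hj h (mem_Icc.2 ⟨h1, h2⟩)
    rw [norm_div, Complex.norm_natCast, div_lt_iff₀ hN0] at h3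
    exact h3.le) y
  exact ⟨l, z, hz⟩

/-- **the set of denominators** -/
theorem exists_W : ∃ W : ℕ → Prop, DZ W ∧ ∀ b : ℕ, 2 ≤ b → ∀ ε η : ℝ, 0 < ε → 0 < η → ∀ H : ℕ,
    ∃ Q₀ : ℕ, ∀ q, Q₀ ≤ q → ¬ W q → Eq b ε η H q := by
  obtain ⟨W, hW, hdiag⟩ := DZ.diag
    (fun n q => ¬ Eq ((Nat.unpair n).1 + 2) (1 / ((Nat.unpair n).2 + 1 : ℝ))
      (1 / ((Nat.unpair n).2 + 1 : ℝ)) ((Nat.unpair n).2 + 1) q)
    (fun n => dz_eq (by omega) (by positivity) (by positivity) _)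
  refine ⟨W, hW, fun b hb ε η hε hη H => ?_⟩
  obtain ⟨k, hk⟩ := exists_nat_gt (max (1 / ε) (max (1 / η) H))
  have k1 : 1 / ((k : ℝ) + 1) ≤ ε := by
    rw [div_le_iff₀ (by positivity)]
    have := (le_max_left _ _).trans hk.le
    rw [div_le_iff₀ hε] at this
    linarith
  have k2 : 1 / ((k : ℝ) + 1) ≤ η := by
    rw [div_le_iff₀ (by positivity)]
    have := ((le_max_left _ _).trans (le_max_right _ _)).trans hk.le
    rw [div_le_iff₀ hη] at this
    linarith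
  have k3 : H ≤ k := by
    have := ((le_max_right _ _).trans (le_max_right _ _)).trans hk.le
    exact_mod_cast this
  obtain ⟨Q₀, hQ₀⟩ := hdiag (Nat.pair (b - 2) k)
  refine ⟨max Q₀ 1, fun q hq hWq => ?_⟩
  have h1 : Eq b (1 / ((k : ℝ) + 1)) (1 / ((k : ℝ) + 1)) (k + 1) q := by
    by_contra hcon
    refine hWq (hQ₀ q ((le_max_left _ _).trans hq) ?_)
    rw [Nat.unpair_pair]
    simp only
    rw [show b - 2 + 2 = b by omega]
    exact hcon
  intro c hc N hN h hh1 hh2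
  have hq1 : (1 : ℝ) ≤ q := by exact_mod_cast (le_max_right _ _).trans hq
  refine (h1 c hc N ?_ h hh1 (by omega)).trans ?_
  · exact (Real.rpow_le_rpow_of_exponent_le hq1 k1).trans hN
  · gcongr

/-- the exponent `θ` -/
theorem exists_theta {W : ℕ → Prop} (hW : ∀ b : ℕ, 2 ≤ b → ∀ ε η : ℝ, 0 < ε → 0 < η → ∀ H : ℕ,
    ∃ Q₀ : ℕ, ∀ q, Q₀ ≤ q → ¬ W q → Eq b ε η H q) :
    ∃ θ : ℕ → ℝ, Tendsto θ atTop (𝓝 0) ∧ ∀ x : ℝ,
      (∀ K : ℕ, ∃ (q : ℕ) (c : ℤ), K ≤ q ∧ (¬ W q ∧ IsCoprime c q) ∧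
        |x - c / q| ≤ Real.exp (-((q : ℝ) ^ θ q))) → Conc x := by
  -- the thresholds
  have h1 : ∀ k : ℕ, ∃ R : ℕ, ∀ q, R ≤ q → (k + 1 : ℝ) ≤ (q : ℝ) ^ (1 / ((k : ℝ) + 1)) ∧
      (¬ W q → ∀ b ∈ Icc 2 (k + 2), Eq b (1 / ((k : ℝ) + 1)) (1 / ((k : ℝ) + 1)) (k + 1) q) := by
    intro k
    obtain ⟨R₁, hR₁⟩ := Pool.Agent.H82.BGK.ev_pow (by positivity : 0 < 1 / ((k : ℝ) + 1)) (k + 1 : ℝ)
    have h2 : ∀ᶠ q : ℕ in atTop, ∀ b ∈ Icc 2 (k + 2), ¬ W q →
        Eq b (1 / ((k : ℝ) + 1)) (1 / ((k : ℝ) + 1)) (k + 1) q := by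
      rw [eventually_all_finset]
      intro b hb
      rw [mem_Icc] at hb
      obtain ⟨Q₀, hQ₀⟩ := hW b hb.1 (1 / ((k : ℝ) + 1)) (1 / ((k : ℝ) + 1)) (by positivity)
        (by positivity) (k + 1)
      exact eventually_atTop.2 ⟨Q₀, fun q hq => hQ₀ q hq⟩
    obtain ⟨R₂, hR₂⟩ := eventually_atTop.1 h2
    exact ⟨max R₁ R₂, fun q hq => ⟨hR₁ q ((le_max_left _ _).trans hq), fun hWq b hb =>
      hR₂ q ((le_max_right _ _).trans hq) b hb hWq⟩⟩
  choose R hR using h1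
  set κ : ℕ → ℕ := fun q => Nat.findGreatest (fun k => R k ≤ q) q with hκ
  have hκt : Tendsto κ atTop atTop := by
    rw [tendsto_atTop]
    intro k
    filter_upwards [eventually_ge_atTop (max k (R k))] with q hq
    exact Nat.le_findGreatest ((le_max_left _ _).trans hq) ((le_max_right _ _).trans hq)
  have hκs : ∀ᶠ q in atTop, R (κ q) ≤ q := by
    filter_upwards [eventually_ge_atTop (R 0)] with q hq
    exact Nat.findGreatest_spec (P := fun k => R k ≤ q) (Nat.zero_le q) hq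
  have hκr : Tendsto (fun q => ((κ q : ℕ) : ℝ) + 1) atTop atTop :=
    tendsto_atTop_add_const_right _ _ (tendsto_natCast_atTop_atTop.comp hκt)
  refine ⟨fun q => 2 / ((κ q : ℝ) + 1), hκr.const_div_atTop 2, fun x hx => ?_⟩
  set u : ℕ → ℝ := fun q => (q : ℝ) ^ (1 / ((κ q : ℝ) + 1)) with hu
  have hut : Tendsto u atTop atTop := by
    refine tendsto_atTop_mono' _ ?_ hκr
    filter_upwards [hκs] with q hq
    exact (hR (κ q) q hq).1
  refine assemble (S := fun q c => ¬ W q ∧ IsCoprime c q) (u := u)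
    (v := fun q => (q : ℝ) ^ (2 / ((κ q : ℝ) + 1))) hut ?_ ?_ hx
  · refine hut.congr' ?_
    filter_upwards [eventually_ge_atTop 1] with q hq
    have hq0 : (0 : ℝ) < q := by exact_mod_cast hq
    have e1 : (q : ℝ) ^ (2 / ((κ q : ℝ) + 1)) = u q * u q := by
      rw [hu]
      simp only
      rw [← Real.rpow_add hq0]
      congr 1
      ring
    have e2 : 0 < u q := Real.rpow_pos_of_pos hq0 _
    rw [e1]
    field_simp
  · intro b hb η hη H
    obtain ⟨q₀, hq₀⟩ := eventually_atTop.1 (hκs.and ((hκt.eventually_ge_atTop (max b H)).and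
      (hκr.eventually_ge_atTop (1 / η))))
    refine ⟨q₀, fun q c hq hSq h hh1 hh2 => ?_⟩
    obtain ⟨e1, e2, e3⟩ := hq₀ q hq
    have e4 := (hR (κ q) q e1).2 hSq.1 b (mem_Icc.2 ⟨hb, by
      have := (le_max_left b H).trans e2
      omega⟩) c hSq.2 ⌈u q⌉₊ (Nat.le_ceil _) h hh1 (by
      have := (le_max_right b H).trans e2
      omega)
    refine e4.trans ?_
    have e5 : 1 / ((κ q : ℝ) + 1) ≤ η := by
      rw [div_le_iff₀ (by positivity)]
      rw [div_le_iff₀ hη] at e3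
      linarith
    gcongr

end Pool.Agent.H82.BC
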