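import Pool.Agent.H82.BC.Det

/-!
# Almost all integers have the structure
-/

set_option autoImplicit false

namespace Pool.Agent.H82.BC

open Finset Filter Topology Pool.Agent.Y943.Fu

theorem cnt_or8 (X : ℕ) (A0 A1 A2 A3 A4 A5 A6 A7 : ℕ → Prop) :
    cnt X (fun q => A0 q ∨ A1 q ∨ A2 q ∨ A3 q ∨ A4 q ∨ A5 q ∨ A6 q ∨ A7 q) ≤
      cnt X A0 + cnt X A1 + cnt X A2 + cnt X A3 + cnt X A4 + cnt X A5 + cnt X A6 + cnt X A7 := by
  have h0 := cnt_or X A0 (fun q => A1 q ∨ A2 q ∨ A3 q ∨ A4 q ∨ A5 q ∨ A6 q ∨ A7 q)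
  have h1 := cnt_or X A1 (fun q => A2 q ∨ A3 q ∨ A4 q ∨ A5 q ∨ A6 q ∨ A7 q)
  have h2 := cnt_or X A2 (fun q => A3 q ∨ A4 q ∨ A5 q ∨ A6 q ∨ A7 q)
  have h3 := cnt_or X A3 (fun q => A4 q ∨ A5 q ∨ A6 q ∨ A7 q)
  have h4 := cnt_or X A4 (fun q => A5 q ∨ A6 q ∨ A7 q)
  have h5 := cnt_or X A5 (fun q => A6 q ∨ A7 q)
  have h6 := cnt_or X A6 (fun q => A7 q)
  linarith

theorem cnt_GG {b : ℕ} (hb : 2 ≤ b) {ε ε₀ : ℝ} (hε : 0 < ε) (hε1 : ε ≤ 1) (hε₀ : 0 < ε₀)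
    (hε₀1 : ε₀ ≤ 1) : ∃ (β : ℝ) (k X₀ : ℕ), 0 < β ∧ ∀ X : ℕ, X₀ ≤ X →
      cnt X (fun q => ¬ GG b ε β k q) ≤ ε₀ * X := by
  -- the parameters
  set γ : ℝ := ε * ε₀ / 128 with hγ
  have hγ0 : 0 < γ := by positivity
  have hεε : ε * ε₀ ≤ ε * 1 := by gcongr
  have hγε : γ ≤ ε / 128 := by rw [hγ]; linarith
  set β : ℝ := γ / 16 with hβ
  have hβ0 : 0 < β := by positivity
  set k : ℕ := ⌈2 / γ⌉₊ with hk
  have hkγ : 2 ≤ γ * k := by
    have := Nat.le_ceil (2 / γ)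
    rw [div_le_iff₀ hγ0] at this
    linarith
  -- the exceptional primes
  obtain ⟨s0, hs0⟩ := summable_iff_vanishing_norm.1
    (ex_summable hb (by norm_num : (0 : ℝ) < 0.4) (by norm_num)) (ε₀ / 8) (by linarith)
  obtain ⟨m, hm⟩ := exists_nat_gt (16 / ε₀)
  set y : ℕ := b + s0.sup id + m with hy
  have hyb : b ≤ y := by omega
  have hys : ∀ p ∈ s0, p ≤ y := fun p hp => by
    have : p ≤ s0.sup id := Finset.le_sup (f := id) hp
    omega
  have hym : (m : ℝ) ≤ y := by exact_mod_cast (by omega : m ≤ y)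
  have hy0 : (0 : ℝ) < y := by exact_mod_cast (by omega : 0 < y)
  have hη : ∀ F : Finset ℕ, (∀ p ∈ F, y < p) → ∑ p ∈ F, ex b 0.4 p ≤ ε₀ / 8 := by
    intro F hF
    have h1 := hs0 F (Finset.disjoint_left.2 fun p hp hp2 => by
      have := hF p hp
      have := hys p hp2
      omega)
    exact (le_abs_self _).trans h1.le
  -- the asymptotic conditions
  have hLt : Tendsto (fun X : ℕ => Real.log X) atTop atTop :=
    Real.tendsto_log_atTop.comp tendsto_natCast_atTop_atTop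
  have hpw : ∀ e : ℝ, 0 < e → ∀ C : ℝ, ∀ᶠ X : ℕ in atTop, C ≤ (X : ℝ) ^ e := fun e he C =>
    ((tendsto_rpow_atTop he).comp tendsto_natCast_atTop_atTop).eventually_ge_atTop _
  have c0 : ∀ᶠ X : ℕ in atTop, 8 / ε₀ ≤ Real.sqrt X :=
    (Real.tendsto_sqrt_atTop.comp tendsto_natCast_atTop_atTop).eventually_ge_atTop _
  have c1 := hpw ((ε / 8) / y) (by positivity) (8 * y / ε₀ + 1)
  have c4 : ∀ᶠ X : ℕ in atTop, 64 / ε₀ + 8 ≤ Real.log X := hLt.eventually_ge_atTop _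
  have c6 : ∀ᶠ X : ℕ in atTop, 16 * Real.log (Real.log X) ^ 2 ≤ γ / 8 * Real.log X := by
    have h1 := (Real.isLittleO_pow_log_id_atTop (n := 2)).comp_tendsto hLt
    have h2 := h1.bound (by positivity : 0 < γ / 128)
    filter_upwards [h2, hLt.eventually_ge_atTop 1] with X hX hX2
    simp only [Function.comp, id] at hX
    rw [Real.norm_eq_abs, Real.norm_eq_abs,
      abs_of_nonneg (by linarith : 0 ≤ Real.log X)] at hX
    have := (le_abs_self _).trans hX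
    linarith
  have c7 := hpw (γ / 16) (by positivity) (max 2 (2 * y))
  have c8 : ∀ᶠ X : ℕ in atTop, 2 * Real.log X + 1 ≤ (X : ℝ) ^ (3 * ε / 8) := by
    have h1 := (isLittleO_log_rpow_atTop (by positivity : 0 < 3 * ε / 8)).comp_tendsto
      tendsto_natCast_atTop_atTop
    have h2 := h1.bound (by norm_num : (0 : ℝ) < 1 / 3)
    filter_upwards [h2, hLt.eventually_ge_atTop 1] with X hX hX2
    simp only [Function.comp] at hX
    rw [Real.norm_eq_abs, Real.norm_eq_abs, abs_of_nonneg (by linarith : 0 ≤ Real.log X),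
      abs_of_nonneg (by positivity)] at hX
    linarith
  obtain ⟨X₀, hX₀⟩ := eventually_atTop.1 (c0.and (c1.and (c4.and (c6.and (c7.and c8)))))
  refine ⟨β, k, max X₀ 1, hβ0, fun X hX => ?_⟩
  obtain ⟨d0, d1, d4, d6, d7, d8⟩ := hX₀ X ((le_max_left _ _).trans hX)
  have hX1 : 1 ≤ X := (le_max_right _ _).trans hX
  have hXr : (1 : ℝ) ≤ X := by exact_mod_cast hX1
  have hX0 : (0 : ℝ) < X := by linarith
  set L := Real.log X with hL
  have hL8 : 8 ≤ L := by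
    have : 0 < 64 / ε₀ := by positivity
    linarith
  have hLε : 64 / ε₀ ≤ L := by linarith
  have hd7 : 2 ≤ (X : ℝ) ^ (γ / 16) := (le_max_left _ _).trans d7
  have hd7y : 2 * (y : ℝ) ≤ (X : ℝ) ^ (γ / 16) := (le_max_right _ _).trans d7
  have hmono : ∀ e e' : ℝ, e ≤ e' → (X : ℝ) ^ e ≤ (X : ℝ) ^ e' := fun e e' h =>
    Real.rpow_le_rpow_of_exponent_le hXr h
  have hadd : ∀ e e' : ℝ, (X : ℝ) ^ e * (X : ℝ) ^ e' = (X : ℝ) ^ (e + e') := fun e e' =>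
    (Real.rpow_add hX0 _ _).symm
  set Z : ℝ := (X : ℝ) ^ ((ε / 8) / y) with hZ
  have hZ1 : 1 ≤ Z := by
    have : 0 < 8 * y / ε₀ := by positivity
    linarith
  have hZy : Z ^ y = (X : ℝ) ^ (ε / 8) := by
    rw [hZ, ← Real.rpow_natCast, ← Real.rpow_mul hX0.le]
    congr 1
    field_simp
  set G : ℕ := ⌈L ^ 3⌉₊ with hG
  have hG1 : 1 ≤ G := Nat.one_le_ceil_iff.2 (by positivity)
  have hGL : L ^ 3 ≤ G := Nat.le_ceil _
  have hGL2 : (G : ℝ) ≤ L ^ 4 := by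
    have h1 := (Nat.ceil_lt_add_one (by positivity : 0 ≤ L ^ 3)).le
    have h2 : (1 : ℝ) ≤ L ^ 3 := one_le_pow₀ (by linarith)
    have h3 : L ^ 4 = L * L ^ 3 := by ring
    nlinarith
  set W : ℕ := ⌊3 * Real.log L⌋₊ with hW
  have hlogL1 : 1 ≤ Real.log L := by
    rw [Real.le_log_iff_exp_le (by linarith)]
    have := Real.exp_one_lt_d9
    linarith
  have hlogL : 0 ≤ Real.log L := by linarith
  have hW1 : (W : ℝ) ≤ 3 * Real.log L := Nat.floor_le (by positivity)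
  set Y : ℕ := ⌊(X : ℝ) ^ γ⌋₊ with hY
  have hYle : (Y : ℝ) ≤ (X : ℝ) ^ γ := Nat.floor_le (by positivity)
  have hYge : (X : ℝ) ^ (3 * γ / 4) ≤ Y := by
    have h1 := (Nat.lt_floor_add_one ((X : ℝ) ^ γ)).le
    have h2 : 2 ≤ (X : ℝ) ^ (γ / 4) := hd7.trans (hmono _ _ (by linarith))
    have h3 : (X : ℝ) ^ γ = (X : ℝ) ^ (γ / 4) * (X : ℝ) ^ (3 * γ / 4) := by
      rw [hadd]
      congr 1
      ring
    have h4 : 1 ≤ (X : ℝ) ^ (3 * γ / 4) := Real.one_le_rpow hXr (by positivity)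
    have h5 : 2 * (X : ℝ) ^ (3 * γ / 4) ≤ (X : ℝ) ^ (γ / 4) * (X : ℝ) ^ (3 * γ / 4) := by gcongr
    linarith
  have hXY : (X : ℝ) ^ (γ / 16) ≤ Y := (hmono _ _ (by linarith)).trans hYge
  have hY2 : 2 ≤ Y := by
    have := hd7.trans hXY
    exact_mod_cast this
  have hyY : y ≤ Y := by
    have : (y : ℝ) ≤ Y := by linarith
    exact_mod_cast this
  set N : ℕ := ⌊(X : ℝ) ^ (γ / 8)⌋₊ with hN
  have hNle : (N : ℝ) ≤ (X : ℝ) ^ (γ / 8) := Nat.floor_le (by positivity)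
  have hNge : (X : ℝ) ^ (γ / 16) ≤ N := by
    have h1 := (Nat.lt_floor_add_one ((X : ℝ) ^ (γ / 8))).le
    have h3 : (X : ℝ) ^ (γ / 8) = (X : ℝ) ^ (γ / 16) * (X : ℝ) ^ (γ / 16) := by
      rw [hadd]
      congr 1
      ring
    have h5 : 2 * (X : ℝ) ^ (γ / 16) ≤ (X : ℝ) ^ (γ / 16) * (X : ℝ) ^ (γ / 16) := by gcongr
    linarith
  have hGW : (G : ℝ) ^ (W + 1) ≤ (X : ℝ) ^ (γ / 8) := by
    have hG0 : (0 : ℝ) < G := by exact_mod_cast hG1
    have h2 : Real.log G ≤ 4 * Real.log L := by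
      have := Real.log_le_log hG0 hGL2
      rw [Real.log_pow] at this
      exact_mod_cast this
    have h3 : Real.log ((G : ℝ) ^ (W + 1)) ≤ Real.log ((X : ℝ) ^ (γ / 8)) := by
      rw [Real.log_pow, Real.log_rpow hX0]
      push_cast
      have h4 : 0 ≤ Real.log G := Real.log_nonneg (by exact_mod_cast hG1)
      calc ((W : ℝ) + 1) * Real.log G ≤ (3 * Real.log L + 1) * (4 * Real.log L) := by gcongr
        _ ≤ (4 * Real.log L) * (4 * Real.log L) := by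
            gcongr
            linarith
        _ = 16 * Real.log L ^ 2 := by ring
        _ ≤ γ / 8 * L := d6
    exact (Real.log_le_log_iff (by positivity) (by positivity)).1 h3
  have hNG : (N : ℝ) * G ^ (W + 1) ≤ (Y : ℝ) ^ (0.4 : ℝ) := by
    calc (N : ℝ) * G ^ (W + 1) ≤ (X : ℝ) ^ (γ / 8) * (X : ℝ) ^ (γ / 8) := by gcongr
      _ = (X : ℝ) ^ (γ / 4) := by
        rw [hadd]
        congr 1
        ring
      _ ≤ (X : ℝ) ^ (3 * γ / 4 * 0.4) := hmono _ _ (by linarith)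
      _ = ((X : ℝ) ^ (3 * γ / 4)) ^ (0.4 : ℝ) := Real.rpow_mul hX0.le _ _
      _ ≤ _ := Real.rpow_le_rpow (by positivity) hYge (by norm_num)
  set T : ℝ := ε / 8 * L with hT
  have hT0 : 0 < T := by positivity
  have hexpT : Real.exp T = (X : ℝ) ^ (ε / 8) := by
    rw [hT, hL, mul_comm, Real.rpow_def_of_pos hX0]
  have hZT : Z ^ y * Real.exp T = (X : ℝ) ^ (ε / 4) := by
    rw [hZy, hexpT, hadd]
    congr 1
    ring
  have hXY' : X ≤ Y ^ k := by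
    have h1 : (X : ℝ) ≤ (Y : ℝ) ^ k := by
      calc (X : ℝ) = (X : ℝ) ^ (1 : ℝ) := (Real.rpow_one _).symm
        _ ≤ (X : ℝ) ^ (3 * γ / 4 * k) := hmono _ _ (by linarith)
        _ = ((X : ℝ) ^ (3 * γ / 4)) ^ k := by rw [Real.rpow_mul hX0.le, Real.rpow_natCast]
        _ ≤ _ := by gcongr
    exact_mod_cast h1
  -- the exceptional events
  have key : ∀ q, 1 ≤ q → q ≤ X → (¬ GG b ε β k q) →
      (q ^ 2 ≤ X) ∨ (∃ p ∈ Icc 1 y, p.Prime ∧ Z < ((p ^ q.factorization p : ℕ) : ℝ)) ∨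
      (∃ p ∈ Ioo y (X + 1), p ^ 2 ∣ q) ∨ (∃ p ∈ Ioc y X, (p.Prime ∧ ¬ p ∣ b ∧
        (orderOf (b : ZMod p) : ℝ) < (p : ℝ) ^ (0.4 : ℝ)) ∧ p ∣ q) ∨
      (L ^ 2 < (q.divisors.card : ℝ)) ∨ (∃ d ∈ Icc G X,
        ∃ n ∈ (Icc 2 X).filter (fun n => d ∣ n - 1),
        ∃ n' ∈ (Icc 2 X).filter (fun n => d ∣ n - 1), n * n' ∣ q) ∨
        (∃ d ∈ Icc G X, ∃ n ∈ (Icc 2 X).filter (fun n => d ∣ n - 1), n * d ∣ q) ∨
        (T < sl Y q) := by
    intro q hq1 hqX hbad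
    by_contra hcon
    push Not at hcon
    obtain ⟨e0, e1, e2, e3, e4, e5, e6, e7⟩ := hcon
    apply hbad
    have hqr : (1 : ℝ) ≤ q := by exact_mod_cast hq1
    have hq0 : (0 : ℝ) < q := by linarith
    have hqX' : (q : ℝ) ≤ X := by exact_mod_cast hqX
    have hle : ∀ p : ℕ, p ∣ q → p ≤ X := fun p hp => (Nat.le_of_dvd hq1 hp).trans hqX
    have hXq : ∀ e : ℝ, 0 ≤ e → (X : ℝ) ^ e ≤ (q : ℝ) ^ (2 * e) := by
      intro e he
      have h1 : (X : ℝ) ≤ (q : ℝ) ^ 2 := by exact_mod_cast e0.le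
      calc (X : ℝ) ^ e ≤ ((q : ℝ) ^ 2) ^ e := Real.rpow_le_rpow hX0.le h1 he
        _ = (q : ℝ) ^ (2 * e) := by
          rw [← Real.rpow_natCast, ← Real.rpow_mul hq0.le]
          norm_num
    have hqβ : (q : ℝ) ^ β ≤ (X : ℝ) ^ (γ / 16) := Real.rpow_le_rpow hq0.le hqX' hβ0.le
    refine gg_of (b := b) (y := y) (Y := Y) (q := q) (G := G) (W := W) (k := k) (N := N)
      (n₀ := Nat.log 2 X + 1) (Z := Z) (T := T) hb hyb
      hyY hq1 hG1 hZ1
      (fun p hp hpy => not_lt.1 fun hlt => by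
        have := e1 p (mem_Icc.2 ⟨hp.one_lt.le, hpy⟩) hp
        linarith)
      (fun p hp hpy hdv => e2 p (mem_Ioo.2 ⟨hpy, by
        have := hle p ((dvd_pow_self p two_ne_zero).trans hdv)
        omega⟩) hdv)
      (fun p hp hpy hdv => not_lt.1 fun hlt =>
        e3 p (mem_Ioc.2 ⟨hpy, hle p hdv⟩) ⟨hp, fun hpb => by
          have := Nat.le_of_dvd (by omega) hpb
          omega, hlt⟩ hdv)
      ?_ ?_ ?_ e7 (hqX.trans hXY') hY2 ?_ ?_ hNG (hqβ.trans hNge) ?_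
    · rw [hW]
      apply Nat.le_floor
      have h1 : ((2 ^ q.primeFactors.card : ℕ) : ℝ) ≤ q.divisors.card := by
        exact_mod_cast two_pow_omega (by omega : q ≠ 0)
      have h2 := h1.trans e4
      push_cast at h2
      have h3 := Real.log_le_log (by positivity) h2
      rw [Real.log_pow, Real.log_pow] at h3
      push_cast at h3
      have h4 := Real.log_two_gt_d9
      have h5 : (0 : ℝ) ≤ q.primeFactors.card := Nat.cast_nonneg _
      nlinarith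
    · intro p p' hp hp' hne hpq hpq'
      by_contra hlt
      push Not at hlt
      have hg := Nat.gcd_dvd_left (p - 1) (p' - 1)
      have hg' := Nat.gcd_dvd_right (p - 1) (p' - 1)
      have hp2 := hp.two_le
      have hp2' := hp'.two_le
      have hpX := hle p hpq
      have hpX' := hle p' hpq'
      have hgle := Nat.le_of_dvd (by omega) hg
      refine e5 _ (mem_Icc.2 ⟨hlt.le, by omega⟩) p
        (mem_filter.2 ⟨mem_Icc.2 ⟨hp2, hpX⟩, hg⟩) p'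
        (mem_filter.2 ⟨mem_Icc.2 ⟨hp2', hpX'⟩, hg'⟩) ?_
      exact ((Nat.coprime_primes hp hp').2 hne).mul_dvd_of_dvd_of_dvd hpq hpq'
    · intro p hp hpq d hd hdq
      by_contra hlt
      push Not at hlt
      have hp2 := hp.two_le
      have hpX := hle p hpq
      have hdle := Nat.le_of_dvd (by omega) hd
      exact e6 d (mem_Icc.2 ⟨hlt.le, by omega⟩) p (mem_filter.2 ⟨mem_Icc.2 ⟨hp2, hpX⟩, hd⟩) hdq
    · rw [hZT]
      calc (q : ℝ) ^ β * (X : ℝ) ^ (ε / 4) ≤ (q : ℝ) ^ β * (q : ℝ) ^ (2 * (ε / 4)) := by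
            gcongr
            exact hXq _ (by positivity)
        _ = (q : ℝ) ^ (β + 2 * (ε / 4)) := (Real.rpow_add hq0 _ _).symm
        _ ≤ (q : ℝ) ^ (1 : ℝ) := Real.rpow_le_rpow_of_exponent_le hqr (by linarith)
        _ = q := Real.rpow_one _
    · exact lt_of_le_of_lt hqX (Nat.lt_pow_succ_log_self (by norm_num) X)
    · have h1 : ((Nat.log 2 X + 1 : ℕ) : ℝ) ≤ (X : ℝ) ^ (3 * ε / 8) := by
        refine le_trans ?_ d8
        push_cast
        have h2 : (Nat.log 2 X : ℝ) * Real.log 2 ≤ L := by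
          have h3 : 2 ^ Nat.log 2 X ≤ X := Nat.pow_log_le_self 2 (by omega)
          have h4 : ((2 : ℝ) ^ Nat.log 2 X) ≤ X := by exact_mod_cast h3
          have h5 := Real.log_le_log (by positivity) h4
          rwa [Real.log_pow] at h5
        have h4 := Real.log_two_gt_d9
        have h5 : (0 : ℝ) ≤ (Nat.log 2 X : ℝ) := Nat.cast_nonneg _
        nlinarith
      have h2 : Z ^ y * Real.exp T * N ≤ (X : ℝ) ^ (3 * ε / 8) := by
        rw [hZT]
        calc (X : ℝ) ^ (ε / 4) * N ≤ (X : ℝ) ^ (ε / 4) * (X : ℝ) ^ (γ / 8) := by gcongr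
          _ = (X : ℝ) ^ (ε / 4 + γ / 8) := hadd _ _
          _ ≤ _ := hmono _ _ (by linarith)
      have h3 : 2 ≤ (X : ℝ) ^ (ε / 8) := hd7.trans (hmono _ _ (by linarith))
      calc ((Nat.log 2 X + 1 : ℕ) : ℝ) + Z ^ y * Real.exp T * N ≤
          (X : ℝ) ^ (3 * ε / 8) + (X : ℝ) ^ (3 * ε / 8) := add_le_add h1 h2
        _ = 2 * (X : ℝ) ^ (3 * ε / 8) := by ring
        _ ≤ (X : ℝ) ^ (ε / 8) * (X : ℝ) ^ (3 * ε / 8) := by gcongr
        _ = (X : ℝ) ^ (ε / 2) := by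
          rw [hadd]
          congr 1
          ring
        _ ≤ (q : ℝ) ^ (2 * (ε / 2)) := hXq _ (by positivity)
        _ = (q : ℝ) ^ ε := by
          congr 1
          ring
  refine (cnt_mono key).trans ((cnt_or8 X _ _ _ _ _ _ _ _).trans ?_)
  have u0 : cnt X (fun q => q ^ 2 ≤ X) ≤ ε₀ / 8 * X := by
    refine (cnt_sq X).trans ?_
    have h1 : Real.sqrt X * Real.sqrt X = X := Real.mul_self_sqrt hX0.le
    have h2 : 1 ≤ ε₀ / 8 * Real.sqrt X := by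
      rw [div_le_iff₀ hε₀] at d0
      linarith
    calc Real.sqrt X = 1 * Real.sqrt X := (one_mul _).symm
      _ ≤ ε₀ / 8 * Real.sqrt X * Real.sqrt X := by gcongr
      _ = ε₀ / 8 * X := by rw [mul_assoc, h1]
  have u1 : cnt X (fun q => ∃ p ∈ Icc 1 y, p.Prime ∧ Z < ((p ^ q.factorization p : ℕ) : ℝ)) ≤
      ε₀ / 8 * X := by
    refine (cnt_small X y (by linarith)).trans ?_
    have h1 : (y : ℝ) / Z ≤ ε₀ / 8 := by
      rw [div_le_iff₀ (by linarith)]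
      have h2 : 8 * (y : ℝ) / ε₀ ≤ Z := by linarith
      rw [div_le_iff₀ hε₀] at h2
      linarith
    gcongr
  have u2 : cnt X (fun q => ∃ p ∈ Ioo y (X + 1), p ^ 2 ∣ q) ≤ ε₀ / 8 * X := by
    refine (cnt_square X y).trans ?_
    have h1 : 2 / ((y : ℝ) + 1) ≤ ε₀ / 8 := by
      rw [div_le_iff₀ (by positivity)]
      rw [div_lt_iff₀ hε₀] at hm
      have h2 := mul_le_mul_of_nonneg_left hym hε₀.le
      linarith
    gcongr
  have u3 := cnt_ex X y b 0.4 hη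
  have u4 : cnt X (fun q => L ^ 2 < (q.divisors.card : ℝ)) ≤ ε₀ / 8 * X := by
    refine (cnt_tau X hX1 (by positivity)).trans ?_
    have h1 : (1 + L) / L ^ 2 ≤ ε₀ / 8 := by
      rw [div_le_iff₀ (by positivity)]
      rw [div_le_iff₀ hε₀] at hLε
      have h2 := mul_le_mul_of_nonneg_right hLε (by linarith : (0 : ℝ) ≤ L)
      have h3 : ε₀ / 8 * L ^ 2 = L * ε₀ * L / 8 := by ring
      rw [h3]
      linarith
    gcongr
  have hG0 : (0 : ℝ) < G := by exact_mod_cast hG1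
  have u5 : cnt X (fun q => ∃ d ∈ Icc G X, ∃ n ∈ (Icc 2 X).filter (fun n => d ∣ n - 1),
        ∃ n' ∈ (Icc 2 X).filter (fun n => d ∣ n - 1), n * n' ∣ q) ≤ ε₀ / 8 * X := by
    refine (cnt_pairs X G hG1).trans ?_
    have h1 : 2 * (1 + L) ^ 2 / G ≤ ε₀ / 8 := by
      have h2 : 2 * (1 + L) ^ 2 / G ≤ 2 * (1 + L) ^ 2 / L ^ 3 :=
        div_le_div_of_nonneg_left (by positivity) (by positivity) hGL
      refine h2.trans ?_
      rw [div_le_iff₀ (by positivity)]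
      rw [div_le_iff₀ hε₀] at hLε
      have h3 : (1 + L) ^ 2 ≤ 2 * L ^ 2 := by nlinarith
      have h4 : ε₀ / 8 * L ^ 3 = (L * ε₀) / 8 * L ^ 2 := by ring
      rw [h4]
      have h5 : 0 < L ^ 2 := by positivity
      have h6 := mul_le_mul_of_nonneg_right hLε h5.le
      linarith
    gcongr
  have u6 : cnt X (fun q => ∃ d ∈ Icc G X, ∃ n ∈ (Icc 2 X).filter (fun n => d ∣ n - 1),
      n * d ∣ q) ≤ ε₀ / 8 * X := by
    refine (cnt_dp X G hG1).trans ?_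
    have h1 : 2 * (1 + L) / G ≤ ε₀ / 8 := by
      have h2 : 2 * (1 + L) / G ≤ 2 * (1 + L) / L ^ 3 :=
        div_le_div_of_nonneg_left (by positivity) (by positivity) hGL
      refine h2.trans ?_
      rw [div_le_iff₀ (by positivity)]
      rw [div_le_iff₀ hε₀] at hLε
      have h4 : ε₀ / 8 * L ^ 3 = (L * ε₀) / 8 * L ^ 2 := by ring
      rw [h4]
      have h5 : 0 < L ^ 2 := by positivity
      have h6 := mul_le_mul_of_nonneg_right hLε h5.le
      have h7 : 8 * L ≤ L ^ 2 := by nlinarith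
      linarith
    gcongr
  have u7 : cnt X (fun q => T < sl Y q) ≤ ε₀ / 8 * X := by
    refine (cnt_smooth X Y (by omega) hT0).trans ?_
    have h1 : Real.log Y ≤ γ * L := by
      have h2 := Real.log_le_log (by exact_mod_cast (by omega : 0 < Y)) hYle
      rwa [Real.log_rpow hX0] at h2
    have h2 : 2 * Real.log Y / T ≤ ε₀ / 8 := by
      rw [div_le_iff₀ hT0, hT]
      rw [hγ] at h1
      calc 2 * Real.log Y ≤ 2 * (ε * ε₀ / 128 * L) := by gcongr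
        _ = ε₀ / 8 * (ε / 8 * L) := by ring
    gcongr
  linarith

/-- **almost all denominators are good** -/
theorem dz_good {b : ℕ} (hb : 2 ≤ b) {ε κ : ℝ} (hε : 0 < ε) (hκ : 0 < κ) :
    DZ (fun q => ¬ ∀ c : ℤ, IsCoprime c q → ∀ y : ℝ, ∃ n : ℕ, (n : ℝ) ≤ (q : ℝ) ^ ε ∧
      ∃ z : ℤ, |(b : ℝ) ^ n * (c / q) - y - z| < κ) := by
  intro ε₁ hε₁
  set ε' := min ε 1 with hε'
  have hε'0 : 0 < ε' := lt_min hε one_pos
  set ε₀ := min (ε₁ / 2) 1 with hε₀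
  have hε₀0 : 0 < ε₀ := lt_min (by linarith) one_pos
  obtain ⟨β, k, X₀, hβ, hcnt⟩ := cnt_GG hb hε'0 (min_le_right _ _) hε₀0 (min_le_right _ _)
  obtain ⟨Q₀, hQ₀⟩ := dense_GG (ε := ε') hb hβ k hκ
  obtain ⟨X₁, hX₁⟩ := exists_nat_gt (2 * Q₀ / ε₁)
  refine ⟨max X₀ X₁, fun X hX => ?_⟩
  have g1 : X₀ ≤ X := (le_max_left _ _).trans hX
  have g2 : (X₁ : ℝ) ≤ X := by exact_mod_cast (le_max_right _ _).trans hX
  have h1 : cnt X (fun q => ¬ ∀ c : ℤ, IsCoprime c q → ∀ y : ℝ, ∃ n : ℕ, (n : ℝ) ≤ (q : ℝ) ^ ε ∧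
      ∃ z : ℤ, |(b : ℝ) ^ n * (c / q) - y - z| < κ) ≤
      cnt X (fun q => q ≤ Q₀ ∨ ¬ GG b ε' β k q) := by
    refine cnt_mono fun q hq1 _ hbad => ?_
    by_contra hcon
    push Not at hcon
    apply hbad
    intro c hc y
    obtain ⟨n, hn, z, hz⟩ := hQ₀ q hcon.1.le hcon.2 c hc y
    refine ⟨n, hn.trans ?_, z, hz⟩
    exact Real.rpow_le_rpow_of_exponent_le (by exact_mod_cast hq1) (min_le_left _ _)
  have h2 := cnt_or X (fun q => q ≤ Q₀) (fun q => ¬ GG b ε' β k q)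
  have h3 : cnt X (fun q => q ≤ Q₀) ≤ Q₀ := by
    classical
    rw [cnt_eq]
    have : (Icc 1 X).filter (fun q => q ≤ Q₀) ⊆ Icc 1 Q₀ := by
      intro q hq
      rw [mem_filter, mem_Icc] at hq
      exact mem_Icc.2 ⟨hq.1.1, hq.2⟩
    have h4 := card_le_card this
    rw [Nat.card_Icc] at h4
    exact_mod_cast (by omega)
  have h4 := hcnt X g1
  have h5 : (Q₀ : ℝ) ≤ ε₁ / 2 * X := by
    rw [div_lt_iff₀ hε₁] at hX₁
    nlinarith
  have h6 : ε₀ * X ≤ ε₁ / 2 * X := by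
    have : ε₀ ≤ ε₁ / 2 := min_le_left _ _
    gcongr
  linarith

end Pool.Agent.H82.BC
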