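import Pool.Agent.H82.BC.Fib

/-!
# The local bound for a product of prime fields
-/

set_option autoImplicit false

namespace Pool.Agent.H82.BC

open Finset Pool.Agent.H82.BGK
open scoped Pointwise

variable {q : ℕ} [NeZero q] {P : Finset ℕ}

/-- a set with many multipliers: everything is a multiplier -/
theorem all_cv (hP : ∀ p ∈ P, p.Prime) (hP4 : ∀ p ∈ P, 4 ≤ p) (hq : q = ∏ p ∈ P, p)
    {A : Finset (ZMod q)} (hA : A.Nonempty) {W : ℝ} (hW : 1 ≤ W) (hDb : Db A W)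
    {s : ℝ} (hs : 1 ≤ s) {B : Finset (ZMod q)} (hBA : ∀ u ∈ B, Cv A W u)
    (hB : ∀ p ∈ P, 2 * s ≤ (B.image (pr q p)).card) (i : ℕ)
    (hi : ∀ p ∈ P, (p : ℝ) ≤ s ^ 2 ^ i) (u : ZMod q) :
    Cv A (W ^ 4 ^ (4 * i + 7 + 2 * P.card)) u := by
  classical
  have hdvd : ∀ p ∈ P, p ∣ q := fun p hp => hq ▸ dvd_prod_of_mem (fun p => p) hp
  have hT := fil_cv hA hW hDb
  have h1 : ∀ p ∈ P, ∀ y : ZMod p, ∃ x ∈ {u : ZMod q | Cv A (W ^ 4 ^ (4 * i + 1)) u},
      pr q p x = y := by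
    intro p hp y
    have := Fact.mk (hP p hp)
    have h2 := (hT.image (ZMod.castHom (hdvd p hp) (ZMod p))).full (hP4 p hp) hs
      (B := B.image (pr q p)) (hB p hp) (fun v hv => by
        obtain ⟨u, hu, rfl⟩ := mem_image.1 hv
        refine ⟨u, ?_, rfl⟩
        have := hBA u hu
        simpa using this) i (hi p hp) y
    obtain ⟨x, hx, hxy⟩ := h2
    exact ⟨x, hx, hxy⟩
  have h2 := hT.all (n := 4 * i + 1) hP hq h1 u
  have h3 : 4 * i + 1 + 6 + 2 * P.card = 4 * i + 7 + 2 * P.card := by ring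
  rw [h3] at h2
  exact h2

/-- **the local bound** -/
theorem core (hP : ∀ p ∈ P, p.Prime) (hP4 : ∀ p ∈ P, 4 ≤ p) (hq : q = ∏ p ∈ P, p)
    {g : ZMod q} (hg : IsUnit g) {N : ℕ} (hN : ∀ p ∈ P, N ≤ orderOf (pr q p g)) (hN2 : 2 ≤ N)
    {t M V : ℝ} (ht0 : 0 < t) (ht1 : t ≤ 1) (hM : 1 ≤ M) (hV : 2 ^ 24 * M / t ^ 4 ≤ V)
    (hS : ((Sp g N (t ^ 2 / 2)).card : ℝ) ≤ M * (Sp g N t).card)
    (hlarge : t * N / 4 ≤ (Sp g N t).card) {s : ℝ} (hs : 1 ≤ s)
    (hsV : s ≤ t * N / (8 * V ^ 2)) (i : ℕ) (hi : ∀ p ∈ P, (p : ℝ) ≤ s ^ 2 ^ i) :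
    N * t ^ 2 ≤ 32 * V ^ (200 * 4 ^ (4 * i + 7 + 2 * P.card) * (P.card + 2) + 1) := by
  classical
  have hN0 : 0 < N := by omega
  have hN' : (2 : ℝ) ≤ N := by exact_mod_cast hN2
  have ht4 : t ^ 4 ≤ 1 := pow_le_one₀ ht0.le ht1
  have ht40 : 0 < t ^ 4 := by positivity
  have hdvd : ∀ p ∈ P, p ∣ q := fun p hp => hq ▸ dvd_prod_of_mem (fun p => p) hp
  set S := Sp g N t with hSdef
  set S' := Sp g N (t ^ 2 / 2) with hS'def
  have hSpos : (0 : ℝ) < S.card := lt_of_lt_of_le (by positivity) hlarge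
  have hSne : S.Nonempty := by
    rw [← card_pos]
    exact_mod_cast hSpos
  -- the energy
  set K : ℝ := 4 * M / t ^ 4 with hK
  have hK4 : 4 ≤ K := by
    rw [hK, le_div_iff₀ ht40]
    nlinarith
  have hK0 : 0 < K := by linarith
  have hVK : 2 ^ 22 * K ≤ V := by
    refine le_trans (le_of_eq ?_) hV
    rw [hK]
    ring
  have hV1 : 1 ≤ V := by linarith
  have hV0 : 0 < V := by linarith
  have hE : (S.card : ℝ) ^ 3 ≤ K * (S.addEnergy S : ℕ) := by
    have h1 := energy_Sp (g := g) (N := N) ht0.le hN0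
    rw [← hSdef, ← hS'def] at h1
    have h2 : (t ^ 2 / 2 * (S.card : ℝ) ^ 2) ^ 2 ≤ M * S.card * (S.addEnergy S : ℕ) := by
      refine h1.trans ?_
      gcongr
    have h3 : (t ^ 4 / 4 * S.card) * (S.card : ℝ) ^ 3 ≤
        (t ^ 4 / 4 * S.card) * (K * (S.addEnergy S : ℕ)) := by
      calc (t ^ 4 / 4 * S.card) * (S.card : ℝ) ^ 3 = (t ^ 2 / 2 * (S.card : ℝ) ^ 2) ^ 2 := by ring
        _ ≤ _ := h2
        _ = _ := by
          rw [hK]
          field_simp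
    exact le_of_mul_le_mul_left h3 (by positivity)
  obtain ⟨A, hAS, hAne, hA1, hA2⟩ := Pool.Agent.H217R3.AK.bsg S hSne K hK0 hE
  have hA0 : (0 : ℝ) < A.card := by exact_mod_cast hAne.card_pos
  set K₁ : ℝ := 2 ^ 22 * K ^ 10 with hK₁
  have hK₁1 : 1 ≤ K₁ := by
    have : 1 ≤ K ^ 10 := one_le_pow₀ (by linarith)
    rw [hK₁]
    linarith
  have hK₁V : K₁ ≤ V ^ 10 := by
    have h1 : (2 ^ 22 * K) ^ 10 ≤ V ^ 10 := by gcongr
    have h3 : (2 : ℝ) ^ 22 * K ^ 10 ≤ (2 ^ 22) ^ 10 * K ^ 10 := by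
      gcongr
      norm_num
    calc K₁ = 2 ^ 22 * K ^ 10 := rfl
      _ ≤ _ := h3
      _ = (2 ^ 22 * K) ^ 10 := by rw [mul_pow]
      _ ≤ _ := h1
  -- the number of multipliers
  set n : ℕ := ⌊t * N / 4⌋₊ + 1 with hn
  have hn1 : t * N / 4 ≤ n := by
    rw [hn]
    push_cast
    exact (Nat.lt_floor_add_one _).le
  have hn2 : ∀ j < n, (j : ℝ) ≤ t * N / 4 := by
    intro j hj
    exact (Nat.le_floor_iff (by positivity)).1 (by omega)
  have hnN : n ≤ N := by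
    have h1 : ((⌊t * N / 4⌋₊ : ℕ) : ℝ) ≤ t * N / 4 := Nat.floor_le (by positivity)
    have h2 : t * N ≤ 1 * N := by gcongr
    have h3 : (n : ℝ) ≤ N := by
      rw [hn]
      push_cast
      linarith
    exact_mod_cast h3
  set R : ℝ := 8 * K * M with hR
  have hMK : M ≤ K := by
    rw [hK, le_div_iff₀ ht40]
    nlinarith
  have hR0 : 0 < R := by positivity
  have hRV : 2 * R ≤ V ^ 2 := by
    have h1 : (2 ^ 22 * K) ^ 2 ≤ V ^ 2 := by gcongr
    rw [hR]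
    nlinarith
  have hU : (S'.card : ℝ) ≤ R * A.card := by
    calc (S'.card : ℝ) ≤ M * S.card := hS
      _ ≤ M * (8 * K * A.card) := by gcongr
      _ = _ := by rw [hR]; ring
  obtain ⟨B, hB2, hB1⟩ := multipliers' hg (by omega : 0 < n) hAne
    (by linarith : 0 ≤ K₁) hR0 hA2 (U := S') (fun j hj x hx => by
      have h1 := mul_pow_mem (hAS hx) (hn2 j hj)
      refine Sp_anti ?_ h1
      nlinarith) hU
  have hW1 : K₁ ^ 5 ≤ V ^ 50 := by
    calc K₁ ^ 5 ≤ (V ^ 10) ^ 5 := by gcongr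
      _ = V ^ 50 := by rw [← pow_mul]
  have hW2 : K₁ ^ 2 * (2 * R) ≤ V ^ 50 := by
    calc K₁ ^ 2 * (2 * R) ≤ (V ^ 10) ^ 2 * V ^ 2 := by gcongr
      _ = V ^ 22 := by rw [← pow_mul, ← pow_add]
      _ ≤ V ^ 50 := pow_le_pow_right₀ hV1 (by norm_num)
  have hBs : ∀ p ∈ P, 2 * s ≤ (B.image (pr q p)).card := by
    intro p hp
    refine le_trans ?_ (hB1 p (hP p hp) (hdvd p hp) (hnN.trans (hN p hp)))
    rw [le_div_iff₀ (by positivity)]
    have h1 : s * (8 * V ^ 2) ≤ t * N := by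
      rwa [le_div_iff₀ (by positivity)] at hsV
    have h2 : 2 * s * (2 * R) ≤ 2 * s * V ^ 2 := by gcongr
    linarith
  have hDb : Db A (V ^ 50) := by
    obtain ⟨Y, hY1, hY2⟩ := db_of hAne hA2
    exact ⟨Y, hY1.trans hW1, hY2⟩
  have hall := all_cv hP hP4 hq hAne (one_le_pow₀ hV1 : 1 ≤ V ^ 50) hDb hs
    (fun u hu => (hB2 u hu).mono hW2) hBs i hi
  set E := 4 ^ (4 * i + 7 + 2 * P.card) with hE'
  have hE1 : 4 ^ 3 ≤ E := Nat.pow_le_pow_right (by norm_num) (by omega)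
  set L : ℝ := (V ^ 50) ^ E with hL
  have hLV : L = V ^ (50 * E) := by rw [hL, ← pow_mul]
  set D : ℝ := V ^ (200 * E) with hD
  have hD1 : 1 ≤ D := one_le_pow₀ hV1
  have h2V : 2 ≤ V := by linarith
  have hC1 : 2 * (L ^ 3 * K₁ ^ 6) ≤ D := by
    calc 2 * (L ^ 3 * K₁ ^ 6) ≤ V * (L ^ 3 * (V ^ 10) ^ 6) := by gcongr
      _ = V ^ (1 + (50 * E * 3 + 60)) := by
        rw [hLV, ← pow_mul, ← pow_mul, pow_add V 1, pow_add, pow_one]
      _ ≤ D := pow_le_pow_right₀ hV1 (by omega)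
  have hC2 : L ^ 2 * K₁ ^ 4 ≤ D := by
    calc L ^ 2 * K₁ ^ 4 ≤ L ^ 2 * (V ^ 10) ^ 4 := by gcongr
      _ = V ^ (50 * E * 2 + 40) := by
        rw [hLV, ← pow_mul, ← pow_mul, pow_add]
      _ ≤ D := pow_le_pow_right₀ hV1 (by omega)
  have hgoal : V ^ (200 * E * (P.card + 2) + 1) = V * D ^ (P.card + 2) := by
    rw [hD, ← pow_mul, pow_succ, mul_comm]
  rw [hgoal]
  by_cases hcase : ∀ p ∈ P, ((A.image (pr q p)).card : ℝ) ≤ D
  · -- the set is small
    have h1 : (A.card : ℝ) ≤ D ^ P.card := by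
      have e1 := card_le_prod hP hq A
      calc (A.card : ℝ) ≤ ((∏ p ∈ P, (A.image (pr q p)).card : ℕ) : ℝ) := by exact_mod_cast e1
        _ = ∏ p ∈ P, ((A.image (pr q p)).card : ℝ) := by push_cast; rfl
        _ ≤ ∏ p ∈ P, D := prod_le_prod (fun _ _ => Nat.cast_nonneg _) hcase
        _ = D ^ P.card := by rw [prod_const]
    have h2 : t * N / 4 ≤ 8 * K * A.card := hlarge.trans hA1
    have h3 : t * N ≤ 32 * (V * D ^ P.card) := by
      calc t * N ≤ 32 * (K * A.card) := by linarith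
        _ ≤ 32 * (V * D ^ P.card) := by
          have : K ≤ V := by linarith
          gcongr
    have h4 : D ^ P.card ≤ D ^ (P.card + 2) := pow_le_pow_right₀ hD1 (by omega)
    have h5 : t ^ 2 ≤ t := by nlinarith
    calc N * t ^ 2 ≤ N * t := by gcongr
      _ = t * N := mul_comm _ _
      _ ≤ 32 * (V * D ^ P.card) := h3
      _ ≤ 32 * (V * D ^ (P.card + 2)) := by gcongr
  · -- a large reduction
    push Not at hcase
    obtain ⟨p, hp, hpD⟩ := hcase
    have h1 : (p : ℝ) ≤ D * (A.image (pr q p)).card := by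
      rcases dich hP hq hp hAne hA2 hall with h | h
      · exact absurd (h.trans hC1) (not_le.2 hpD)
      · refine h.trans ?_
        gcongr
    obtain ⟨e, he⟩ := exists_idem hP hq hp
    obtain ⟨z, hz⟩ := fibre hP hq hp he hAne hA2 hall
    have h2 := card_fibre_le hP hq hp he (hN p hp) hN0 ht0 z
    rw [← hSdef] at h2
    set a := ((A.filter fun a => (1 - e) * a = z).card : ℝ) with ha
    have h3 : a ≤ ((S.filter fun a => (1 - e) * a = z).card : ℝ) := by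
      rw [ha]
      exact_mod_cast card_le_card (filter_subset_filter _ hAS)
    have hAp0 : (0 : ℝ) < (A.image (pr q p)).card := by exact_mod_cast (hAne.image _).card_pos
    have ha0 : 0 < a := by
      by_contra hcon
      rw [not_lt] at hcon
      have : L ^ 2 * K₁ ^ 4 * a ≤ 0 := mul_nonpos_of_nonneg_of_nonpos (by positivity) hcon
      linarith
    have h4 : a * (N * t ^ 2) ≤ a * (D * D) := by
      calc a * (N * t ^ 2) ≤ ((S.filter fun a => (1 - e) * a = z).card : ℝ) * (N * t ^ 2) := by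
            gcongr
        _ ≤ (p : ℝ) := h2
        _ ≤ D * (A.image (pr q p)).card := h1
        _ ≤ D * (L ^ 2 * K₁ ^ 4 * a) := by gcongr
        _ ≤ D * (D * a) := by gcongr
        _ = a * (D * D) := by ring
    have h5 := le_of_mul_le_mul_left h4 ha0
    have h6 : D * D ≤ D ^ (P.card + 2) := by
      rw [← sq]
      exact pow_le_pow_right₀ hD1 (by omega)
    have h7 : D ^ (P.card + 2) ≤ 32 * (V * D ^ (P.card + 2)) := by
      have h8 : 0 < D ^ (P.card + 2) := by positivity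
      nlinarith
    linarith

end Pool.Agent.H82.BC
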