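import Pool.Agent.H82.BC.Orb

/-!
# The structure of a typical integer
-/

set_option autoImplicit false

namespace Pool.Agent.H82.BC

open Finset Filter Topology Pool.Agent.Y943.Fu

/-- the exponent -/
def ex0 (b r : ℕ) : ℕ := ∏ l ∈ r.primeFactors.filter (fun l => ¬ l ∣ b),
  Nat.totient (l ^ r.factorization l)

/-- the large prime factors -/
def LP (Y q : ℕ) : Finset ℕ := q.primeFactors.filter (fun p => Y < p)

theorem mem_LP {Y q p : ℕ} (hq : 1 ≤ q) : p ∈ LP Y q ↔ p.Prime ∧ p ∣ q ∧ Y < p := by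
  unfold LP
  rw [mem_filter, Nat.mem_primeFactors]
  constructor
  · rintro ⟨⟨h1, h2, _⟩, h3⟩
    exact ⟨h1, h2, h3⟩
  · rintro ⟨h1, h2, h3⟩
    exact ⟨⟨h1, h2, by omega⟩, h3⟩

/-- the splitting `q = (∏ p) m` -/
theorem split {y Y q : ℕ} {Z : ℝ} (hq : 1 ≤ q) (hyY : y ≤ Y) (hZ : 1 ≤ Z)
    (h1 : ∀ p : ℕ, p.Prime → p ≤ y → ((p ^ q.factorization p : ℕ) : ℝ) ≤ Z)
    (h2 : ∀ p : ℕ, p.Prime → y < p → ¬ p ^ 2 ∣ q) :
    ∃ m : ℕ, q = (∏ p ∈ LP Y q, p) * m ∧ 1 ≤ m ∧ Nat.Coprime m (∏ p ∈ LP Y q, p) ∧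
      (m : ℝ) ≤ Z ^ y * Real.exp (sl Y q) := by
  have hmem := fun p => mem_LP (Y := Y) (p := p) hq
  -- `q` is the product
  have hfac : ∏ p ∈ q.primeFactors, p ^ q.factorization p = q :=
    Nat.prod_factorization_pow_eq_self (by omega)
  have hone : ∀ p ∈ q.primeFactors, y < p → q.factorization p = 1 := by
    intro p hp hpy
    rw [Nat.mem_primeFactors] at hp
    have a4 : 1 ≤ q.factorization p := hp.1.factorization_pos_of_dvd (by omega) hp.2.1
    have a5 : q.factorization p < 2 := by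
      by_contra hcon
      push Not at hcon
      exact h2 p hp.1 hpy ((pow_dvd_pow p hcon).trans (Nat.ordProj_dvd q p))
    omega
  set S := q.primeFactors.filter (fun p => ¬ Y < p) with hS
  set m := ∏ p ∈ S, p ^ q.factorization p with hm
  have e1 : q = (∏ p ∈ LP Y q, p) * m := by
    have e2 := prod_filter_mul_prod_filter_not q.primeFactors (fun p => Y < p)
      (fun p => p ^ q.factorization p)
    rw [hfac] at e2
    have e3 : ∏ p ∈ q.primeFactors.filter (fun p => Y < p), p ^ q.factorization p =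
        ∏ p ∈ LP Y q, p := by
      refine prod_congr rfl fun p hp => ?_
      have hp' : p ∈ q.primeFactors.filter (fun p => Y < p) := hp
      rw [mem_filter] at hp'
      rw [hone p hp'.1 (by omega), pow_one]
    rw [e3] at e2
    exact e2.symm
  refine ⟨m, e1, ?_, ?_, ?_⟩
  · refine Nat.pos_of_ne_zero (prod_ne_zero_iff.2 fun p hp => ?_)
    rw [hS, mem_filter, Nat.mem_primeFactors] at hp
    exact pow_ne_zero _ hp.1.1.ne_zero
  · refine Nat.Coprime.prod_left fun p hp => Nat.Coprime.prod_right fun p' hp' => ?_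
    rw [hS, mem_filter, Nat.mem_primeFactors] at hp
    rw [hmem] at hp'
    refine Nat.Coprime.pow_left _ ((Nat.coprime_primes hp.1.1 hp'.1).2 ?_)
    rintro rfl
    exact hp.2 hp'.2.2
  · -- the size
    have e3 := prod_filter_mul_prod_filter_not S (fun p => y < p) (fun p => p ^ q.factorization p)
    rw [← hm] at e3
    have e4 : (m : ℝ) = (∏ p ∈ S.filter (fun p => y < p), (p : ℝ)) *
        ∏ p ∈ S.filter (fun p => ¬ y < p), ((p ^ q.factorization p : ℕ) : ℝ) := by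
      rw [← e3, Nat.cast_mul, Nat.cast_prod, Nat.cast_prod]
      congr 1
      refine prod_congr rfl fun p hp => ?_
      rw [mem_filter, hS, mem_filter] at hp
      rw [hone p hp.1.1 hp.2, pow_one]
    rw [e4, mul_comm]
    have hsmall : ∏ p ∈ S.filter (fun p => ¬ y < p), ((p ^ q.factorization p : ℕ) : ℝ) ≤ Z ^ y := by
      have hcard : (S.filter (fun p => ¬ y < p)).card ≤ y := by
        have : S.filter (fun p => ¬ y < p) ⊆ Icc 1 y := fun p hp => by
          rw [mem_filter, hS, mem_filter, Nat.mem_primeFactors] at hp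
          rw [mem_Icc]
          exact ⟨hp.1.1.1.one_lt.le, by omega⟩
        simpa using card_le_card this
      calc ∏ p ∈ S.filter (fun p => ¬ y < p), ((p ^ q.factorization p : ℕ) : ℝ) ≤
          ∏ _p ∈ S.filter (fun p => ¬ y < p), Z :=
            prod_le_prod (fun p _ => Nat.cast_nonneg _) fun p hp => by
              rw [mem_filter, hS, mem_filter, Nat.mem_primeFactors] at hp
              exact h1 p hp.1.1.1 (by omega)
        _ = Z ^ (S.filter (fun p => ¬ y < p)).card := by rw [prod_const]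
        _ ≤ Z ^ y := pow_le_pow_right₀ hZ hcard
    have hmid : ∏ p ∈ S.filter (fun p => y < p), (p : ℝ) ≤ Real.exp (sl Y q) := by
      have e5 : ∏ p ∈ S.filter (fun p => y < p), (p : ℝ) =
          Real.exp (∑ p ∈ S.filter (fun p => y < p), Real.log p) := by
        rw [Real.exp_sum]
        refine prod_congr rfl fun p hp => ?_
        rw [mem_filter, hS, mem_filter, Nat.mem_primeFactors] at hp
        rw [Real.exp_log]
        exact_mod_cast hp.1.1.1.pos
      rw [e5]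
      apply Real.exp_le_exp.2
      unfold sl
      refine sum_le_sum_of_subset_of_nonneg ?_ fun p _ _ => Real.log_natCast_nonneg p
      intro p hp
      rw [mem_filter, hS, mem_filter] at hp
      rw [mem_filter]
      exact ⟨hp.1.1, by omega⟩
    have h0 : 0 ≤ ∏ p ∈ S.filter (fun p => y < p), (p : ℝ) :=
      prod_nonneg fun _ _ => Nat.cast_nonneg _
    have h0' : 0 ≤ Z ^ y := by positivity
    exact mul_le_mul hsmall hmid h0 h0'

/-- the gcd with the exponent of a unitary divisor -/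
theorem gcd_ex0_le {b m r p q G W : ℕ} (hp : p.Prime) (hm : 1 ≤ m) (hr : 1 ≤ r)
    (hq : q = (p * r) * m) (hcop : Nat.Coprime m (p * r))
    (h4 : q.primeFactors.card ≤ W) (hG : 1 ≤ G) (hpr : ¬ p ∣ r * m)
    (h5 : ∀ p p' : ℕ, p.Prime → p'.Prime → p ≠ p' → p ∣ q → p' ∣ q →
      Nat.gcd (p - 1) (p' - 1) ≤ G)
    (h6 : ∀ d : ℕ, d ∣ p - 1 → p * d ∣ q → d ≤ G) :
    Nat.gcd (p - 1) (ex0 b m) ≤ G ^ (W + 1) := by
  have hrm : 1 ≤ r * m := Nat.mul_pos hr hm
  have h7 := gcd_exponent_le (b := b) hp hrm (by rw [hq]; ring : q = p * (r * m)) h4 hG hpr h5 h6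
  refine le_trans (Nat.le_of_dvd ?_ (Nat.gcd_dvd_gcd_of_dvd_right _ ?_)) h7
  · exact Nat.gcd_pos_of_pos_left _ (Nat.sub_pos_of_lt hp.one_lt)
  · -- divisibility of the exponents
    unfold ex0
    have hcop' : Nat.Coprime m r := hcop.coprime_dvd_right (dvd_mul_left _ _)
    have e1 : ∀ l ∈ m.primeFactors.filter (fun l => ¬ l ∣ b),
        Nat.totient (l ^ m.factorization l) = Nat.totient (l ^ (r * m).factorization l) := by
      intro l hl
      rw [mem_filter, Nat.mem_primeFactors] at hl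
      have e2 : r.factorization l = 0 := by
        apply Nat.factorization_eq_zero_of_not_dvd
        intro hlr
        exact (Nat.Prime.not_coprime_iff_dvd.2 ⟨l, hl.1.1, hl.1.2.1, hlr⟩) hcop'
      rw [Nat.factorization_mul (by omega) (by omega), Finsupp.add_apply, e2, zero_add]
    rw [prod_congr rfl e1]
    refine prod_dvd_prod_of_subset _ _ _ ?_
    intro l hl
    rw [mem_filter, Nat.mem_primeFactors] at hl ⊢
    exact ⟨⟨hl.1.1, hl.1.2.1.mul_left _, by positivity⟩, hl.2⟩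

/-- **the deterministic part** -/
theorem gg_of {b y Y q G W k N n₀ : ℕ} {Z ε β T : ℝ} (hb : 2 ≤ b) (hyb : b ≤ y) (hyY : y ≤ Y)
    (hq : 1 ≤ q) (hG : 1 ≤ G) (hZ : 1 ≤ Z)
    (h1 : ∀ p : ℕ, p.Prime → p ≤ y → ((p ^ q.factorization p : ℕ) : ℝ) ≤ Z)
    (h2 : ∀ p : ℕ, p.Prime → y < p → ¬ p ^ 2 ∣ q)
    (h3 : ∀ p : ℕ, p.Prime → y < p → p ∣ q → (p : ℝ) ^ (0.4 : ℝ) ≤ orderOf (b : ZMod p))
    (h4 : q.primeFactors.card ≤ W)
    (h5 : ∀ p p' : ℕ, p.Prime → p'.Prime → p ≠ p' → p ∣ q → p' ∣ q →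
      Nat.gcd (p - 1) (p' - 1) ≤ G)
    (h6 : ∀ p : ℕ, p.Prime → p ∣ q → ∀ d : ℕ, d ∣ p - 1 → p * d ∣ q → d ≤ G)
    (h7 : sl Y q ≤ T) (hk : q ≤ Y ^ k) (hY1 : 2 ≤ Y)
    (hbig : (q : ℝ) ^ β * (Z ^ y * Real.exp T) ≤ q)
    (hn₀ : q < 2 ^ n₀) (hN : (N : ℝ) * G ^ (W + 1) ≤ (Y : ℝ) ^ (0.4 : ℝ)) (hNq : (q : ℝ) ^ β ≤ N)
    (hlen : n₀ + Z ^ y * Real.exp T * N ≤ (q : ℝ) ^ ε) : GG b ε β k q := by
  obtain ⟨m, hqm, hm, hcop, hmle⟩ := split hq hyY hZ h1 h2
  have hmem := fun p => mem_LP (Y := Y) (p := p) hq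
  have hq0 : (0 : ℝ) < q := by exact_mod_cast hq
  set P := LP Y q with hP
  set r := ∏ p ∈ P, p with hr
  have hr0 : 0 < r := prod_pos fun p hp => ((hmem p).1 hp).1.pos
  have hmT : (m : ℝ) ≤ Z ^ y * Real.exp T := by
    refine hmle.trans ?_
    gcongr
  have hm0 : (0 : ℝ) < m := by exact_mod_cast hm
  refine ⟨P, m, ex0 b m, n₀, N, fun p hp => ((hmem p).1 hp).1, ?_, hqm, hm, hcop, ?_, ?_, ?_,
    hNq, ?_⟩
  · -- few large primes
    have e1 : Y ^ P.card ≤ r := by
      rw [← prod_const]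
      exact prod_le_prod' fun p hp => ((hmem p).1 hp).2.2.le
    have e2 : r ≤ q := by
      rw [hqm]
      exact Nat.le_mul_of_pos_right _ hm
    exact (Nat.pow_le_pow_iff_right (by omega)).1 (e1.trans (e2.trans hk))
  · have e1 : (q : ℝ) = r * m := by exact_mod_cast hqm
    have e2 : (q : ℝ) ^ β * m ≤ r * m := by
      calc (q : ℝ) ^ β * m ≤ (q : ℝ) ^ β * (Z ^ y * Real.exp T) := by gcongr
        _ ≤ q := hbig
        _ = _ := e1
    exact le_of_mul_le_mul_right e2 hm0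
  · have hmq : m ≤ q := by
      rw [hqm]
      exact Nat.le_mul_of_pos_left _ hr0
    exact dvd_exponent (by omega) hm (lt_of_le_of_lt hmq hn₀)
  · intro p hp
    obtain ⟨hpp, hpq, hpY⟩ := (hmem p).1 hp
    have hFp := Fact.mk hpp
    have hpb : ¬ p ∣ b := fun hd => by
      have := Nat.le_of_dvd (by omega) hd
      omega
    have hex : ex0 b m ≠ 0 := by
      have := (exponent_le (b := b) hm).1
      unfold ex0
      omega
    -- `q = (p r') m`
    obtain ⟨r', hr'⟩ : p ∣ r := dvd_prod_of_mem (fun p => p) hp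
    have hr'1 : 1 ≤ r' := by
      rcases Nat.eq_zero_or_pos r' with h | h
      · subst h
        omega
      · exact h
    have hpr' : ¬ p ∣ r' * m := by
      intro hd
      apply h2 p hpp (by omega)
      rw [hqm, hr', pow_two, mul_assoc]
      exact Nat.mul_dvd_mul_left _ hd
    have hgcd := gcd_ex0_le (b := b) hpp hm hr'1 (by rw [← hr']; exact hqm)
      (by rw [← hr']; exact hcop) h4 hG hpr' h5 (h6 p hpp hpq)
    have e2 : orderOf (b : ZMod p) = orderOf ((b : ZMod p) ^ ex0 b m) *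
        Nat.gcd (orderOf (b : ZMod p)) (ex0 b m) := by
      rw [orderOf_pow' _ hex]
      exact (Nat.div_mul_cancel (Nat.gcd_dvd_left _ _)).symm
    have e3 : Nat.gcd (orderOf (b : ZMod p)) (ex0 b m) ≤ G ^ (W + 1) := by
      refine le_trans ?_ hgcd
      refine Nat.le_of_dvd (Nat.gcd_pos_of_pos_left _ (Nat.sub_pos_of_lt hpp.one_lt)) ?_
      exact Nat.dvd_gcd ((Nat.gcd_dvd_left _ _).trans (order_dvd hpp hpb)) (Nat.gcd_dvd_right _ _)
    have e4 := h3 p hpp (by omega) hpq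
    have hG0 : (0 : ℝ) < (G : ℝ) ^ (W + 1) := by
      have : (0 : ℝ) < G := by exact_mod_cast hG
      positivity
    have e5 : (orderOf (b : ZMod p) : ℝ) ≤
        orderOf ((b : ZMod p) ^ ex0 b m) * (G : ℝ) ^ (W + 1) := by
      have e8 : ((Nat.gcd (orderOf (b : ZMod p)) (ex0 b m) : ℕ) : ℝ) ≤ (G : ℝ) ^ (W + 1) := by
        exact_mod_cast e3
      calc (orderOf (b : ZMod p) : ℝ) = ((orderOf ((b : ZMod p) ^ ex0 b m) *
        Nat.gcd (orderOf (b : ZMod p)) (ex0 b m) : ℕ) : ℝ) := by rw [← e2]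
        _ = (orderOf ((b : ZMod p) ^ ex0 b m) : ℝ) *
            ((Nat.gcd (orderOf (b : ZMod p)) (ex0 b m) : ℕ) : ℝ) := by
          push_cast
          rfl
        _ ≤ _ := by gcongr
    have e6 : (N : ℝ) * (G : ℝ) ^ (W + 1) ≤
        orderOf ((b : ZMod p) ^ ex0 b m) * (G : ℝ) ^ (W + 1) := by
      refine hN.trans (le_trans ?_ (e4.trans e5))
      have : (Y : ℝ) ≤ p := by exact_mod_cast hpY.le
      gcongr
    have e7 := le_of_mul_le_mul_right e6 hG0
    exact_mod_cast e7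
  · refine le_trans ?_ hlen
    push_cast
    have e1 : ((ex0 b m : ℕ) : ℝ) ≤ Z ^ y * Real.exp T := by
      refine le_trans ?_ hmT
      exact_mod_cast (exponent_le (b := b) hm).2
    gcongr

end Pool.Agent.H82.BC
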