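import Pool.Agent.H82.BC.Cnt

/-!
# Equidistribution of the first points of the orbits of fractions
-/

set_option autoImplicit false

namespace Pool.Agent.H82.BC

open Finset Filter Topology Pool.Agent.Y943.Fu Pool.Agent.H332R2.Lit

/-- a long sum from sums over blocks -/
theorem norm_sum_blocks {f : ℕ → ℂ} (hf : ∀ n, ‖f n‖ ≤ 1) {n₀ B : ℕ} (hB : 1 ≤ B) {η : ℝ}
    (hη : 0 ≤ η) (h : ∀ n, n₀ ≤ n → ‖∑ i ∈ range B, f (n + i)‖ ≤ η * B) (N : ℕ) :
    ‖∑ i ∈ range N, f i‖ ≤ n₀ + B + η * N := by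
  have h0 : ∀ M a : ℕ, ‖∑ i ∈ range M, f (a + i)‖ ≤ M := by
    intro M a
    refine (norm_sum_le _ _).trans ?_
    refine (sum_le_sum fun i _ => hf _).trans ?_
    simp
  rcases le_total N n₀ with hN | hN
  · have h1 := h0 N 0
    simp only [zero_add] at h1
    have h2 : (N : ℝ) ≤ n₀ := by exact_mod_cast hN
    have : 0 ≤ η * N := by positivity
    have : (0 : ℝ) ≤ B := Nat.cast_nonneg _
    linarith
  · obtain ⟨M, rfl⟩ := Nat.exists_eq_add_of_le hN
    have hblocks : ∀ J : ℕ, ‖∑ i ∈ range (B * J), f (n₀ + i)‖ ≤ η * (B * J) := by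
      intro J
      induction J with
      | zero => simp
      | succ J ih =>
        rw [Nat.mul_succ, sum_range_add]
        refine (norm_add_le _ _).trans ?_
        have h2 := h (n₀ + B * J) (Nat.le_add_right _ _)
        have h3 : ∑ i ∈ range B, f (n₀ + (B * J + i)) = ∑ i ∈ range B, f (n₀ + B * J + i) :=
          sum_congr rfl fun i _ => by rw [add_assoc]
        rw [h3]
        push_cast
        linarith
    rw [sum_range_add]
    refine (norm_add_le _ _).trans ?_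
    have h1 := h0 n₀ 0
    simp only [zero_add] at h1
    have h2 : M = B * (M / B) + M % B := (Nat.div_add_mod M B).symm
    have h3 : ‖∑ i ∈ range M, f (n₀ + i)‖ ≤ η * (B * (M / B : ℕ)) + B := by
      rw [h2, sum_range_add]
      refine (norm_add_le _ _).trans ?_
      have h4 := hblocks (M / B)
      have h5 := h0 (M % B) (n₀ + B * (M / B))
      have h6 : ∑ i ∈ range (M % B), f (n₀ + (B * (M / B) + i)) =
          ∑ i ∈ range (M % B), f (n₀ + B * (M / B) + i) :=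
        sum_congr rfl fun i _ => by rw [add_assoc]
      rw [h6]
      have h7 : ((M % B : ℕ) : ℝ) ≤ B := by exact_mod_cast (Nat.mod_lt M hB).le
      have h8 : (B * (M / B) + M % B) / B = M / B := by rw [← h2]
      rw [h8]
      linarith
    have h4 : (B : ℝ) * (M / B : ℕ) ≤ M := by exact_mod_cast Nat.mul_div_le M B
    have h5 : η * (B * (M / B : ℕ)) ≤ η * M := by gcongr
    have h6 : 0 ≤ η * n₀ := by positivity
    push_cast
    linarith

/-- a block of length `D N` from progressions -/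
theorem sum_prog (f : ℕ → ℂ) (D N : ℕ) : ∑ i ∈ range (D * N), f i =
    ∑ ρ ∈ range D, ∑ l ∈ range N, f (ρ + D * l) := by
  rw [sum_comm]
  induction N with
  | zero => simp
  | succ N ih =>
    rw [Nat.mul_succ, sum_range_add, sum_range_succ, ih]
    congr 1
    refine sum_congr rfl fun i _ => ?_
    rw [add_comm]

/-- **sums along the orbits of fractions** -/
theorem sums_GG {b : ℕ} (hb : 2 ≤ b) {ε β η : ℝ} (hε : 0 < ε) (hβ : 0 < β) (k H : ℕ) (hη : 0 < η) :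
    ∃ Q₀ : ℕ, ∀ q : ℕ, Q₀ ≤ q → GG b ε β k q → ∀ c : ℤ, IsCoprime c q →
      ∀ N : ℕ, (q : ℝ) ^ (2 * ε) ≤ N → ∀ h : ℕ, 1 ≤ h → h ≤ H →
        ‖∑ n ∈ range N, e ((h : ℝ) * ((b : ℝ) ^ n * (c / q)))‖ ≤ η * N := by
  obtain ⟨δ, hδ, q₀, hbc⟩ := bc hβ k
  obtain ⟨Q₁, hQ₁⟩ := Pool.Agent.H82.BGK.ev_pow hβ ((max q₀ (H + 2) : ℕ) : ℝ)
  obtain ⟨Q₂, hQ₂⟩ := Pool.Agent.H82.BGK.ev_pow (mul_pos hβ hδ) (1 / (η / 2))
  obtain ⟨Q₃, hQ₃⟩ := Pool.Agent.H82.BGK.ev_pow hε (1 / (η / 2))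
  refine ⟨max (max Q₁ Q₂) (max Q₃ 1), fun q hq hGG c hc N₁ hN₁ h h1 h2 => ?_⟩
  obtain ⟨P, m, D, n₀, N, hP, hPk, hqm, hm, hcop, hbig, hdvd, hord, hN, hlen⟩ := hGG
  have g1 : Q₁ ≤ q := ((le_max_left _ _).trans (le_max_left _ _)).trans hq
  have g2 : Q₂ ≤ q := ((le_max_right _ _).trans (le_max_left _ _)).trans hq
  have g3 : Q₃ ≤ q := ((le_max_left _ _).trans (le_max_right _ _)).trans hq
  have g4 : 1 ≤ q := ((le_max_right _ _).trans (le_max_right _ _)).trans hq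
  have hq1 : (1 : ℝ) ≤ q := by exact_mod_cast g4
  have hq0 : (0 : ℝ) < q := by linarith
  set r : ℕ := ∏ p ∈ P, p with hr
  have hrq : r ≤ q := by
    rw [hqm]
    exact Nat.le_mul_of_pos_right _ hm
  have hr0 : 0 < r := prod_pos fun p hp => (hP p hp).pos
  have hNZ : NeZero r := ⟨hr0.ne'⟩
  have hr0' : (0 : ℝ) < r := by exact_mod_cast hr0
  have hrbig : max q₀ (H + 2) ≤ r := by
    have := (hQ₁ q g1).trans hbig
    exact_mod_cast this
  have hNbig : max q₀ (H + 2) ≤ N := by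
    have := (hQ₁ q g1).trans hN
    exact_mod_cast this
  have hN1 : 2 ≤ N := by
    have := (le_max_right q₀ (H + 2)).trans hNbig
    omega
  have hrN : (r : ℝ) ^ β ≤ N := by
    refine le_trans ?_ hN
    have : (r : ℝ) ≤ q := by exact_mod_cast hrq
    gcongr
  have hdvdr : ∀ p ∈ P, p ∣ r := fun p hp => dvd_prod_of_mem (fun p => p) hp
  have hord' : ∀ p ∈ P, N ≤ orderOf (pr r p ((b : ZMod r) ^ D)) := by
    intro p hp
    rw [pr_pow (hdvdr p hp), pr_natCast (hdvdr p hp)]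
    exact hord p hp
  -- the exponent is positive
  have hPne : P.Nonempty := by
    rw [nonempty_iff_ne_empty]
    rintro rfl
    rw [prod_empty] at hr
    have := (le_max_right q₀ (H + 2)).trans hrbig
    omega
  have hD : 1 ≤ D := by
    rcases Nat.eq_zero_or_pos D with h0 | h0
    · obtain ⟨p, hp⟩ := hPne
      have h1 := hord p hp
      rw [h0, pow_zero, orderOf_one] at h1
      omega
    · exact h0
  -- units
  have hbu : IsUnit ((b : ZMod r) ^ D) := isUnit_of_pr hP rfl fun p hp => by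
    have := Fact.mk (hP p hp)
    have h1 := hord' p hp
    exact (order_lt (h := pr r p ((b : ZMod r) ^ D)) (by omega)).1
  have hbu' : IsUnit (b : ZMod r) := (isUnit_pow_iff (by omega)).1 hbu
  have hcu : IsUnit ((c : ℤ) : ZMod r) := by
    rw [ZMod.coe_int_isUnit_iff_isCoprime]
    have h1 : (r : ℤ) ∣ (q : ℤ) := by
      rw [hqm]
      push_cast
      exact dvd_mul_right _ _
    exact (hc.of_isCoprime_of_dvd_right h1).symm
  have hmu : IsUnit ((m : ZMod r)⁻¹) := by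
    have h1 : (m : ZMod r) * (m : ZMod r)⁻¹ = 1 := ZMod.coe_mul_inv_eq_one m hcop
    exact IsUnit.of_mul_eq_one (m : ZMod r) (by rw [mul_comm]; exact h1)
  have hh : (h : ZMod r) ≠ 0 := by
    rw [ne_eq, ZMod.natCast_eq_zero_iff]
    intro hd
    have := Nat.le_of_dvd h1 hd
    have := (le_max_right q₀ (H + 2)).trans hrbig
    omega
  have hη2 : (r : ℝ) ^ (-δ) ≤ η / 2 := by
    have h5 := hQ₂ q g2
    have h6 : (q : ℝ) ^ (β * δ) ≤ (r : ℝ) ^ δ := by
      rw [Real.rpow_mul hq0.le]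
      gcongr
    have h7 := h5.trans h6
    rw [Real.rpow_neg hr0'.le]
    rw [div_le_iff₀ (by positivity)] at h7
    rw [inv_le_iff_one_le_mul₀ (by positivity)]
    linarith
  set f : ℕ → ℂ := fun n => e ((h : ℝ) * ((b : ℝ) ^ n * (c / q))) with hf
  have hf1 : ∀ n, ‖f n‖ ≤ 1 := fun n => (norm_e' _).le
  -- a progression
  have hprog : ∀ n, n₀ ≤ n → ‖∑ l ∈ range N, f (n + D * l)‖ ≤ η / 2 * N := by
    intro n hn
    obtain ⟨t, rfl⟩ := Nat.exists_eq_add_of_le hn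
    have e1 : ∀ l ∈ range N, f (n₀ + t + D * l) =
        e ((h : ℝ) * ((b : ℝ) ^ (n₀ + D * l) * (((c * (b : ℤ) ^ t : ℤ) : ℝ) / ((r * m : ℕ) : ℝ)))) := by
      intro l _
      rw [hf]
      simp only
      congr 1
      rw [← hqm]
      push_cast
      ring
    rw [sum_congr rfl e1, orbit_sum' (by omega) hm hcop hdvd (c * (b : ℤ) ^ t)]
    have ha : (h : ZMod r) * ((c * (b : ℤ) ^ t : ℤ) : ZMod r) * (b : ZMod r) ^ n₀ *
        (m : ZMod r)⁻¹ ≠ 0 := by
      intro h0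
      apply hh
      have h3 : IsUnit (((c : ℤ) : ZMod r) * (b : ZMod r) ^ t * (b : ZMod r) ^ n₀ *
          (m : ZMod r)⁻¹) := ((hcu.mul (hbu'.pow t)).mul (hbu'.pow n₀)).mul hmu
      have h4 : (h : ZMod r) * (((c : ℤ) : ZMod r) * (b : ZMod r) ^ t * (b : ZMod r) ^ n₀ *
          (m : ZMod r)⁻¹) = 0 := by
        rw [← h0]
        push_cast
        ring
      exact (h3.mul_left_eq_zero).1 h4
    have h3 := hbc r P hP rfl hPk ((le_max_left _ _).trans hrbig) ((b : ZMod r) ^ D) N hord' hrN _ ha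
    refine h3.trans ?_
    rw [mul_comm]
    gcongr
  -- a block
  have hblock : ∀ n, n₀ ≤ n → ‖∑ i ∈ range (D * N), f (n + i)‖ ≤ η / 2 * ((D * N : ℕ) : ℝ) := by
    intro n hn
    rw [sum_prog (fun i => f (n + i)) D N]
    refine (norm_sum_le _ _).trans ?_
    have e1 : ∀ ρ ∈ range D, ‖∑ l ∈ range N, f (n + (ρ + D * l))‖ ≤ η / 2 * N := by
      intro ρ _
      have h3 := hprog (n + ρ) (by omega)
      have h4 : ∑ l ∈ range N, f (n + (ρ + D * l)) = ∑ l ∈ range N, f (n + ρ + D * l) :=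
        sum_congr rfl fun l _ => by rw [add_assoc]
      rw [h4]
      exact h3
    refine (sum_le_sum e1).trans (le_of_eq ?_)
    rw [sum_const, card_range, nsmul_eq_mul]
    push_cast
    ring
  have hfin := norm_sum_blocks hf1 (Nat.mul_pos hD (by omega) : 1 ≤ D * N)
    (by positivity : 0 ≤ η / 2) hblock N₁
  refine hfin.trans ?_
  have h3 : (n₀ : ℝ) + ((D * N : ℕ) : ℝ) ≤ (q : ℝ) ^ ε := by exact_mod_cast hlen
  have h4 : (q : ℝ) ^ ε ≤ η / 2 * N₁ := by
    have h5 := hQ₃ q g3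
    have h6 : (q : ℝ) ^ (2 * ε) = (q : ℝ) ^ ε * (q : ℝ) ^ ε := by
      rw [← Real.rpow_add hq0]
      congr 1
      ring
    rw [div_le_iff₀ (by positivity)] at h5
    have h7 : 0 < (q : ℝ) ^ ε := by positivity
    calc (q : ℝ) ^ ε = 1 * (q : ℝ) ^ ε := (one_mul _).symm
      _ ≤ ((q : ℝ) ^ ε * (η / 2)) * (q : ℝ) ^ ε := by gcongr
      _ = η / 2 * ((q : ℝ) ^ (2 * ε)) := by rw [h6]; ring
      _ ≤ η / 2 * N₁ := by gcongr
  linarith

/-- the goodness of a denominator: equidistribution -/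
def Eq (b : ℕ) (ε η : ℝ) (H q : ℕ) : Prop := ∀ c : ℤ, IsCoprime c q →
  ∀ N : ℕ, (q : ℝ) ^ ε ≤ N → ∀ h : ℕ, 1 ≤ h → h ≤ H →
    ‖∑ n ∈ range N, e ((h : ℝ) * ((b : ℝ) ^ n * (c / q)))‖ ≤ η * N

/-- **almost all denominators are good** -/
theorem dz_eq {b : ℕ} (hb : 2 ≤ b) {ε η : ℝ} (hε : 0 < ε) (hη : 0 < η) (H : ℕ) :
    DZ (fun q => ¬ Eq b ε η H q) := by
  intro ε₁ hε₁
  set ε' := min ε 1 with hε'
  have hε'0 : 0 < ε' := lt_min hε one_pos
  set ε₀ := min (ε₁ / 2) 1 with hε₀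
  have hε₀0 : 0 < ε₀ := lt_min (by linarith) one_pos
  obtain ⟨β, k, X₀, hβ, hcnt⟩ := cnt_GG hb (by positivity : 0 < ε' / 2)
    (by have := min_le_right ε 1; linarith) hε₀0 (min_le_right _ _)
  obtain ⟨Q₀, hQ₀⟩ := sums_GG (ε := ε' / 2) hb (by positivity) hβ k H hη
  obtain ⟨X₁, hX₁⟩ := exists_nat_gt (2 * Q₀ / ε₁)
  refine ⟨max X₀ X₁, fun X hX => ?_⟩
  have g1 : X₀ ≤ X := (le_max_left _ _).trans hX
  have g2 : (X₁ : ℝ) ≤ X := by exact_mod_cast (le_max_right _ _).trans hX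
  have h1 : cnt X (fun q => ¬ Eq b ε η H q) ≤
      cnt X (fun q => q ≤ Q₀ ∨ ¬ GG b (ε' / 2) β k q) := by
    refine cnt_mono fun q hq1 _ hbad => ?_
    by_contra hcon
    push Not at hcon
    apply hbad
    intro c hc N hN h hh1 hh2
    refine hQ₀ q hcon.1.le hcon.2 c hc N ?_ h hh1 hh2
    refine le_trans ?_ hN
    refine Real.rpow_le_rpow_of_exponent_le (by exact_mod_cast hq1) ?_
    have := min_le_left ε 1
    linarith
  have h2 := cnt_or X (fun q => q ≤ Q₀) (fun q => ¬ GG b (ε' / 2) β k q)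
  have h3 : cnt X (fun q => q ≤ Q₀) ≤ Q₀ := by
    classical
    rw [cnt_eq]
    have : (Icc 1 X).filter (fun q => q ≤ Q₀) ⊆ Icc 1 Q₀ := by
      intro q hq
      rw [mem_filter, mem_Icc] at hq
      exact mem_Icc.2 ⟨hq.1.1, hq.2⟩
    have h4 := card_le_card this
    rw [Nat.card_Icc] at h4
    exact_mod_cast (by omega)
  have h4 := hcnt X g1
  have h5 : (Q₀ : ℝ) ≤ ε₁ / 2 * X := by
    rw [div_lt_iff₀ hε₁] at hX₁
    nlinarith
  have h6 : ε₀ * X ≤ ε₁ / 2 * X := by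
    have : ε₀ ≤ ε₁ / 2 := min_le_left _ _
    gcongr
  linarith

end Pool.Agent.H82.BC
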