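import Pool.Agent.H82.BC.Struct

/-!
# The spectrum on a fibre, and the multipliers
-/

set_option autoImplicit false

namespace Pool.Agent.H82.BC

open Finset Pool.Agent.H82.BGK
open scoped Pointwise

/-- Parseval with coefficients -/
theorem pars {p : ℕ} [Fact p.Prime] (χ : AddChar (ZMod p) ℂ) (hχ : χ.IsPrimitive) {N : ℕ}
    (h : ZMod p) (hN : N ≤ orderOf h) (a : ℕ → ℂ) (ha : ∀ i, ‖a i‖ = 1) :
    ∑ η : ZMod p, ‖∑ i ∈ range N, a i * χ (η * h ^ i)‖ ^ 2 = p * N := by
  classical
  have h1 : ((∑ η : ZMod p, ‖∑ i ∈ range N, a i * χ (η * h ^ i)‖ ^ 2 : ℝ) : ℂ) =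
      ((p * N : ℝ) : ℂ) := by
    push_cast
    have h2 : ∀ η : ZMod p, ((‖∑ i ∈ range N, a i * χ (η * h ^ i)‖ : ℂ)) ^ 2 =
        ∑ i ∈ range N, ∑ j ∈ range N, a i * (starRingEnd ℂ) (a j) *
          χ (η * (h ^ i - h ^ j)) := by
      intro η
      have h7 : ((‖∑ i ∈ range N, a i * χ (η * h ^ i)‖ : ℂ)) ^ 2 =
          (∑ i ∈ range N, a i * χ (η * h ^ i)) *
            (starRingEnd ℂ) (∑ i ∈ range N, a i * χ (η * h ^ i)) := by
        rw [Complex.mul_conj, Complex.normSq_eq_norm_sq]
        push_cast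
        rfl
      rw [h7, map_sum, sum_mul_sum]
      refine sum_congr rfl fun i _ => sum_congr rfl fun j _ => ?_
      rw [map_mul (starRingEnd ℂ), ← AddChar.map_neg_eq_conj]
      have h8 : η * (h ^ i - h ^ j) = η * h ^ i + -(η * h ^ j) := by ring
      rw [h8, AddChar.map_add_eq_mul]
      ring
    rw [sum_congr rfl fun η _ => h2 η, sum_comm]
    have h3 : ∀ i ∈ range N, ∑ η : ZMod p, ∑ j ∈ range N, a i * (starRingEnd ℂ) (a j) *
          χ (η * (h ^ i - h ^ j)) = (p : ℂ) := by
      intro i hi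
      rw [sum_comm, sum_eq_single i]
      · rw [← mul_sum]
        have e1 : ∀ η : ZMod p, χ (η * (h ^ i - h ^ i)) = 1 := by
          intro η
          rw [sub_self, mul_zero, AddChar.map_zero_eq_one]
        rw [sum_congr rfl fun η _ => e1 η, sum_const, card_univ, ZMod.card, nsmul_eq_mul, mul_one,
          Complex.mul_conj, Complex.normSq_eq_norm_sq, ha]
        simp
      · intro j hj hne
        rw [← mul_sum, AddChar.sum_mulShift _ hχ, if_neg, Nat.cast_zero, mul_zero]
        intro h0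
        apply hne
        rw [mem_range] at hi hj
        refine (Pool.Agent.Y943.Fu.inj_pow h ?_ ?_ (sub_eq_zero.1 h0)).symm
        · rw [coe_range, Set.mem_Iio]; omega
        · rw [coe_range, Set.mem_Iio]; omega
      · intro h0
        exact absurd hi h0
    rw [sum_congr rfl h3, sum_const, card_range, nsmul_eq_mul, mul_comm]
  exact_mod_cast h1

section

variable {q : ℕ} [NeZero q] {P : Finset ℕ} {p : ℕ} {e : ZMod q}

/-- **the spectrum on a fibre** -/
theorem card_fibre_le (hP : ∀ p ∈ P, p.Prime) (hq : q = ∏ p ∈ P, p) (hp : p ∈ P)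
    (he : Idem P q p e) {g : ZMod q} {N : ℕ} (hN : N ≤ orderOf (pr q p g)) (hN0 : 0 < N) {t : ℝ}
    (ht : 0 < t) (z : ZMod q) :
    ((((Sp g N t).filter fun a => (1 - e) * a = z).card : ℕ) : ℝ) * (N * t ^ 2) ≤ p := by
  classical
  have hpp := Fact.mk (hP p hp)
  have hdvd : p ∣ q := hq ▸ dvd_prod_of_mem (fun p => p) hp
  -- the character of the prime field
  let χ : AddChar (ZMod p) ℂ :=
    { toFun := fun η => ZMod.stdAddChar (N := q) (e * ((η.val : ℕ) : ZMod q))
      map_zero_eq_one' := by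
        rw [ZMod.val_zero, Nat.cast_zero, mul_zero, AddChar.map_zero_eq_one]
      map_add_eq_mul' := by
        intro x y
        rw [← AddChar.map_add_eq_mul, ← mul_add]
        congr 1
        refine he.ext hP hq hp ?_
        rw [pr_add hdvd, pr_surj hdvd, pr_surj hdvd, pr_surj hdvd] }
  have hχ1 : ∀ η : ZMod p, χ η = ZMod.stdAddChar (N := q) (e * ((η.val : ℕ) : ZMod q)) :=
    fun η => rfl
  have hχ : χ.IsPrimitive := by
    apply AddChar.IsPrimitive.of_ne_one
    intro h1
    have h2 : χ 1 = 1 := by rw [h1]; rfl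
    rw [hχ1] at h2
    have h3 : e * (((1 : ZMod p).val : ℕ) : ZMod q) = 0 := by
      have h4 : ZMod.stdAddChar (N := q) (e * (((1 : ZMod p).val : ℕ) : ZMod q)) =
          ZMod.stdAddChar (N := q) 0 := by rw [h2, AddChar.map_zero_eq_one]
      exact ZMod.injective_stdAddChar h4
    have h5 := congrArg (pr q p) h3
    rw [pr_mul hdvd, pr_surj hdvd, he.one, pr_zero hdvd, one_mul] at h5
    exact one_ne_zero h5
  set h := pr q p g with hh
  set a : ℕ → ℂ := fun i => ZMod.stdAddChar (N := q) (z * g ^ i) with ha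
  have ha1 : ∀ i, ‖a i‖ = 1 := fun i => AddChar.norm_apply _ _
  have hpars := pars χ hχ h hN a ha1
  -- the fibre
  set S := (Sp g N t).filter fun a => (1 - e) * a = z with hS
  have h1 : ∀ ξ ∈ S, Fs g N ξ = ∑ i ∈ range N, a i * χ (pr q p ξ * h ^ i) := by
    intro ξ hξ
    rw [hS, mem_filter] at hξ
    unfold Fs
    refine sum_congr rfl fun i _ => ?_
    rw [ha, hχ1]
    simp only
    rw [← AddChar.map_add_eq_mul]
    congr 1
    have e1 : e * (((pr q p ξ * h ^ i).val : ℕ) : ZMod q) = e * (ξ * g ^ i) := by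
      refine he.ext hP hq hp ?_
      rw [pr_surj hdvd, pr_mul hdvd, pr_pow hdvd]
    rw [e1, ← hξ.2]
    ring
  have hinj : Set.InjOn (pr q p) (S : Set (ZMod q)) := by
    intro x hx y hy hxy
    rw [mem_coe, hS, mem_filter] at hx hy
    have e1 : e * x = e * y := he.ext hP hq hp hxy
    have e2 : (1 - e) * x = (1 - e) * y := hx.2.trans hy.2.symm
    linear_combination e1 + e2
  have h2 : ∑ ξ ∈ S, (t * N) ^ 2 ≤ ∑ ξ ∈ S, ‖∑ i ∈ range N, a i * χ (pr q p ξ * h ^ i)‖ ^ 2 := by
    refine sum_le_sum fun ξ hξ => ?_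
    rw [← h1 ξ hξ]
    have h3 : ξ ∈ Sp g N t := (mem_filter.1 hξ).1
    rw [mem_Sp] at h3
    gcongr
  have h3 : ∑ ξ ∈ S, ‖∑ i ∈ range N, a i * χ (pr q p ξ * h ^ i)‖ ^ 2 ≤
      ∑ η : ZMod p, ‖∑ i ∈ range N, a i * χ (η * h ^ i)‖ ^ 2 := by
    rw [← sum_image (f := fun η => ‖∑ i ∈ range N, a i * χ (η * h ^ i)‖ ^ 2) hinj]
    exact sum_le_sum_of_subset_of_nonneg (subset_univ _) fun _ _ _ => by positivity
  have h4 := h2.trans h3
  rw [hpars, sum_const, nsmul_eq_mul] at h4
  have hN' : (0 : ℝ) < N := by exact_mod_cast hN0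
  have h5 : (S.card * (N * t ^ 2)) * N ≤ p * N := by
    calc (S.card * (N * t ^ 2)) * N = S.card * (t * N) ^ 2 := by ring
      _ ≤ _ := h4
  exact le_of_mul_le_mul_right h5 hN'

/-- **the multipliers** -/
theorem multipliers' {g : ZMod q} (hg : IsUnit g) {n : ℕ} (hn : 0 < n)
    {A U : Finset (ZMod q)} (hA : A.Nonempty) {K R : ℝ} (hK : 0 ≤ K) (hR : 0 < R)
    (hAK : ((A - A).card : ℝ) ≤ K * A.card) (hAU : ∀ j < n, ∀ x ∈ A, g ^ j * x ∈ U)
    (hU : (U.card : ℝ) ≤ R * A.card) :
    ∃ B : Finset (ZMod q), (∀ u ∈ B, Cv A (K ^ 2 * (2 * R)) u) ∧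
      ∀ p : ℕ, p.Prime → p ∣ q → n ≤ orderOf (pr q p g) →
        (n : ℝ) / (2 * R) ≤ (B.image (pr q p)).card := by
  classical
  have hA0 : (0 : ℝ) < A.card := by exact_mod_cast hA.card_pos
  obtain ⟨w, hw⟩ := hg.exists_right_inv
  have hwu : IsUnit w := IsUnit.of_mul_eq_one g (by rw [mul_comm]; exact hw)
  have hinj : ∀ u : ZMod q, IsUnit u → Function.Injective fun x => u * x := by
    intro u hu x y h
    exact hu.mul_left_cancel h
  obtain ⟨j₀, hj₀, h1⟩ := overlap hn (fun j => A.image fun x => g ^ j * x) U hA0 hR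
    (fun j _ => by rw [card_image_of_injective _ (hinj _ (hg.pow j))])
    (fun j hj x hx => by
      obtain ⟨y, hy, rfl⟩ := mem_image.1 hx
      exact hAU j (mem_range.1 hj) y hy) hU
  set Jg := (range n).filter fun j => (A.card : ℝ) / (2 * R) ≤
    (((A.image fun x => g ^ j * x) ∩ (A.image fun x => g ^ j₀ * x)).card : ℝ) with hJg
  have hgw : g ^ j₀ * w ^ j₀ = 1 := by rw [← mul_pow, hw, one_pow]
  have hg0 : IsUnit (g ^ j₀) := hg.pow j₀
  refine ⟨Jg.image fun j => g ^ j * w ^ j₀, ?_, ?_⟩
  · intro u hu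
    obtain ⟨j, hj, rfl⟩ := mem_image.1 hu
    rw [hJg, mem_filter] at hj
    set u := g ^ j * w ^ j₀ with hu
    apply cv_of hA
    set D := (A.image fun x => u * x) ∩ A with hD
    have h2 : ((A.image fun x => g ^ j * x) ∩ (A.image fun x => g ^ j₀ * x)).card = D.card := by
      have e1 : (A.image fun x => g ^ j * x) = (A.image fun x => u * x).image fun x => g ^ j₀ * x := by
        rw [image_image]
        refine image_congr fun x _ => ?_
        simp only [Function.comp]
        rw [hu]
        linear_combination (-(g ^ j * x)) * hgw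
      rw [e1, ← image_inter _ _ (hinj _ hg0), card_image_of_injective _ (hinj _ hg0)]
    have h3 : (A.card : ℝ) / (2 * R) ≤ D.card := by
      have := hj.2
      rwa [h2] at this
    have h4 := ruzsa_triangle_inequality_sub_sub_sub (A.image fun x => u * x) D A
    have h5 : ((A.image fun x => u * x) - D).card ≤ (A - A).card := by
      have e1 : (A.image fun x => u * x) - D ⊆ (A - A).image fun x => u * x := by
        refine (sub_subset_sub_left inter_subset_left).trans ?_
        intro z hz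
        obtain ⟨a, ha, b, hb, rfl⟩ := mem_sub.1 hz
        obtain ⟨a', ha', rfl⟩ := mem_image.1 ha
        obtain ⟨b', hb', rfl⟩ := mem_image.1 hb
        exact mem_image.2 ⟨a' - b', sub_mem_sub ha' hb', by ring⟩
      exact (card_le_card e1).trans card_image_le
    have h6 : (A - D).card ≤ (A - A).card := card_le_card (sub_subset_sub_left inter_subset_right)
    have h7 : ((((A.image fun x => u * x) - A).card : ℝ)) * D.card ≤ (K * A.card) * (K * A.card) := by
      calc ((((A.image fun x => u * x) - A).card : ℝ)) * D.card ≤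
          (((A.image fun x => u * x) - D).card : ℝ) * (A - D).card := by exact_mod_cast h4
        _ ≤ ((A - A).card : ℝ) * (A - A).card := by gcongr
        _ ≤ _ := by gcongr
    have h8 : ((((A.image fun x => u * x) - A).card : ℝ)) * (A.card / (2 * R)) ≤
        (K * A.card) * (K * A.card) := by
      refine le_trans ?_ h7
      gcongr
    have h9 : ((((A.image fun x => u * x) - A).card : ℝ)) * (A.card / (2 * R)) ≤
        (K ^ 2 * (2 * R) * A.card) * (A.card / (2 * R)) := by
      refine h8.trans (le_of_eq ?_)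
      field_simp
    exact le_of_mul_le_mul_right h9 (by positivity)
  · intro p hp hpq hno
    have := Fact.mk hp
    have h2 : Jg.card ≤ ((Jg.image fun j => g ^ j * w ^ j₀).image (pr q p)).card := by
      rw [image_image, card_image_of_injOn]
      intro i hi j hj h
      rw [mem_coe, hJg, mem_filter, mem_range] at hi hj
      simp only [Function.comp] at h
      rw [pr_mul hpq, pr_mul hpq, pr_pow hpq, pr_pow hpq, pr_pow hpq] at h
      have hw0 : pr q p w ≠ 0 := by
        intro h0
        have := congrArg (pr q p) hw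
        rw [pr_mul hpq, h0, mul_zero, pr_one hpq] at this
        exact zero_ne_one this
      have h2 := mul_right_cancel₀ (pow_ne_zero j₀ hw0) h
      refine Pool.Agent.Y943.Fu.inj_pow (pr q p g) ?_ ?_ h2
      · rw [coe_range, Set.mem_Iio]; omega
      · rw [coe_range, Set.mem_Iio]; omega
    exact h1.trans (by exact_mod_cast h2)

end

end Pool.Agent.H82.BC
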