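import Pool.Agent.H82.BGK.Iter

/-!
# Filtered systems of multipliers
-/

set_option autoImplicit false

namespace Pool.Agent.H82.BC

open Finset Pool.Agent.H82.BGK
open scoped Pointwise

/-- an increasing sequence of sets, closed under the ring operations up to a step -/
structure Fil {R : Type*} [CommRing R] (T : ℕ → Set R) : Prop where
  mono : ∀ j x, x ∈ T j → x ∈ T (j + 1)
  zero : (0 : R) ∈ T 0
  one : (1 : R) ∈ T 0
  add : ∀ j x y, x ∈ T j → y ∈ T j → x + y ∈ T (j + 1)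
  sub : ∀ j x y, x ∈ T j → y ∈ T j → x - y ∈ T (j + 1)
  mul : ∀ j x y, x ∈ T j → y ∈ T j → x * y ∈ T (j + 1)

variable {R : Type*} [CommRing R]

theorem Fil.mono' {T : ℕ → Set R} (hT : Fil T) {i j : ℕ} (h : i ≤ j) {x : R} (hx : x ∈ T i) :
    x ∈ T j := by
  induction j, h using Nat.le_induction with
  | base => exact hx
  | succ j _ ih => exact hT.mono j x ih

theorem Fil.image {S : Type*} [CommRing S] {T : ℕ → Set R} (hT : Fil T) (f : R →+* S) :
    Fil fun j => f '' T j where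
  mono := by
    rintro j _ ⟨x, hx, rfl⟩
    exact ⟨x, hT.mono j x hx, rfl⟩
  zero := ⟨0, hT.zero, map_zero f⟩
  one := ⟨1, hT.one, map_one f⟩
  add := by
    rintro j _ _ ⟨x, hx, rfl⟩ ⟨y, hy, rfl⟩
    exact ⟨x + y, hT.add j x y hx hy, map_add f x y⟩
  sub := by
    rintro j _ _ ⟨x, hx, rfl⟩ ⟨y, hy, rfl⟩
    exact ⟨x - y, hT.sub j x y hx hy, map_sub f x y⟩
  mul := by
    rintro j _ _ ⟨x, hx, rfl⟩ ⟨y, hy, rfl⟩
    exact ⟨x * y, hT.mul j x y hx hy, map_mul f x y⟩

theorem Fil.prod {T : ℕ → Set R} (hT : Fil T) {ι : Type*} (I : Finset ι) (g : ι → R) (j : ℕ)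
    (h : ∀ i ∈ I, g i ∈ T j) : ∏ i ∈ I, g i ∈ T (j + I.card) := by
  classical
  induction I using Finset.induction_on with
  | empty => simpa using hT.mono' (Nat.zero_le j) hT.one
  | insert a I ha ih =>
    rw [prod_insert ha, card_insert_of_notMem ha, ← add_assoc]
    exact hT.mul _ _ _ (hT.mono' (Nat.le_add_right _ _) (h a (mem_insert_self _ _)))
      (ih fun i hi => h i (mem_insert_of_mem hi))

theorem Fil.sum {T : ℕ → Set R} (hT : Fil T) {ι : Type*} (I : Finset ι) (g : ι → R) (j : ℕ)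
    (h : ∀ i ∈ I, g i ∈ T j) : ∑ i ∈ I, g i ∈ T (j + I.card) := by
  classical
  induction I using Finset.induction_on with
  | empty => simpa using hT.mono' (Nat.zero_le j) hT.zero
  | insert a I ha ih =>
    rw [sum_insert ha, card_insert_of_notMem ha, ← add_assoc]
    exact hT.add _ _ _ (hT.mono' (Nat.le_add_right _ _) (h a (mem_insert_self _ _)))
      (ih fun i hi => h i (mem_insert_of_mem hi))

/-- the multipliers of a set with small doubling -/
theorem fil_cv [DecidableEq R] {A : Finset R} (hA : A.Nonempty) {W : ℝ} (hW : 1 ≤ W)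
    (hDb : Db A W) : Fil fun j : ℕ => {u : R | Cv A (W ^ 4 ^ j) u} := by
  have hpow : ∀ j : ℕ, 1 ≤ 4 ^ j := fun j => Nat.one_le_pow _ _ (by norm_num)
  have h1 : ∀ j : ℕ, W ^ 4 ^ j * W ^ 4 ^ j * W ≤ W ^ 4 ^ (j + 1) := by
    intro j
    calc W ^ 4 ^ j * W ^ 4 ^ j * W = W ^ (4 ^ j + 4 ^ j + 1) := by rw [pow_add, pow_add, pow_one]
      _ ≤ W ^ 4 ^ (j + 1) := by
        apply pow_le_pow_right₀ hW
        have := hpow j
        rw [pow_succ]
        omega
  have h2 : ∀ j : ℕ, (W ^ 4 ^ j) ^ 2 * W ^ 4 ^ j * W ≤ W ^ 4 ^ (j + 1) := by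
    intro j
    calc (W ^ 4 ^ j) ^ 2 * W ^ 4 ^ j * W = W ^ (4 ^ j * 2 + 4 ^ j + 1) := by
          rw [← pow_mul, pow_add, pow_add, pow_one]
      _ ≤ W ^ 4 ^ (j + 1) := by
        apply pow_le_pow_right₀ hW
        have := hpow j
        rw [pow_succ]
        omega
  refine ⟨?_, ?_, ?_, ?_, ?_, ?_⟩
  · intro j x hx
    refine Cv.mono ?_ hx
    apply pow_le_pow_right₀ hW
    exact Nat.pow_le_pow_right (by norm_num) (Nat.le_succ j)
  · refine ⟨{0}, ?_, fun a ha => ⟨0, mem_singleton_self _, a, ha, a, ha, by ring⟩⟩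
    simpa using hW
  · obtain ⟨a0, ha0⟩ := hA
    refine ⟨{a0}, ?_, fun a ha => ⟨a0, mem_singleton_self _, a, ha, a0, ha0, by ring⟩⟩
    simpa using hW
  · intro j x y hx hy
    exact (Cv.add hDb hx hy).mono (h1 j)
  · intro j x y hx hy
    exact (Cv.sub hDb hx hy).mono (h1 j)
  · intro j x y hx hy
    exact (Cv.mul hDb hx hy).mono (h2 j)

section

variable {p : ℕ} [Fact p.Prime]

/-- growth in a prime field -/
theorem Fil.grow {T : ℕ → Set (ZMod p)} (hT : Fil T) (hp : 4 ≤ p) {s : ℝ} (hs : 1 ≤ s)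
    {B : Finset (ZMod p)} (hB : 2 * s ≤ B.card) (hBT : ∀ u ∈ B, u ∈ T 0) (i : ℕ) :
    ∃ B' : Finset (ZMod p), min (2 * s ^ 2 ^ i) ((p : ℝ) / 2) ≤ B'.card ∧
      ∀ u ∈ B', u ∈ T (4 * i) := by
  have hp' : (4 : ℝ) ≤ p := by exact_mod_cast hp
  induction i with
  | zero =>
    refine ⟨B, ?_, ?_⟩
    · simp only [pow_zero, pow_one]
      exact (min_le_left _ _).trans hB
    · simpa using hBT
  | succ i ih =>
    obtain ⟨B₁, h1, h2⟩ := ih
    have hs2 : 1 ≤ s ^ 2 ^ i := one_le_pow₀ hs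
    have h3 : (2 : ℝ) ≤ B₁.card := by
      refine le_trans (le_min ?_ ?_) h1
      · linarith
      · linarith
    have h3' : 2 ≤ B₁.card := by exact_mod_cast h3
    obtain ⟨b1, hb1, b2, hb2, b3, hb3, b4, hb4, d, hd, h4⟩ := growth h3'
    have h4' : min ((B₁.card : ℝ) ^ 2) p ≤ 2 * ((B₁ ×ˢ B₁).image fun w =>
        (b3 - b4) * w.1 + d * w.2).card := by exact_mod_cast h4
    refine ⟨(B₁ ×ˢ B₁).image fun w => (b3 - b4) * w.1 + d * w.2, ?_, fun u hu => ?_⟩
    · have h6 : 2 * min (2 * s ^ 2 ^ (i + 1)) ((p : ℝ) / 2) ≤ min ((B₁.card : ℝ) ^ 2) p := by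
        rcases le_total (2 * s ^ 2 ^ i) ((p : ℝ) / 2) with h | h
        · rw [min_eq_left h] at h1
          refine le_min ?_ ?_
          · have h7 : s ^ 2 ^ (i + 1) = (s ^ 2 ^ i) ^ 2 := by
              rw [← pow_mul, pow_succ]
            have h8 := min_le_left (2 * s ^ 2 ^ (i + 1)) ((p : ℝ) / 2)
            rw [h7] at h8 ⊢
            have h9 : (2 * s ^ 2 ^ i) ^ 2 ≤ (B₁.card : ℝ) ^ 2 := by gcongr
            nlinarith
          · have h8 := min_le_right (2 * s ^ 2 ^ (i + 1)) ((p : ℝ) / 2)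
            linarith
        · rw [min_eq_right h] at h1
          have h8 := min_le_right (2 * s ^ 2 ^ (i + 1)) ((p : ℝ) / 2)
          refine le_min ?_ ?_
          · have h9 : ((p : ℝ) / 2) ^ 2 ≤ (B₁.card : ℝ) ^ 2 := by gcongr
            nlinarith
          · linarith
      linarith
    · obtain ⟨w, hw, rfl⟩ := mem_image.1 hu
      rw [mem_product] at hw
      have e34 := hT.sub _ _ _ (h2 _ hb3) (h2 _ hb4)
      have e12 := hT.sub _ _ _ (h2 _ hb1) (h2 _ hb2)
      have ed : d ∈ T (4 * i + 1 + 1) := by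
        rcases hd with h | h
        · rw [h]; exact hT.mono _ _ e12
        · rw [h]; exact hT.add _ _ _ e12 e34
      have e1 := hT.mul _ _ _ e34 (hT.mono _ _ (h2 _ hw.1))
      have e2 := hT.mul _ _ _ ed (hT.mono _ _ (hT.mono _ _ (h2 _ hw.2)))
      exact hT.add _ _ _ (hT.mono _ _ e1) e2

/-- everything in a prime field -/
theorem Fil.full {T : ℕ → Set (ZMod p)} (hT : Fil T) (hp : 4 ≤ p) {s : ℝ} (hs : 1 ≤ s)
    {B : Finset (ZMod p)} (hB : 2 * s ≤ B.card) (hBT : ∀ u ∈ B, u ∈ T 0) (i : ℕ)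
    (hi : (p : ℝ) ≤ s ^ 2 ^ i) (x : ZMod p) : x ∈ T (4 * i + 1) := by
  classical
  have hp' : (4 : ℝ) ≤ p := by exact_mod_cast hp
  obtain ⟨B', h1, h2⟩ := hT.grow hp hs hB hBT i
  have h3 : (p : ℝ) / 2 ≤ B'.card := by
    refine le_trans (le_min ?_ le_rfl) h1
    linarith
  have h4 : p ≤ 2 * B'.card := by
    have : (p : ℝ) ≤ 2 * B'.card := by linarith
    exact_mod_cast this
  have h5 : p ≠ 2 * B'.card := by
    intro h
    have h6 : 2 ∣ p := ⟨_, h⟩
    have h7 := (Nat.prime_dvd_prime_iff_eq Nat.prime_two (Fact.out : p.Prime)).1 h6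
    omega
  have h6 : ¬ Disjoint B' (B'.image fun y => x - y) := by
    intro hd
    have e1 := card_union_of_disjoint hd
    have e2 : (B'.image fun y => x - y).card = B'.card :=
      card_image_of_injective _ (sub_right_injective (b := x))
    have e3 : (B' ∪ B'.image fun y => x - y).card ≤ p := by
      calc _ ≤ (univ : Finset (ZMod p)).card := card_le_card (subset_univ _)
        _ = p := by rw [card_univ, ZMod.card]
    omega
  rw [not_disjoint_iff] at h6
  obtain ⟨y, hy1, hy2⟩ := h6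
  obtain ⟨z, hz, hzy⟩ := mem_image.1 hy2
  have h7 := hT.add _ _ _ (h2 y hy1) (h2 z hz)
  have h8 : y + z = x := by rw [← hzy]; ring
  rwa [h8] at h7

end

end Pool.Agent.H82.BC
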