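import Pool.Agent.H82.BC.Main
import Pool.Agent.Y943.Fu.Dense2

/-!
# The smooth part of almost all integers
-/

set_option autoImplicit false

namespace Pool.Agent.H82.BC

open Finset Filter Topology Pool.Agent.Y943.Fu

/-- a weak form of the first theorem of Mertens -/
theorem sum_log_div (Y : ℕ) (hY : 1 ≤ Y) :
    ∑ p ∈ (Icc 1 Y).filter Nat.Prime, Real.log p / p ≤ 2 * Real.log Y := by
  have hY0 : (0 : ℝ) < Y := by exact_mod_cast hY
  -- the sum of `log p` over the pairs `p ∣ n`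
  have h1 : ∑ p ∈ (Icc 1 Y).filter Nat.Prime, Real.log p * ((Y / p : ℕ) : ℝ) =
      ∑ n ∈ Icc 1 Y, ∑ p ∈ n.primeFactors, Real.log p := by
    have e1 : ∀ n ∈ Icc 1 Y, ∑ p ∈ n.primeFactors, Real.log p =
        ∑ p ∈ (Icc 1 Y).filter Nat.Prime, if p ∣ n then Real.log p else 0 := by
      intro n hn
      rw [mem_Icc] at hn
      rw [← sum_filter]
      refine sum_congr ?_ fun _ _ => rfl
      ext p
      simp only [Nat.mem_primeFactors, mem_filter, mem_Icc]
      constructor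
      · rintro ⟨h1, h2, h3⟩
        exact ⟨⟨⟨h1.one_lt.le, (Nat.le_of_dvd (by omega) h2).trans hn.2⟩, h1⟩, h2⟩
      · rintro ⟨⟨_, h1⟩, h2⟩
        exact ⟨h1, h2, by omega⟩
    rw [sum_congr rfl e1, sum_comm]
    refine sum_congr rfl fun p _ => ?_
    rw [← sum_filter, sum_const, nsmul_eq_mul, mul_comm]
    congr 2
    have := Nat.Ioc_filter_dvd_card_eq_div Y p
    rw [← this]
    congr 1
  have h2 : ∀ n ∈ Icc 1 Y, ∑ p ∈ n.primeFactors, Real.log p ≤ Real.log Y := by
    intro n hn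
    rw [mem_Icc] at hn
    rw [← Real.log_prod (fun p hp => by
      have := (Nat.prime_of_mem_primeFactors hp).pos
      positivity)]
    have h3 : ∏ p ∈ n.primeFactors, p ≤ Y :=
      (Nat.le_of_dvd (by omega) (Nat.prod_primeFactors_dvd n)).trans hn.2
    refine Real.log_le_log (prod_pos fun p hp => ?_) ?_
    · have := (Nat.prime_of_mem_primeFactors hp).pos
      exact_mod_cast this
    · rw [← Nat.cast_prod]
      exact_mod_cast h3
  have h3 : ∑ p ∈ (Icc 1 Y).filter Nat.Prime, Real.log p * ((Y / p : ℕ) : ℝ) ≤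
      Y * Real.log Y := by
    rw [h1]
    refine (sum_le_sum h2).trans ?_
    rw [sum_const, Nat.card_Icc, nsmul_eq_mul]
    simp
  have h4 : ∑ p ∈ (Icc 1 Y).filter Nat.Prime, Real.log p / p * (Y / 2) ≤
      ∑ p ∈ (Icc 1 Y).filter Nat.Prime, Real.log p * ((Y / p : ℕ) : ℝ) := by
    refine sum_le_sum fun p hp => ?_
    rw [mem_filter, mem_Icc] at hp
    have hp0 : 0 < p := hp.2.pos
    have hp0' : (0 : ℝ) < p := by exact_mod_cast hp0
    have hlog : 0 ≤ Real.log p := Real.log_natCast_nonneg p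
    have h5 : (Y : ℝ) / p / 2 ≤ ((Y / p : ℕ) : ℝ) := by
      have e1 : 1 ≤ Y / p := Nat.div_pos hp.1.2 hp0
      have e2 : Y < p * (Y / p + 1) := Nat.lt_mul_div_succ Y hp0
      have e3 : Y ≤ p * (2 * (Y / p)) := by
        refine e2.le.trans ?_
        gcongr
        omega
      have e4 : (Y : ℝ) ≤ p * (2 * ((Y / p : ℕ) : ℝ)) := by exact_mod_cast e3
      rw [div_div, div_le_iff₀ (by positivity)]
      linarith
    calc Real.log p / p * (Y / 2) = Real.log p * ((Y : ℝ) / p / 2) := by ring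
      _ ≤ _ := by gcongr
  rw [← sum_mul] at h4
  have h5 := h4.trans h3
  have h6 : (∑ p ∈ (Icc 1 Y).filter Nat.Prime, Real.log p / p) * (Y / 2) ≤
      (2 * Real.log Y) * (Y / 2) := by linarith
  exact le_of_mul_le_mul_right h6 (by positivity)

/-- the sum of `log p` over the prime factors `p ≤ Y` -/
noncomputable def sl (Y q : ℕ) : ℝ := ∑ p ∈ q.primeFactors.filter (fun p => p ≤ Y), Real.log p

theorem sum_sl (X Y : ℕ) (hY : 1 ≤ Y) : ∑ q ∈ Icc 1 X, sl Y q ≤ 2 * Real.log Y * X := by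
  have e1 : ∀ q ∈ Icc 1 X, sl Y q =
      ∑ p ∈ (Icc 1 Y).filter Nat.Prime, if p ∣ q then Real.log p else 0 := by
    intro q hq
    rw [mem_Icc] at hq
    rw [← sum_filter]
    unfold sl
    refine sum_congr ?_ fun _ _ => rfl
    ext p
    simp only [Nat.mem_primeFactors, mem_filter, mem_Icc]
    constructor
    · rintro ⟨⟨h1, h2, h3⟩, h4⟩
      exact ⟨⟨⟨h1.one_lt.le, h4⟩, h1⟩, h2⟩
    · rintro ⟨⟨h1, h2⟩, h3⟩
      exact ⟨⟨h2, h3, by omega⟩, h1.2⟩
  rw [sum_congr rfl e1, sum_comm]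
  have h2 : ∀ p ∈ (Icc 1 Y).filter Nat.Prime, ∑ q ∈ Icc 1 X, (if p ∣ q then Real.log p else 0) ≤
      Real.log p / p * X := by
    intro p hp
    have := cnt_dvd X p
    rw [cnt_eq] at this
    rw [← sum_filter, sum_const, nsmul_eq_mul]
    have hlog : 0 ≤ Real.log p := Real.log_natCast_nonneg p
    calc (((Icc 1 X).filter fun q => p ∣ q).card : ℝ) * Real.log p ≤ X / p * Real.log p := by gcongr
      _ = _ := by ring
  refine (sum_le_sum h2).trans ?_
  rw [← sum_mul]
  have := sum_log_div Y hY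
  gcongr

theorem cnt_smooth (X Y : ℕ) (hY : 1 ≤ Y) {T : ℝ} (hT : 0 < T) :
    cnt X (fun q => T < sl Y q) ≤ 2 * Real.log Y / T * X := by
  classical
  rw [cnt_eq]
  have h0 : ∀ q, 0 ≤ sl Y q := fun q => sum_nonneg fun p _ => Real.log_natCast_nonneg p
  have h1 : (((Icc 1 X).filter (fun q => T < sl Y q)).card : ℝ) * T ≤ ∑ q ∈ Icc 1 X, sl Y q := by
    calc (((Icc 1 X).filter (fun q => T < sl Y q)).card : ℝ) * T =
        ∑ _q ∈ (Icc 1 X).filter (fun q => T < sl Y q), T := by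
          rw [sum_const, nsmul_eq_mul]
      _ ≤ ∑ q ∈ (Icc 1 X).filter (fun q => T < sl Y q), sl Y q :=
          sum_le_sum fun q hq => (mem_filter.1 hq).2.le
      _ ≤ ∑ q ∈ Icc 1 X, sl Y q :=
          sum_le_sum_of_subset_of_nonneg (filter_subset _ _) fun _ _ _ => h0 _
  have h2 := h1.trans (sum_sl X Y hY)
  rw [div_mul_eq_mul_div, le_div_iff₀ hT]
  exact h2

end Pool.Agent.H82.BC
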