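import Pool.Agent.H82.BC.NT

/-!
# Dense orbits of fractions with few large prime factors
-/

set_option autoImplicit false

namespace Pool.Agent.H82.BC

open Finset Filter Topology Pool.Agent.Y943.Fu Pool.Agent.H332R2.Lit

/-- the exponential sum along the orbit of a fraction -/
theorem orbit_sum' {b s r D n₀ h t : ℕ} (hb : 1 ≤ b) [hs : NeZero s] (hr : 1 ≤ r)
    (hpr : Nat.Coprime r s) (hdvd : r ∣ b ^ n₀ * (b ^ D - 1)) (c : ℤ) :
    ‖∑ l ∈ range t, e ((h : ℝ) * ((b : ℝ) ^ (n₀ + D * l) * (c / ((s * r : ℕ) : ℝ))))‖ =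
      ‖∑ l ∈ range t, ZMod.stdAddChar (N := s)
        ((h : ZMod s) * c * (b : ZMod s) ^ n₀ * (r : ZMod s)⁻¹ * ((b : ZMod s) ^ D) ^ l)‖ := by
  have hp0 : (0 : ℝ) < s := by exact_mod_cast Nat.pos_of_ne_zero hs.out
  have hr0 : (0 : ℝ) < r := by exact_mod_cast hr
  have hrr : (r : ZMod s) * (r : ZMod s)⁻¹ = 1 := ZMod.coe_mul_inv_eq_one r hpr
  -- the integers `u l`
  have hu : ∀ l : ℕ, ∃ u : ℤ, (b : ℤ) ^ n₀ * ((b : ℤ) ^ (D * l) - 1) = r * u := by
    intro l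
    have h1 : r ∣ b ^ n₀ * (b ^ (D * l) - 1) := by
      refine hdvd.trans (Nat.mul_dvd_mul_left _ ?_)
      have := Nat.sub_dvd_pow_sub_pow (b ^ D) 1 l
      rwa [one_pow, ← pow_mul] at this
    obtain ⟨u, hu⟩ := h1
    refine ⟨u, ?_⟩
    have h2 : ((b ^ n₀ * (b ^ (D * l) - 1) : ℕ) : ℤ) = ((r * u : ℕ) : ℤ) := by rw [hu]
    rw [Nat.cast_mul, Nat.cast_sub (Nat.one_le_pow _ _ hb)] at h2
    push_cast at h2
    exact h2
  choose u hu using hu
  have hterm : ∀ l ∈ range t, e ((h : ℝ) * ((b : ℝ) ^ (n₀ + D * l) * (c / ((s * r : ℕ) : ℝ)))) =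
      (e ((h : ℝ) * ((b : ℝ) ^ n₀ * (c / ((s * r : ℕ) : ℝ)))) *
        ZMod.stdAddChar (N := s) (-((h : ZMod s) * c * (b : ZMod s) ^ n₀ * (r : ZMod s)⁻¹))) *
      ZMod.stdAddChar (N := s)
        ((h : ZMod s) * c * (b : ZMod s) ^ n₀ * (r : ZMod s)⁻¹ * ((b : ZMod s) ^ D) ^ l) := by
    intro l _
    have h1 : (h : ℝ) * ((b : ℝ) ^ (n₀ + D * l) * (c / ((s * r : ℕ) : ℝ))) =
        (h : ℝ) * ((b : ℝ) ^ n₀ * (c / ((s * r : ℕ) : ℝ))) + ((h * c * u l : ℤ) : ℝ) / s := by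
      have h2 : (b : ℝ) ^ n₀ * ((b : ℝ) ^ (D * l) - 1) = r * u l := by exact_mod_cast hu l
      have h3 : (b : ℝ) ^ (n₀ + D * l) = (b : ℝ) ^ n₀ + r * u l := by
        rw [← h2, pow_add]
        ring
      rw [h3]
      push_cast
      field_simp
    have h4 : ((h * c * u l : ℤ) : ZMod s) =
        -((h : ZMod s) * c * (b : ZMod s) ^ n₀ * (r : ZMod s)⁻¹) +
        (h : ZMod s) * c * (b : ZMod s) ^ n₀ * (r : ZMod s)⁻¹ * ((b : ZMod s) ^ D) ^ l := by
      have h5 : (b : ZMod s) ^ n₀ * ((b : ZMod s) ^ (D * l) - 1) = r * u l := by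
        have := congrArg (fun z : ℤ => (z : ZMod s)) (hu l)
        push_cast at this
        exact this
      have h6 : (u l : ZMod s) = (b : ZMod s) ^ n₀ * ((b : ZMod s) ^ (D * l) - 1) *
          (r : ZMod s)⁻¹ := by
        rw [h5, mul_comm (r : ZMod s), mul_assoc, hrr, mul_one]
      push_cast
      rw [h6, ← pow_mul]
      ring
    rw [h1, e_add', e_frac, h4, AddChar.map_add_eq_mul]
    ring
  rw [sum_congr rfl hterm, ← mul_sum, norm_mul, norm_mul, norm_e', AddChar.norm_apply, one_mul,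
    one_mul]

/-- the structure of the denominator: few large primes, and a part `m` modulo which `b` is
eventually periodic with a short period -/
def GG (b : ℕ) (ε β : ℝ) (k q : ℕ) : Prop := ∃ (P : Finset ℕ) (m D n₀ N : ℕ),
  (∀ p ∈ P, p.Prime) ∧ P.card ≤ k ∧ q = (∏ p ∈ P, p) * m ∧ 1 ≤ m ∧ Nat.Coprime m (∏ p ∈ P, p) ∧
  (q : ℝ) ^ β ≤ ((∏ p ∈ P, p : ℕ) : ℝ) ∧ m ∣ b ^ n₀ * (b ^ D - 1) ∧
  (∀ p ∈ P, N ≤ orderOf ((b : ZMod p) ^ D)) ∧ (q : ℝ) ^ β ≤ N ∧
  ((n₀ + D * N : ℕ) : ℝ) ≤ (q : ℝ) ^ ε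

/-- **dense orbits of fractions** -/
theorem dense_GG {b : ℕ} (hb : 2 ≤ b) {ε β κ : ℝ} (hβ : 0 < β) (k : ℕ) (hκ : 0 < κ) :
    ∃ Q₀ : ℕ, ∀ q : ℕ, Q₀ ≤ q → GG b ε β k q → ∀ c : ℤ, IsCoprime c q →
      ∀ y : ℝ, ∃ n : ℕ, (n : ℝ) ≤ (q : ℝ) ^ ε ∧ ∃ z : ℤ, |(b : ℝ) ^ n * (c / q) - y - z| < κ := by
  obtain ⟨K, η, hη, _, hdense⟩ := dense_of_sums κ hκ
  obtain ⟨δ, hδ, q₀, hbc⟩ := bc hβ k
  obtain ⟨Q₁, hQ₁⟩ := Pool.Agent.H82.BGK.ev_pow hβ ((max q₀ (K + 1) : ℕ) : ℝ)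
  obtain ⟨Q₂, hQ₂⟩ := Pool.Agent.H82.BGK.ev_pow (mul_pos hβ hδ) (1 / η)
  refine ⟨max (max Q₁ Q₂) 1, fun q hq hGG c hc y => ?_⟩
  obtain ⟨P, m, D, n₀, N, hP, hPk, hqm, hm, hcop, hbig, hdvd, hord, hN, hlen⟩ := hGG
  have g1 : Q₁ ≤ q := ((le_max_left _ _).trans (le_max_left _ _)).trans hq
  have g2 : Q₂ ≤ q := ((le_max_right _ _).trans (le_max_left _ _)).trans hq
  have g3 : 1 ≤ q := (le_max_right _ _).trans hq
  have hq1 : (1 : ℝ) ≤ q := by exact_mod_cast g3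
  have hq0 : (0 : ℝ) < q := by linarith
  set r : ℕ := ∏ p ∈ P, p with hr
  have hrq : r ≤ q := by
    rw [hqm]
    exact Nat.le_mul_of_pos_right _ hm
  have hr0 : 0 < r := prod_pos fun p hp => (hP p hp).pos
  have hNZ : NeZero r := ⟨hr0.ne'⟩
  have hr0' : (0 : ℝ) < r := by exact_mod_cast hr0
  have hrbig : max q₀ (K + 1) ≤ r := by
    have := (hQ₁ q g1).trans hbig
    exact_mod_cast this
  have hN0 : (0 : ℝ) < N := lt_of_lt_of_le (by positivity) hN
  have hN1 : 1 ≤ N := by exact_mod_cast hN0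
  have hrN : (r : ℝ) ^ β ≤ N := by
    refine le_trans ?_ hN
    have : (r : ℝ) ≤ q := by exact_mod_cast hrq
    gcongr
  have hdvdr : ∀ p ∈ P, p ∣ r := fun p hp => dvd_prod_of_mem (fun p => p) hp
  have hord' : ∀ p ∈ P, N ≤ orderOf (pr r p ((b : ZMod r) ^ D)) := by
    intro p hp
    rw [pr_pow (hdvdr p hp), pr_natCast (hdvdr p hp)]
    exact hord p hp
  -- units
  have hbu : IsUnit ((b : ZMod r) ^ D) := isUnit_of_pr hP rfl fun p hp => by
    have := Fact.mk (hP p hp)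
    have h1 := hord' p hp
    exact (order_lt (h := pr r p ((b : ZMod r) ^ D)) (by omega)).1
  have hbu' : IsUnit ((b : ZMod r) ^ n₀) := by
    rcases Nat.eq_zero_or_pos D with h0 | h0
    · -- then the order is one, which is too small
      have hne : ∀ p ∈ P, p ∣ b → False := by
        intro p hp hpb
        have := Fact.mk (hP p hp)
        have h1 := hord p hp
        rw [h0, pow_zero, orderOf_one] at h1
        have h2 : N = 1 := by omega
        have h3 := (hQ₁ q g1)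
        have h4 : ((max q₀ (K + 1) : ℕ) : ℝ) ≤ N := h3.trans hN
        rw [h2] at h4
        have h5 : max q₀ (K + 1) ≤ 1 := by exact_mod_cast h4
        have h6 : r ≤ q := hrq
        -- `r ≤ N ^ (1/β) = 1`
        have h7 : (r : ℝ) ^ β ≤ 1 := by
          rw [h2] at hrN
          exact_mod_cast hrN
        have h8 : (2 : ℝ) ≤ r := by
          have h9 : p ≤ r := Nat.le_of_dvd hr0 (hdvdr p hp)
          have h10 := (hP p hp).two_le
          exact_mod_cast h10.trans h9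
        have h9 : 1 < (r : ℝ) ^ β := Real.one_lt_rpow (by linarith) hβ
        linarith
      refine IsUnit.pow _ ?_
      refine isUnit_of_pr hP rfl fun p hp => ?_
      rw [pr_natCast (hdvdr p hp), ne_eq, ZMod.natCast_eq_zero_iff]
      exact fun h => hne p hp h
    · exact ((isUnit_pow_iff (by omega)).1 hbu).pow n₀
  have hcu : IsUnit ((c : ℤ) : ZMod r) := by
    rw [ZMod.coe_int_isUnit_iff_isCoprime]
    have h1 : (r : ℤ) ∣ (q : ℤ) := by
      rw [hqm]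
      push_cast
      exact dvd_mul_right _ _
    exact (hc.of_isCoprime_of_dvd_right h1).symm
  have hmu : IsUnit ((m : ZMod r)⁻¹) := by
    have h1 : (m : ZMod r) * (m : ZMod r)⁻¹ = 1 := ZMod.coe_mul_inv_eq_one m hcop
    exact IsUnit.of_mul_eq_one (m : ZMod r) (by rw [mul_comm]; exact h1)
  obtain ⟨l, hl, z, hz⟩ := hdense N
    (fun l => (b : ℝ) ^ (n₀ + D * l) * (c / ((r * m : ℕ) : ℝ))) hN1
    (fun h h1 h2 => by
      rw [orbit_sum' (by omega) hm hcop hdvd c]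
      have hh : (h : ZMod r) ≠ 0 := by
        rw [ne_eq, ZMod.natCast_eq_zero_iff]
        intro hd
        have := Nat.le_of_dvd h1 hd
        have := (le_max_right q₀ (K + 1)).trans hrbig
        omega
      have ha : (h : ZMod r) * c * (b : ZMod r) ^ n₀ * (m : ZMod r)⁻¹ ≠ 0 := by
        intro h0
        apply hh
        have h3 : IsUnit (((c : ℤ) : ZMod r) * (b : ZMod r) ^ n₀ * (m : ZMod r)⁻¹) :=
          (hcu.mul hbu').mul hmu
        have h4 : (h : ZMod r) * (((c : ℤ) : ZMod r) * (b : ZMod r) ^ n₀ * (m : ZMod r)⁻¹) = 0 := by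
          rw [← h0]
          ring
        exact (h3.mul_left_eq_zero).1 h4
      have h3 := hbc r P hP rfl hPk ((le_max_left _ _).trans hrbig) ((b : ZMod r) ^ D) N hord' hrN _ ha
      refine h3.trans ?_
      rw [mul_comm]
      have h4 : (r : ℝ) ^ (-δ) ≤ η := by
        have h5 := hQ₂ q g2
        have h6 : (q : ℝ) ^ (β * δ) ≤ (r : ℝ) ^ δ := by
          rw [Real.rpow_mul hq0.le]
          gcongr
        have h7 := h5.trans h6
        rw [Real.rpow_neg hr0'.le]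
        rw [div_le_iff₀ hη] at h7
        rw [inv_le_iff_one_le_mul₀ (by positivity)]
        linarith
      gcongr) y
  refine ⟨n₀ + D * l, ?_, z, ?_⟩
  · refine le_trans ?_ hlen
    have : n₀ + D * l ≤ n₀ + D * N := by gcongr
    exact_mod_cast this
  · rw [hqm]
    exact hz

end Pool.Agent.H82.BC
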