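import Pool.Agent.H82.BC.Fil

/-!
# Filtered systems in a product of prime fields
-/

set_option autoImplicit false

namespace Pool.Agent.H82.BC

open Finset Pool.Agent.H82.BGK

/-- the reduction modulo a divisor of `q` -/
def pr (q p : ℕ) (x : ZMod q) : ZMod p := ZMod.cast x

section

variable {q : ℕ} {p : ℕ}

theorem pr_eq (h : p ∣ q) (x : ZMod q) : pr q p x = ZMod.castHom h (ZMod p) x := rfl

theorem pr_add (h : p ∣ q) (x y : ZMod q) : pr q p (x + y) = pr q p x + pr q p y := by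
  rw [pr_eq h, pr_eq h, pr_eq h, map_add]

theorem pr_sub (h : p ∣ q) (x y : ZMod q) : pr q p (x - y) = pr q p x - pr q p y := by
  rw [pr_eq h, pr_eq h, pr_eq h, map_sub]

theorem pr_mul (h : p ∣ q) (x y : ZMod q) : pr q p (x * y) = pr q p x * pr q p y := by
  rw [pr_eq h, pr_eq h, pr_eq h, map_mul]

theorem pr_pow (h : p ∣ q) (x : ZMod q) (n : ℕ) : pr q p (x ^ n) = pr q p x ^ n := by
  rw [pr_eq h, pr_eq h, map_pow]

theorem pr_zero (h : p ∣ q) : pr q p 0 = 0 := by rw [pr_eq h, map_zero]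

theorem pr_one (h : p ∣ q) : pr q p 1 = 1 := by rw [pr_eq h, map_one]

theorem pr_natCast (h : p ∣ q) (n : ℕ) : pr q p n = n := by rw [pr_eq h, map_natCast]

theorem pr_intCast (h : p ∣ q) (n : ℤ) : pr q p n = n := by rw [pr_eq h, map_intCast]

theorem pr_prod (h : p ∣ q) {ι : Type*} (I : Finset ι) (g : ι → ZMod q) :
    pr q p (∏ i ∈ I, g i) = ∏ i ∈ I, pr q p (g i) := by
  simp only [pr_eq h, map_prod]

theorem pr_sum (h : p ∣ q) {ι : Type*} (I : Finset ι) (g : ι → ZMod q) :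
    pr q p (∑ i ∈ I, g i) = ∑ i ∈ I, pr q p (g i) := by
  simp only [pr_eq h, map_sum]

/-- an element is determined by its reductions -/
theorem ext_pr [NeZero q] {P : Finset ℕ} (hP : ∀ p ∈ P, p.Prime) (hq : q = ∏ p ∈ P, p)
    {x y : ZMod q} (h : ∀ p ∈ P, pr q p x = pr q p y) : x = y := by
  have hdvd : ∀ p ∈ P, p ∣ q := fun p hp => hq ▸ dvd_prod_of_mem (fun p => p) hp
  have h1 : ∀ p ∈ P, p ∣ (x - y).val := by
    intro p hp
    rw [← ZMod.natCast_eq_zero_iff, ← pr_natCast (hdvd p hp), ZMod.natCast_zmod_val,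
      pr_sub (hdvd p hp), h p hp, sub_self]
  have h2 : ∏ p ∈ P, p ∣ (x - y).val :=
    Finset.prod_primes_dvd _ (fun p hp => (hP p hp).prime) h1
  rw [← hq] at h2
  have h3 : (((x - y).val : ℕ) : ZMod q) = 0 := (ZMod.natCast_eq_zero_iff _ _).2 h2
  rw [ZMod.natCast_zmod_val] at h3
  exact sub_eq_zero.1 h3

end

section

variable {q : ℕ}

/-- an element separating two primes -/
theorem sep {T : ℕ → Set (ZMod q)} (hT : Fil T) {n p p' : ℕ} [hpp : Fact p.Prime]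
    [hpp' : Fact p'.Prime] (hne : p ≠ p') (hp : p ∣ q) (hp' : p' ∣ q)
    (h : ∀ y : ZMod p, ∃ x ∈ T n, pr q p x = y) (h' : ∀ y : ZMod p', ∃ x ∈ T n, pr q p' x = y) :
    ∃ e ∈ T (n + 5), pr q p e = 1 ∧ pr q p' e = 0 := by
  choose f hf1 hf2 using h
  by_cases hadd : ∀ x y : ZMod p, pr q p' (f x + f y - f (x + y)) = 0
  · -- the map is additive
    have h1 : ∀ x y : ZMod p, pr q p' (f (x + y)) = pr q p' (f x) + pr q p' (f y) := by
      intro x y
      have := hadd x y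
      rw [pr_sub hp', pr_add hp'] at this
      exact (sub_eq_zero.1 this).symm
    let φ : ZMod p →+ ZMod p' := AddMonoidHom.mk' (fun x => pr q p' (f x)) h1
    have h2 : (p : ZMod p') * φ 1 = 0 := by
      have e1 : φ (p • (1 : ZMod p)) = p • φ 1 := map_nsmul φ p 1
      have e2 : p • (1 : ZMod p) = 0 := by
        rw [nsmul_one]
        exact ZMod.natCast_self p
      rw [e2, map_zero, nsmul_eq_mul] at e1
      exact e1.symm
    have h3 : (p : ZMod p') ≠ 0 := by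
      rw [ne_eq, ZMod.natCast_eq_zero_iff]
      intro hd
      exact hne ((Nat.prime_dvd_prime_iff_eq hpp'.out hpp.out).1 hd).symm
    have h4 : φ 1 = 0 := (mul_eq_zero.1 h2).resolve_left h3
    exact ⟨f 1, hT.mono' (by omega) (hf1 1), hf2 1, h4⟩
  · push Not at hadd
    obtain ⟨x, y, hxy⟩ := hadd
    set z := f x + f y - f (x + y) with hz
    have hz1 : z ∈ T (n + 1 + 1) := hT.sub _ _ _ (hT.add _ _ _ (hf1 x) (hf1 y))
      (hT.mono _ _ (hf1 (x + y)))
    have hz2 : pr q p z = 0 := by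
      rw [hz, pr_sub hp, pr_add hp, hf2, hf2, hf2, sub_self]
    obtain ⟨v, hv1, hv2⟩ := h' (pr q p' z)⁻¹
    have hw1 : z * v ∈ T (n + 1 + 1 + 1) := hT.mul _ _ _ hz1 (hT.mono' (by omega) hv1)
    have hw2 : pr q p (z * v) = 0 := by rw [pr_mul hp, hz2, zero_mul]
    have hw3 : pr q p' (z * v) = 1 := by rw [pr_mul hp', hv2, mul_inv_cancel₀ hxy]
    have hu : f 1 * (z * v) ∈ T (n + 1 + 1 + 1 + 1) := hT.mul _ _ _ (hT.mono' (by omega) (hf1 1)) hw1
    refine ⟨f 1 - f 1 * (z * v), hT.sub _ _ _ (hT.mono' (by omega) (hf1 1)) hu, ?_, ?_⟩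
    · rw [pr_sub hp, pr_mul hp, hw2, hf2, mul_zero, sub_zero]
    · rw [pr_sub hp', pr_mul hp', hw3, mul_one, sub_self]

/-- the idempotents -/
theorem idem {T : ℕ → Set (ZMod q)} (hT : Fil T) {n : ℕ} {P : Finset ℕ} (hP : ∀ p ∈ P, p.Prime)
    (hq : q = ∏ p ∈ P, p) (h : ∀ p ∈ P, ∀ y : ZMod p, ∃ x ∈ T n, pr q p x = y) {p : ℕ}
    (hp : p ∈ P) : ∃ e ∈ T (n + 5 + P.card), pr q p e = 1 ∧ ∀ p' ∈ P, p' ≠ p → pr q p' e = 0 := by
  classical
  have hdvd : ∀ p ∈ P, p ∣ q := fun p hp => hq ▸ dvd_prod_of_mem (fun p => p) hp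
  have h1 : ∀ p' : ℕ, ∃ e : ZMod q, p' ∈ P.erase p →
      (e ∈ T (n + 5) ∧ pr q p e = 1 ∧ pr q p' e = 0) := by
    intro p'
    by_cases h2 : p' ∈ P.erase p
    · have h3 := mem_erase.1 h2
      haveI := Fact.mk (hP p hp)
      haveI := Fact.mk (hP p' h3.2)
      obtain ⟨e, he1, he2, he3⟩ := sep hT (n := n) (Ne.symm h3.1) (hdvd p hp) (hdvd p' h3.2) (h p hp)
        (h p' h3.2)
      exact ⟨e, fun _ => ⟨he1, he2, he3⟩⟩
    · exact ⟨0, fun h3 => absurd h3 h2⟩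
  choose e he using h1
  refine ⟨∏ p' ∈ P.erase p, e p', ?_, ?_, ?_⟩
  · refine hT.mono' ?_ (hT.prod (P.erase p) e (n + 5) fun p' hp' => (he p' hp').1)
    have := card_erase_le (s := P) (a := p)
    omega
  · rw [pr_prod (hdvd p hp)]
    exact prod_eq_one fun p' hp' => (he p' hp').2.1
  · intro p' hp' hne
    rw [pr_prod (hdvd p' hp')]
    exact prod_eq_zero (mem_erase.2 ⟨hne, hp'⟩) (he p' (mem_erase.2 ⟨hne, hp'⟩)).2.2

/-- **everything in a product of prime fields** -/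
theorem Fil.all [NeZero q] {T : ℕ → Set (ZMod q)} (hT : Fil T) {n : ℕ} {P : Finset ℕ}
    (hP : ∀ p ∈ P, p.Prime)
    (hq : q = ∏ p ∈ P, p) (h : ∀ p ∈ P, ∀ y : ZMod p, ∃ x ∈ T n, pr q p x = y) (x : ZMod q) :
    x ∈ T (n + 6 + 2 * P.card) := by
  classical
  have hdvd : ∀ p ∈ P, p ∣ q := fun p hp => hq ▸ dvd_prod_of_mem (fun p => p) hp
  have h1 : ∀ p : ℕ, ∃ e : ZMod q, p ∈ P →
      (e ∈ T (n + 5 + P.card) ∧ pr q p e = 1 ∧ ∀ p' ∈ P, p' ≠ p → pr q p' e = 0) := by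
    intro p
    by_cases hp : p ∈ P
    · obtain ⟨e, he⟩ := idem hT hP hq h hp
      exact ⟨e, fun _ => he⟩
    · exact ⟨0, fun h => absurd h hp⟩
  have h2 : ∀ p : ℕ, ∃ y : ZMod q, p ∈ P → (y ∈ T n ∧ pr q p y = pr q p x) := by
    intro p
    by_cases hp : p ∈ P
    · obtain ⟨y, hy⟩ := h p hp (pr q p x)
      exact ⟨y, fun _ => hy⟩
    · exact ⟨0, fun h => absurd h hp⟩
  choose e he using h1
  choose y hy using h2
  have h3 : x = ∑ p ∈ P, e p * y p := by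
    refine ext_pr hP hq fun p hp => ?_
    rw [pr_sum (hdvd p hp), sum_eq_single p]
    · rw [pr_mul (hdvd p hp), (he p hp).2.1, (hy p hp).2, one_mul]
    · intro p' hp' hne
      rw [pr_mul (hdvd p hp), (he p' hp').2.2 p hp (Ne.symm hne), zero_mul]
    · intro h4
      exact absurd hp h4
  rw [h3]
  refine hT.mono' ?_ (hT.sum P (fun p => e p * y p) (n + 5 + P.card + 1) fun p hp => ?_)
  · omega
  · exact hT.mul _ _ _ (he p hp).1 (hT.mono' (by omega) (hy p hp).1)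

end

end Pool.Agent.H82.BC
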