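import Pool.Agent.H82.BC.Ring
import Pool.Agent.H82.BGK.Core

/-!
# Sets with all multipliers in a product of prime fields
-/

set_option autoImplicit false

namespace Pool.Agent.H82.BC

open Finset Pool.Agent.H82.BGK
open scoped Pointwise

section

variable {R : Type*} [CommRing R] [DecidableEq R]

/-- the sums `∑ u_i a_i` -/
theorem card_sums_le {A : Finset R} (hA : A.Nonempty) {K L : ℝ}
    (hK : ((A - A).card : ℝ) ≤ K * A.card) {ι : Type*} (I : Finset ι) (u : ι → R)
    (hu : ∀ i ∈ I, Cv A L (u i)) :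
    ((∑ i ∈ I, A.image fun a => u i * a).card : ℝ) ≤ L ^ I.card * (K ^ (2 * I.card) * A.card) := by
  classical
  have hA0 : (0 : ℝ) < A.card := by exact_mod_cast hA.card_pos
  have h1 : ∃ X : Finset R, (X.card : ℝ) ≤ L ^ I.card ∧
      ∑ i ∈ I, (A.image fun a => u i * a) ⊆ X + (I.card • A - I.card • A) := by
    induction I using Finset.induction_on with
    | empty => exact ⟨0, by simp, by simp⟩
    | insert i I hi ih =>
      obtain ⟨X, hX1, hX2⟩ := ih fun j hj => hu j (mem_insert_of_mem hj)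
      obtain ⟨Y, hY1, hY2⟩ := hu i (mem_insert_self _ _)
      refine ⟨Y + X, ?_, ?_⟩
      · rw [card_insert_of_notMem hi, pow_succ]
        have hL : 0 ≤ L := (Nat.cast_nonneg _).trans hY1
        calc ((Y + X).card : ℝ) ≤ ((Y.card * X.card : ℕ) : ℝ) := by exact_mod_cast card_add_le
          _ = (Y.card : ℝ) * X.card := by push_cast; rfl
          _ ≤ L * L ^ I.card := by gcongr
          _ = _ := mul_comm _ _
      · rw [sum_insert hi, card_insert_of_notMem hi]
        have e1 : (A.image fun a => u i * a) ⊆ Y + (A - A) := by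
          intro z hz
          obtain ⟨a, ha, rfl⟩ := mem_image.1 hz
          obtain ⟨x, hx, a1, ha1, a2, ha2, e⟩ := hY2 a ha
          rw [e]
          exact add_mem_add hx (sub_mem_sub ha1 ha2)
        refine (add_subset_add e1 hX2).trans ?_
        rw [succ_nsmul]
        have e2 : Y + (A - A) + (X + (I.card • A - I.card • A)) =
            Y + X + (I.card • A + A - (I.card • A + A)) := by
          rw [add_add_add_comm, add_sub_add_comm, add_comm (A - A)]
        rw [e2]
  obtain ⟨X, hX1, hX2⟩ := h1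
  have h2 := pluennecke_ruzsa_inequality_nsmul_sub_nsmul_sub hA A I.card I.card
  have h3 : ((I.card • A - I.card • A).card : ℝ) ≤ K ^ (2 * I.card) * A.card := by
    have h3 : ((I.card • A - I.card • A).card : ℝ) ≤
        (((A - A).card : ℝ) / A.card) ^ (I.card + I.card) * A.card := by
      have h0 := (NNRat.cast_le (K := ℝ)).2 h2
      push_cast at h0
      exact h0
    refine h3.trans ?_
    have h4 : ((A - A).card : ℝ) / A.card ≤ K := by
      rw [div_le_iff₀ hA0]
      exact hK
    rw [two_mul]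
    gcongr
  have hL : (0 : ℝ) ≤ L ^ I.card := (Nat.cast_nonneg _).trans hX1
  calc ((∑ i ∈ I, A.image fun a => u i * a).card : ℝ) ≤
      ((X + (I.card • A - I.card • A)).card : ℝ) := by exact_mod_cast card_le_card hX2
    _ ≤ ((X.card * (I.card • A - I.card • A).card : ℕ) : ℝ) := by exact_mod_cast card_add_le
    _ = (X.card : ℝ) * ((I.card • A - I.card • A).card : ℝ) := by push_cast; rfl
    _ ≤ _ := by gcongr

end

section

variable {q : ℕ} [NeZero q] {P : Finset ℕ}

omit [NeZero q] in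
/-- the reduction is onto -/
theorem pr_surj {p : ℕ} [NeZero p] (h : p ∣ q) (y : ZMod p) :
    pr q p ((y.val : ℕ) : ZMod q) = y := by
  rw [pr_natCast h, ZMod.natCast_zmod_val]

/-- an idempotent -/
structure Idem (P : Finset ℕ) (q p : ℕ) (e : ZMod q) : Prop where
  one : pr q p e = 1
  zero : ∀ p' ∈ P, p' ≠ p → pr q p' e = 0

omit [NeZero q] in
theorem exists_idem (hP : ∀ p ∈ P, p.Prime) (hq : q = ∏ p ∈ P, p) {p : ℕ} (hp : p ∈ P) :
    ∃ e : ZMod q, Idem P q p e := by
  have hdvd : ∀ p ∈ P, p ∣ q := fun p hp => hq ▸ dvd_prod_of_mem (fun p => p) hp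
  have hT : Fil fun _ : ℕ => (Set.univ : Set (ZMod q)) := by
    refine ⟨?_, ?_, ?_, ?_, ?_, ?_⟩ <;> intros <;> exact Set.mem_univ _
  obtain ⟨e, -, h1, h2⟩ := idem hT (n := 0) hP hq (fun p hp y => by
    have := Fact.mk (hP p hp)
    exact ⟨_, Set.mem_univ _, pr_surj (hdvd p hp) y⟩) hp
  exact ⟨e, h1, h2⟩

variable {p : ℕ} {e : ZMod q}

theorem Idem.mul_self (hP : ∀ p ∈ P, p.Prime) (hq : q = ∏ p ∈ P, p) (hp : p ∈ P)
    (he : Idem P q p e) : e * e = e := by
  have hdvd : ∀ p ∈ P, p ∣ q := fun p hp => hq ▸ dvd_prod_of_mem (fun p => p) hp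
  refine ext_pr hP hq fun p' hp' => ?_
  rw [pr_mul (hdvd p' hp')]
  by_cases h : p' = p
  · subst h
    rw [he.one, one_mul]
  · rw [he.zero p' hp' h, zero_mul]

/-- an element of the ideal is determined by its reduction -/
theorem Idem.ext (hP : ∀ p ∈ P, p.Prime) (hq : q = ∏ p ∈ P, p) (hp : p ∈ P)
    (he : Idem P q p e) {x y : ZMod q} (h : pr q p x = pr q p y) : e * x = e * y := by
  have hdvd : ∀ p ∈ P, p ∣ q := fun p hp => hq ▸ dvd_prod_of_mem (fun p => p) hp
  refine ext_pr hP hq fun p' hp' => ?_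
  rw [pr_mul (hdvd p' hp'), pr_mul (hdvd p' hp')]
  by_cases h1 : p' = p
  · subst h1
    rw [h]
  · rw [he.zero p' hp' h1, zero_mul, zero_mul]

/-- the sums with the idempotent: `|A_p + y A_p| |(1 - e) A| ≤ |e A + e ỹ A + (1 - e) A|` -/
theorem card_three [Fact p.Prime] (hP : ∀ p ∈ P, p.Prime) (hq : q = ∏ p ∈ P, p) (hp : p ∈ P)
    (he : Idem P q p e) (A : Finset (ZMod q)) (y : ZMod p) :
    (Sm (A.image (pr q p)) y).card * (A.image fun a => (1 - e) * a).card ≤
      (∑ i ∈ (univ : Finset (Fin 3)),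
        A.image fun a => (![e, e * ((y.val : ℕ) : ZMod q), 1 - e] : Fin 3 → ZMod q) i * a).card := by
  classical
  have hdvd : p ∣ q := hq ▸ dvd_prod_of_mem (fun p => p) hp
  have hee := he.mul_self hP hq hp
  rw [← card_product]
  have hsub : (Sm (A.image (pr q p)) y) ×ˢ (A.image fun a => (1 - e) * a) ⊆
      (∑ i ∈ (univ : Finset (Fin 3)),
        A.image fun a => (![e, e * ((y.val : ℕ) : ZMod q), 1 - e] : Fin 3 → ZMod q) i * a).image
        fun z => (pr q p z, (1 - e) * z) := by
    rintro ⟨s, w⟩ hsw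
    rw [mem_product] at hsw
    obtain ⟨hs, hw⟩ := hsw
    obtain ⟨⟨b, b'⟩, hb, hbs⟩ := mem_image.1 hs
    rw [mem_product] at hb
    obtain ⟨a, ha, hab⟩ := mem_image.1 hb.1
    obtain ⟨a', ha', hab'⟩ := mem_image.1 hb.2
    obtain ⟨a'', ha'', haw⟩ := mem_image.1 hw
    simp only at hab hab' hbs haw
    refine mem_image.2 ⟨e * a + e * ((y.val : ℕ) : ZMod q) * a' + (1 - e) * a'', ?_, ?_⟩
    · rw [Fin.sum_univ_three]
      exact add_mem_add (add_mem_add (mem_image_of_mem _ ha) (mem_image_of_mem _ ha'))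
        (mem_image_of_mem _ ha'')
    · refine Prod.ext ?_ ?_
      · simp only
        rw [pr_add hdvd, pr_add hdvd, pr_mul hdvd, pr_mul hdvd, pr_mul hdvd, pr_mul hdvd,
          pr_sub hdvd, he.one, pr_one hdvd, pr_surj hdvd, sub_self, one_mul, one_mul, zero_mul,
          add_zero, hab, hab', hbs]
      · simp only
        rw [← haw]
        linear_combination (-a - ((y.val : ℕ) : ZMod q) * a' + a'') * hee
  exact (card_le_card hsub).trans card_image_le

theorem card_two (hP : ∀ p ∈ P, p.Prime) (hq : q = ∏ p ∈ P, p) (hp : p ∈ P)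
    (he : Idem P q p e) (A : Finset (ZMod q)) :
    (A.image (pr q p)).card * (A.image fun a => (1 - e) * a).card ≤
      (∑ i ∈ (univ : Finset (Fin 2)),
        A.image fun a => (![e, 1 - e] : Fin 2 → ZMod q) i * a).card := by
  classical
  have hdvd : p ∣ q := hq ▸ dvd_prod_of_mem (fun p => p) hp
  have hee := he.mul_self hP hq hp
  rw [← card_product]
  have hsub : (A.image (pr q p)) ×ˢ (A.image fun a => (1 - e) * a) ⊆
      (∑ i ∈ (univ : Finset (Fin 2)),
        A.image fun a => (![e, 1 - e] : Fin 2 → ZMod q) i * a).image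
        fun z => (pr q p z, (1 - e) * z) := by
    rintro ⟨s, w⟩ hsw
    rw [mem_product] at hsw
    obtain ⟨hs, hw⟩ := hsw
    obtain ⟨a, ha, hab⟩ := mem_image.1 hs
    obtain ⟨a'', ha'', haw⟩ := mem_image.1 hw
    simp only at hab haw
    refine mem_image.2 ⟨e * a + (1 - e) * a'', ?_, ?_⟩
    · rw [Fin.sum_univ_two]
      exact add_mem_add (mem_image_of_mem _ ha) (mem_image_of_mem _ ha'')
    · refine Prod.ext ?_ ?_
      · simp only
        rw [pr_add hdvd, pr_mul hdvd, pr_mul hdvd,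
          pr_sub hdvd, he.one, pr_one hdvd, sub_self, one_mul, zero_mul,
          add_zero, hab]
      · simp only
        rw [← haw]
        linear_combination (-a + a'') * hee
  exact (card_le_card hsub).trans card_image_le

theorem card_le_two (hP : ∀ p ∈ P, p.Prime) (hq : q = ∏ p ∈ P, p)
    (he : Idem P q p e) (A : Finset (ZMod q)) :
    A.card ≤ (A.image (pr q p)).card * (A.image fun a => (1 - e) * a).card := by
  classical
  have hdvd : ∀ p ∈ P, p ∣ q := fun p hp => hq ▸ dvd_prod_of_mem (fun p => p) hp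
  rw [← card_product]
  refine card_le_card_of_injOn (fun a => (pr q p a, (1 - e) * a)) ?_ ?_
  · intro a ha
    exact mem_product.2 ⟨mem_image_of_mem _ ha, mem_image_of_mem _ ha⟩
  · intro a _ b _ h
    simp only [Prod.mk.injEq] at h
    refine ext_pr hP hq fun p' hp' => ?_
    by_cases h1 : p' = p
    · subst h1
      exact h.1
    · have h2 := congrArg (pr q p') h.2
      rwa [pr_mul (hdvd p' hp'), pr_mul (hdvd p' hp'), pr_sub (hdvd p' hp'), he.zero p' hp' h1,
        pr_one (hdvd p' hp'), sub_zero, one_mul, one_mul] at h2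

theorem card_le_prod (hP : ∀ p ∈ P, p.Prime) (hq : q = ∏ p ∈ P, p) (A : Finset (ZMod q)) :
    A.card ≤ ∏ p ∈ P, (A.image (pr q p)).card := by
  classical
  rw [← card_pi]
  refine card_le_card_of_injOn (fun a => fun p _ => pr q p a) ?_ ?_
  · intro a ha
    rw [mem_coe, mem_pi]
    intro p _
    exact mem_image_of_mem _ ha
  · intro a _ b _ h
    refine ext_pr hP hq fun p hp => ?_
    have := congrFun (congrFun h p) hp
    exact this

/-- **the dichotomy for one prime** -/
theorem dich (hP : ∀ p ∈ P, p.Prime) (hq : q = ∏ p ∈ P, p) (hp : p ∈ P)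
    {A : Finset (ZMod q)} (hA : A.Nonempty) {K L : ℝ} (hAK : ((A - A).card : ℝ) ≤ K * A.card)
    (hall : ∀ u : ZMod q, Cv A L u) :
    (((A.image (pr q p)).card : ℝ) ≤ 2 * (L ^ 3 * K ^ 6)) ∨
      (p : ℝ) ≤ 2 * (L ^ 3 * K ^ 6) * (A.image (pr q p)).card := by
  classical
  have hpp := Fact.mk (hP p hp)
  obtain ⟨e, he⟩ := exists_idem hP hq hp
  set Ap := A.image (pr q p) with hAp
  set G := A.image fun a => (1 - e) * a with hG
  have hApne : Ap.Nonempty := hA.image _
  have hAp0 : (0 : ℝ) < Ap.card := by exact_mod_cast hApne.card_pos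
  have hG0 : (0 : ℝ) < G.card := by exact_mod_cast (hA.image _).card_pos
  set C : ℝ := L ^ 3 * K ^ 6 with hC
  have hL0 : 0 ≤ L := by
    obtain ⟨X, hX, _⟩ := hall 0
    exact (Nat.cast_nonneg _).trans hX
  have h1 : ∀ y : ZMod p, ((Sm Ap y).card : ℝ) ≤ C * Ap.card := by
    intro y
    have e1 := card_three hP hq hp he A y
    have e2 := card_sums_le hA hAK (univ : Finset (Fin 3))
      (![e, e * ((y.val : ℕ) : ZMod q), 1 - e] : Fin 3 → ZMod q) fun i _ => hall _
    have e3 := card_le_two hP hq he A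
    rw [card_univ, Fintype.card_fin] at e2
    have e1' : ((Sm Ap y).card : ℝ) * G.card ≤ (∑ i ∈ (univ : Finset (Fin 3)),
        A.image fun a => (![e, e * ((y.val : ℕ) : ZMod q), 1 - e] : Fin 3 → ZMod q) i * a).card := by
      exact_mod_cast e1
    have e3' : (A.card : ℝ) ≤ Ap.card * G.card := by exact_mod_cast e3
    have e4 : ((Sm Ap y).card : ℝ) * G.card ≤ (C * Ap.card) * G.card := by
      calc ((Sm Ap y).card : ℝ) * G.card ≤ L ^ 3 * (K ^ (2 * 3) * A.card) := e1'.trans e2
        _ = C * A.card := by rw [hC]; ring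
        _ ≤ C * (Ap.card * G.card) := by
          have hC0 : 0 ≤ C := by
            rw [hC]
            positivity
          gcongr
        _ = _ := by ring
    exact le_of_mul_le_mul_right e4 hG0
  obtain ⟨u, -, h2⟩ := exists_large hApne (univ_nonempty : (univ : Finset (ZMod p)).Nonempty)
  rw [card_univ, ZMod.card] at h2
  have h2' : (Ap.card : ℝ) ^ 2 * p ≤ (Sm Ap u).card * (p + (Ap.card : ℝ) ^ 2) := by
    exact_mod_cast h2
  have h3 : (Ap.card : ℝ) * p ≤ C * (p + (Ap.card : ℝ) ^ 2) := by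
    have h4 : (Ap.card : ℝ) * (Ap.card * p) ≤ Ap.card * (C * (p + (Ap.card : ℝ) ^ 2)) := by
      calc (Ap.card : ℝ) * (Ap.card * p) = (Ap.card : ℝ) ^ 2 * p := by ring
        _ ≤ _ := h2'
        _ ≤ (C * Ap.card) * (p + (Ap.card : ℝ) ^ 2) := by
          have := h1 u
          gcongr
        _ = _ := by ring
    exact le_of_mul_le_mul_left h4 hAp0
  have hp0 : (0 : ℝ) < p := by exact_mod_cast hpp.out.pos
  have hC0 : 0 ≤ C := by
    rw [hC]
    positivity
  rcases le_total ((Ap.card : ℝ) ^ 2) p with h | h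
  · left
    have h5 : (Ap.card : ℝ) * p ≤ 2 * C * p := by nlinarith
    exact le_of_mul_le_mul_right h5 hp0
  · right
    have h5 : (p : ℝ) * Ap.card ≤ (2 * C * Ap.card) * Ap.card := by nlinarith
    exact le_of_mul_le_mul_right h5 hAp0

/-- **a large fibre** -/
theorem fibre (hP : ∀ p ∈ P, p.Prime) (hq : q = ∏ p ∈ P, p) (hp : p ∈ P) (he : Idem P q p e)
    {A : Finset (ZMod q)} (hA : A.Nonempty) {K L : ℝ} (hAK : ((A - A).card : ℝ) ≤ K * A.card)
    (hall : ∀ u : ZMod q, Cv A L u) :
    ∃ z : ZMod q, ((A.image (pr q p)).card : ℝ) ≤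
      L ^ 2 * K ^ 4 * ((A.filter fun a => (1 - e) * a = z).card : ℝ) := by
  classical
  set Ap := A.image (pr q p) with hAp
  set G := A.image fun a => (1 - e) * a with hG
  have hG0 : (0 : ℝ) < G.card := by exact_mod_cast (hA.image _).card_pos
  have hL0 : 0 ≤ L := by
    obtain ⟨X, hX, _⟩ := hall 0
    exact (Nat.cast_nonneg _).trans hX
  have e1 := card_two hP hq hp he A
  have e2 := card_sums_le hA hAK (univ : Finset (Fin 2))
    (![e, 1 - e] : Fin 2 → ZMod q) fun i _ => hall _
  rw [card_univ, Fintype.card_fin] at e2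
  have e1' : (Ap.card : ℝ) * G.card ≤ (∑ i ∈ (univ : Finset (Fin 2)),
      A.image fun a => (![e, 1 - e] : Fin 2 → ZMod q) i * a).card := by
    exact_mod_cast e1
  have h1 : (Ap.card : ℝ) * G.card ≤ L ^ 2 * K ^ 4 * A.card := by
    calc (Ap.card : ℝ) * G.card ≤ L ^ 2 * (K ^ (2 * 2) * A.card) := e1'.trans e2
      _ = _ := by ring
  -- a large fibre
  obtain ⟨z, hz, h2⟩ : ∃ z ∈ G, (A.card : ℝ) / G.card ≤
      ((A.filter fun a => (1 - e) * a = z).card : ℝ) := by
    have h3 : (A.card : ℝ) = ∑ z ∈ G, ((A.filter fun a => (1 - e) * a = z).card : ℝ) := by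
      have := card_eq_sum_card_image (fun a => (1 - e) * a) A
      exact_mod_cast this
    have h4 : ∑ z ∈ G, (A.card : ℝ) / G.card ≤
        ∑ z ∈ G, ((A.filter fun a => (1 - e) * a = z).card : ℝ) := by
      rw [← h3, sum_const, nsmul_eq_mul, mul_div_cancel₀ _ hG0.ne']
    exact exists_le_of_sum_le (hA.image _) h4
  refine ⟨z, ?_⟩
  rw [div_le_iff₀ hG0] at h2
  have h3 : (Ap.card : ℝ) * G.card ≤
      (L ^ 2 * K ^ 4 * ((A.filter fun a => (1 - e) * a = z).card : ℝ)) * G.card := by
    calc (Ap.card : ℝ) * G.card ≤ L ^ 2 * K ^ 4 * A.card := h1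
      _ ≤ L ^ 2 * K ^ 4 * (((A.filter fun a => (1 - e) * a = z).card : ℝ) * G.card) := by
        gcongr
      _ = _ := by ring
  exact le_of_mul_le_mul_right h3 hG0

end

end Pool.Agent.H82.BC
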